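import Pool.Agent.MP_c853c5_nt.E.Defs

set_option autoImplicit false

open Finset Filter

namespace Pool.Agent.MP_c853c5_nt.E

open Pool.Agent.MP_2a1f0e_nt Pool.Agent.MP_2a1f0e_nt.GM Pool.Agent.MP_2a1f0e_nt.DH

lemma Con.mono {τ n n' w r : ℝ} (h : Con τ n w r) (hn : n ≤ n') : Con τ n' w r := by
  obtain ⟨h1, h2, h3, h4, h5⟩ := h
  have m1 : max τ n ≤ max τ n' := max_le_max le_rfl hn
  have m2 : max n (τ / 2) ≤ max n' (τ / 2) := max_le_max hn le_rfl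
  refine ⟨by linarith, h2.trans (max_le_max (by linarith) (by linarith)),
    h3.trans (max_le_max (by linarith) (max_le_max (by linarith) (by linarith))),
    h4.trans (max_le_max (by linarith) (by linarith)),
    h5.trans (max_le_max (by linarith) (max_le_max (by linarith) le_rfl))⟩

/-- no constraint is active at `r = 0` -/
lemma Con.zero {τ n w : ℝ} (h : w ≤ n / 2) : Con τ n w 0 :=
  ⟨by linarith [le_max_right τ n], le_max_of_le_left (by linarith),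
    le_max_of_le_left (by linarith), le_max_of_le_left (by linarith),
    le_max_of_le_left (by linarith)⟩

section
variable {ι ι' : Type} [Fintype ι] [Fintype ι']

/-- shorter factors are easier -/
lemma Eval.anti {K : ℕ} {τ η s : ℝ} {b b' : ι → ℝ} (h : Eval K τ η s b')
    (hb : ∀ j, b j ≤ b' j) : Eval K τ η s b := fun r v h0 h1 h2 h3 =>
  h r v h0 h1 (fun j => by linarith [h2 j, hb j]) fun κ hκ => (h3 κ hκ).mono
    (sum_le_sum fun j _ => mul_le_mul_of_nonneg_left (hb j) (Nat.cast_nonneg _))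

lemma Eval.mono {K K' : ℕ} {τ η η' s s' : ℝ} {b : ι → ℝ} (h : Eval K τ η s b) (hK : K ≤ K')
    (hη : η' ≤ η) (hs : s ≤ s') : Eval K' τ η' s' b := fun r v h0 h1 h2 h3 => by
  have := h r v h0 h1 h2 fun κ hκ => h3 κ fun j => (hκ j).trans hK
  nlinarith

/-- factors may be merged into groups -/
lemma Eval.group [DecidableEq ι'] {K : ℕ} {τ η s : ℝ} {b : ι → ℝ} {b' : ι' → ℝ} (g : ι → ι')
    (h : Eval K τ η s b') (hb : ∀ i, ∑ j ∈ univ.filter (fun j => g j = i), b j ≤ b' i) :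
    Eval K τ η s b := by
  intro r v h0 h1 h2 h3
  have key : ∀ (κ : ι' → ℕ) (f : ι → ℝ),
      ∑ i, (κ i : ℝ) * ∑ j ∈ univ.filter (fun j => g j = i), f j = ∑ j, (κ (g j) : ℝ) * f j := by
    intro κ f
    rw [← sum_fiberwise univ g fun j => (κ (g j) : ℝ) * f j]
    refine sum_congr rfl fun i _ => ?_
    rw [mul_sum]
    exact sum_congr rfl fun j hj => by rw [(mem_filter.1 hj).2]
  have := (h.anti hb) r (fun i => ∑ j ∈ univ.filter (fun j => g j = i), v j) h0 h1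
    (fun i => by
      rw [sum_div]
      exact sum_le_sum fun j _ => h2 j)
    (fun κ hκ => by
      rw [key, key]
      exact h3 (fun j => κ (g j)) fun j => hκ _)
  rwa [sum_fiberwise univ g v] at this

lemma Eval.toX {K : ℕ} {τ η s : ℝ} {b : ι → ℝ} (h : Eval K τ η s b) :
    EvalX (fun _ _ => True) K τ η s b := fun r v h0 h1 h2 h3 _ => h r v h0 h1 h2 h3

/-- the total length -/
lemma Eval.total {K : ℕ} {τ η s : ℝ} {b : ι → ℝ} (h : Eval K τ η s b) (hτ : 0 ≤ τ) :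
    ∑ j, b j / 2 ≤ s := by
  have := h 0 (fun j => b j / 2) le_rfl hτ (fun _ => le_rfl) fun κ _ => Con.zero (by
    rw [sum_div]
    exact (sum_congr rfl fun j _ => by ring).le)
  linarith

end

lemma av_nonneg (τ a : ℝ) : 0 ≤ av τ a := le_max_left _ _

lemma av_le {τ : ℝ} (hτ : 0 ≤ τ) (a : ℝ) : av τ a ≤ τ / 2 :=
  max_le (by linarith) (by
    rcases le_total a (τ / 2) with h | h
    · exact (min_le_left _ _).trans h
    · exact (min_le_right _ _).trans (by linarith))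

lemma continuous_FP (s : Finset ℕ) (c : ℕ → ℝ) : Continuous (FP s c) :=
  continuous_finsetSum _ fun _ _ => continuous_const.mul (continuous_pw _)

lemma continuous_BP (N : ℕ) (c : ℕ → ℝ) : Continuous (BP N c) := continuous_FP _ _

lemma continuous_ZS (y : ℝ) : Continuous (ZS y) := continuous_FP _ _

lemma norm_FP_le (s : Finset ℕ) {c : ℕ → ℝ} (hc : ∀ n, |c n| ≤ 1) (t : ℝ) :
    ‖FP s c t‖ ≤ s.card := by
  refine (norm_sum_le _ _).trans ((sum_le_card_nsmul _ _ 1 fun n _ => ?_).trans (by simp))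
  rw [norm_mul, norm_pw, mul_one, Complex.norm_real]
  exact hc n

lemma card_blk_le {N : ℕ} (hN : 1 ≤ N) : ((Icc N (2 * N)).card : ℝ) ≤ 2 * N := by
  rw [Nat.card_Icc]
  exact_mod_cast (by omega : 2 * N + 1 - N ≤ 2 * N)

lemma norm_BP_le {N : ℕ} (hN : 1 ≤ N) {c : ℕ → ℝ} (hc : ∀ n, |c n| ≤ 1) (t : ℝ) :
    ‖BP N c t‖ ≤ 2 * N :=
  (norm_FP_le _ hc t).trans (card_blk_le hN)

lemma BP_eq_DP (N : ℕ) (c : ℕ → ℝ) (t : ℝ) : BP N c t = DP N (fun n => (c n : ℂ)) t := rfl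

lemma om_nonneg {x : ℝ} (hx : 0 ≤ x) : 0 ≤ om x :=
  sub_nonneg.2 (psi_anti (by linarith))

lemma abs_oc_le (y : ℝ) (l : ℕ) : |oc y l| ≤ 1 := by
  unfold oc om
  rw [abs_le]
  constructor <;>
    linarith [psi_nonneg ((l : ℝ) / y), psi_le_one ((l : ℝ) / y),
      psi_nonneg (3 / 4 * ((l : ℝ) / y)), psi_le_one (3 / 4 * ((l : ℝ) / y))]

lemma oc_zero (y : ℝ) : oc y 0 = 0 := om_eq_zero (Or.inl (by simp))

lemma oc_ne_zero {y : ℝ} (hy : 0 < y) {l : ℕ} (h : oc y l ≠ 0) :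
    y < l ∧ (l : ℝ) < 5 / 3 * y := by
  by_contra hn
  refine h (om_eq_zero ?_)
  rw [not_and_or, not_lt, not_lt] at hn
  exact hn.imp (fun h => (div_le_one hy).2 h) fun h => (le_div_iff₀ hy).2 h

lemma mem_of_oc_ne_zero {y : ℝ} (hy : 5 ≤ y) {l : ℕ} (h : oc y l ≠ 0) :
    l ∈ Ioc ⌊y⌋₊ (2 * ⌊y⌋₊) := by
  obtain ⟨h1, h2⟩ := oc_ne_zero (by linarith) h
  have h3 := Nat.floor_le (show 0 ≤ y by linarith)
  have h4 := Nat.lt_floor_add_one y
  have h5 : 5 ≤ ⌊y⌋₊ := Nat.le_floor (by exact_mod_cast hy)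
  have h6 : (5 : ℝ) ≤ ⌊y⌋₊ := by exact_mod_cast h5
  refine mem_Ioc.2 ⟨by exact_mod_cast h3.trans_lt h1, ?_⟩
  have : (l : ℝ) ≤ 2 * ⌊y⌋₊ := by linarith
  exact_mod_cast this

lemma norm_ZS_le {y : ℝ} (hy : 0 ≤ y) (t : ℝ) : ‖ZS y t‖ ≤ y := by
  have := norm_FP_le (Ioc ⌊y⌋₊ (2 * ⌊y⌋₊)) (abs_oc_le y) t
  rw [Nat.card_Ioc, show 2 * ⌊y⌋₊ - ⌊y⌋₊ = ⌊y⌋₊ by omega] at this
  exact this.trans (Nat.floor_le hy)

lemma sum_hf_le (L : ℕ) : ∑ n ∈ Icc 1 L, hf (n : ℝ) ≤ 2 * √L := by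
  induction L with
  | zero => simp
  | succ L ih =>
    rw [sum_Icc_succ_top (by omega)]
    have h0 : (0 : ℝ) ≤ L := Nat.cast_nonneg _
    have h1 : 0 < √((L + 1 : ℕ) : ℝ) := Real.sqrt_pos.2 (by positivity)
    have h2 : √((L + 1 : ℕ) : ℝ) ^ 2 = L + 1 := by
      rw [Real.sq_sqrt (by positivity)]; push_cast; ring
    have h3 : √(L : ℝ) ^ 2 = L := Real.sq_sqrt h0
    have h4 : hf ((L + 1 : ℕ) : ℝ) ≤ 2 * (√((L + 1 : ℕ) : ℝ) - √(L : ℝ)) := by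
      rw [hf, div_le_iff₀ h1]
      nlinarith [sq_nonneg (√((L + 1 : ℕ) : ℝ) - √(L : ℝ))]
    linarith

lemma norm_NP_le (L : ℕ) {c : ℕ → ℂ} (hc : ∀ n, ‖c n‖ ≤ 1) (t : ℝ) : ‖NP L c t‖ ≤ 2 * √L := by
  refine (norm_sum_le _ _).trans (le_trans (sum_le_sum fun n _ => ?_) (sum_hf_le L))
  rw [norm_mul, norm_pw, mul_one, norm_mul, Complex.norm_real, Real.norm_of_nonneg (hf_nonneg _)]
  exact mul_le_of_le_one_right (hf_nonneg _) (hc n)

lemma NP_one {L : ℕ} (hL : 1 ≤ L) (t : ℝ) : NP L (fun n => if n = 1 then 1 else 0) t = 1 := by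
  unfold NP PP
  rw [sum_eq_single_of_mem 1 (mem_Icc.2 ⟨le_rfl, hL⟩) fun n _ hn => by simp [hn]]
  simp [hf, pw_one]

lemma NP_add (L : ℕ) (c : ℕ → ℂ) (u ξ : ℝ) :
    NP L c (u + ξ) = NP L (fun n => c n * pw (n : ℝ) ξ) u := by
  unfold NP
  rw [PP_add]
  simp only [mul_assoc]

lemma ZZ_eq_NP (M : ℕ) (u : ℝ) : ZZ M u = NP M (fun _ => 1) u := by simp [ZZ, NP]

lemma Dom.mono {S : Finset ℤ} {φ ψ : ℤ → ℝ} {L : ℕ} {Δ Δ' lam : ℝ} (h : Dom S φ L Δ)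
    (hΔ : 0 ≤ Δ) (hl : 0 ≤ lam) (hΔ' : lam * Δ ≤ Δ') (hψ : ∀ t ∈ S, 0 ≤ ψ t ∧ ψ t ≤ lam * φ t) :
    Dom S ψ L Δ' := by
  intro w m hw
  obtain ⟨c, hc, h1⟩ := h w m hw
  refine ⟨c, hc, ?_⟩
  have h2 : 0 ≤ ∑ t ∈ S, w t * ‖NP L c t‖ ^ m :=
    sum_nonneg fun t ht => mul_nonneg (hw t ht) (by positivity)
  calc ∑ t ∈ S, w t * ψ t ^ m ≤ ∑ t ∈ S, lam ^ m * (w t * φ t ^ m) := by
        refine sum_le_sum fun t ht => ?_
        rw [mul_left_comm, ← mul_pow]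
        exact mul_le_mul_of_nonneg_left (pow_le_pow_left₀ (hψ t ht).1 (hψ t ht).2 m) (hw t ht)
    _ ≤ lam ^ m * (Δ ^ m * ∑ t ∈ S, w t * ‖NP L c t‖ ^ m) := by
        rw [← mul_sum]
        exact mul_le_mul_of_nonneg_left h1 (by positivity)
    _ ≤ _ := by
        rw [← mul_assoc, ← mul_pow]
        exact mul_le_mul_of_nonneg_right (pow_le_pow_left₀ (by positivity) hΔ' m) h2

lemma Dom.le {S : Finset ℤ} {φ : ℤ → ℝ} {L : ℕ} {Δ : ℝ} (h : Dom S φ L Δ) (hΔ : 0 ≤ Δ)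
    {t : ℤ} (ht : t ∈ S) : φ t ≤ Δ * (2 * √L) := by
  obtain ⟨c, hc, h1⟩ := h (fun s => if s = t then 1 else 0) 1 fun s _ => by
    split_ifs <;> norm_num
  simp only [ite_mul, one_mul, zero_mul, sum_ite_eq', ht, if_true, pow_one] at h1
  exact h1.trans (mul_le_mul_of_nonneg_left (norm_NP_le L hc t) hΔ)

/-- it is enough to be dominated by the supremum -/
lemma Dom.of_sup {S : Finset ℤ} {φ : ℤ → ℝ} {L : ℕ} {Δ : ℝ} (hΔ : 0 ≤ Δ)
    (h : ∀ (w : ℤ → ℝ) (m : ℕ) (B : ℝ), 1 ≤ m → (∀ t ∈ S, 0 ≤ w t) →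
      (∀ c : ℕ → ℂ, (∀ n, ‖c n‖ ≤ 1) → ∑ t ∈ S, w t * ‖NP L c t‖ ^ m ≤ B) →
      ∑ t ∈ S, w t * φ t ^ m ≤ Δ ^ m * B) : Dom S φ L (2 * Δ) := by
  intro w m hw
  rcases Nat.eq_zero_or_pos m with rfl | hm
  · exact ⟨fun _ => 0, by simp, by simp⟩
  by_contra hn
  push Not at hn
  set A := ∑ t ∈ S, w t * φ t ^ m
  have h0 : 0 < A := by
    refine lt_of_le_of_lt ?_ (hn (fun _ => 0) (by simp))
    exact mul_nonneg (by positivity) (sum_nonneg fun t ht => mul_nonneg (hw t ht) (by positivity))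
  rcases hΔ.eq_or_lt with rfl | hΔ'
  · have := h w m (∑ t ∈ S, w t * (2 * √(L : ℝ)) ^ m) hm hw fun c hc =>
      sum_le_sum fun t ht => mul_le_mul_of_nonneg_left
        (pow_le_pow_left₀ (norm_nonneg _) (norm_NP_le L hc t) m) (hw t ht)
    rw [zero_pow hm.ne', zero_mul] at this
    linarith
  have hp : 0 < (2 * Δ) ^ m := by positivity
  have h1 := h w m (A / (2 * Δ) ^ m) hm hw fun c hc => by
    rw [le_div_iff₀ hp, mul_comm]
    exact (hn c hc).le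
  have h2 : Δ ^ m * (A / (2 * Δ) ^ m) = A / 2 ^ m := by
    rw [mul_pow]
    field_simp
  have h3 : (1 : ℝ) < 2 ^ m := one_lt_pow₀ (by norm_num) hm.ne'
  rw [h2, le_div_iff₀ (by positivity)] at h1
  nlinarith

/-- constants and powers of the logarithm are below every power -/
lemma ev_log_le (C : ℝ) (A : ℕ) {γ : ℝ} (hγ : 0 < γ) :
    ∀ᶠ x : ℝ in atTop, C * Real.log x ^ A ≤ x ^ γ := by
  have h := (isLittleO_log_rpow_rpow_atTop (A : ℝ) hγ).const_mul_left C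
  filter_upwards [h.bound one_pos, eventually_gt_atTop 0] with x hx h0
  rw [one_mul, Real.norm_of_nonneg (Real.rpow_nonneg h0.le _), Real.rpow_natCast] at hx
  exact (le_abs_self _).trans hx

lemma ev_const_le (C : ℝ) {γ : ℝ} (hγ : 0 < γ) : ∀ᶠ x : ℝ in atTop, C ≤ x ^ γ := by
  simpa using ev_log_le C 0 hγ

lemma ev_le_log (C : ℝ) : ∀ᶠ x : ℝ in atTop, C ≤ Real.log x :=
  Real.tendsto_log_atTop.eventually_ge_atTop C

end Pool.Agent.MP_c853c5_nt.E
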