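import Pool.Agent.MP_c853c5_nt.E.Win

/-!
The type II estimate for a convolution.
-/

set_option autoImplicit false

open Finset Filter Topology

namespace Pool.Agent.MP_c853c5_nt.E

open Pool.Agent.MP_2a1f0e_nt
open S (AF sgl prI Dl)

lemma ev_sav {c : ℝ} (hc : 0 < c) (B : ℕ) : ∀ᶠ x : ℝ in atTop, ∀ N : ℕ, x ^ c ≤ (N : ℝ) →
    Z.sav N ≤ 1 / Real.log x ^ B := by
  have h := Real.tendsto_log_atTop.eventually
    (ev_log_le (B / c ^ (1 / 50 : ℝ)) 1 (show (0 : ℝ) < 1 / 50 by norm_num))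
  filter_upwards [h, ev_le_log 1, eventually_gt_atTop 0] with x h1 h2 h3 N hN
  have h4 : c * Real.log x ≤ Real.log N := by
    rw [← Real.log_rpow h3]
    exact Real.log_le_log (by positivity) hN
  have h5 : 0 < c ^ (1 / 50 : ℝ) := by positivity
  have h6 := Real.rpow_le_rpow (by positivity) h4 (show (0 : ℝ) ≤ 1 / 50 by norm_num)
  rw [Real.mul_rpow hc.le (by positivity)] at h6
  rw [pow_one, div_mul_eq_mul_div, div_le_iff₀ h5] at h1
  rw [one_div (Real.log x ^ B), ← Real.exp_log (show 0 < Real.log x ^ B by positivity),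
    ← Real.exp_neg, Real.log_pow]
  exact Real.exp_le_exp.2 (by linarith)

lemma prime_slot (hP : Z.PrStmt) {c δ : ℝ} (hc : 0 < c) (hδ : 0 < δ) (B : ℕ) :
    ∀ᶠ x : ℝ in atTop, ∀ (N P Q : ℕ) (t : ℝ), x ^ c ≤ (N : ℝ) → x ^ δ ≤ t → t ≤ x →
      ‖BP N (prI P Q) t‖ ≤ N / Real.log x ^ B := by
  obtain ⟨k, hk⟩ := exists_nat_ge (1 / c)
  obtain ⟨N₀, h⟩ := hP k
  filter_upwards [ev_sav hc (B + 1), ev_le_log 15, ev_const_le N₀ hc, ev_log_le 1 (B + 1) hc,
    ev_log_le 1 (B + 1) hδ, eventually_ge_atTop 1] with x h1 h2 h3 h4 h5 x1 N P Q t hN ht ht'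
  set u := Real.log x ^ (B + 1)
  have hu : 0 < u := by positivity
  have t0 : 0 ≤ t := le_trans (by positivity) ht
  have N1 : (1 : ℝ) ≤ N := (Real.one_le_rpow x1 hc.le).trans hN
  have e : BP N (prI P Q) t = (prI P Q N : ℂ) * GM.pw (N : ℝ) t +
      ∑ p ∈ (Ioc (max P N) (min Q (2 * N))).filter Nat.Prime,
        (((fun _ : ℕ => (1 : ℝ)) p : ℝ) : ℂ) * GM.pw (p : ℝ) t := by
    rw [BP, FP, Icc_eq_cons_Ioc (by omega : N ≤ 2 * N), sum_cons]
    congr 1
    symm
    refine sum_subset_zero_on_sdiff (fun p hp => ?_) (fun p hp => ?_) fun p hp => ?_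
    · simp only [mem_filter, mem_Ioc, max_lt_iff, le_min_iff] at hp ⊢
      tauto
    · simp only [Finset.mem_sdiff, mem_filter, mem_Ioc, max_lt_iff, le_min_iff] at hp
      have : ¬ (P < p ∧ p ≤ Q ∧ p.Prime) := by tauto
      simp [prI, this]
    · simp only [mem_filter, mem_Ioc, max_lt_iff, le_min_iff] at hp
      have : P < p ∧ p ≤ Q ∧ p.Prime := by tauto
      simp [prI, this]
  have a1 : ‖(prI P Q N : ℂ) * GM.pw (N : ℝ) t‖ ≤ N / u := by
    rw [norm_mul, GM.norm_pw, mul_one, le_div_iff₀ hu]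
    refine le_trans (mul_le_of_le_one_left hu.le ?_) (by linarith)
    simp only [prI, ArithmeticFunction.coe_mk]
    split_ifs <;> simp
  have a2 : ‖∑ p ∈ (Ioc (max P N) (min Q (2 * N))).filter Nat.Prime,
      (((fun _ : ℕ => (1 : ℝ)) p : ℝ) : ℂ) * GM.pw (p : ℝ) t‖ ≤ 14 * (N / u) := by
    rcases lt_or_ge (min Q (2 * N)) (max P N) with hl | hl
    · rw [Ioc_eq_empty_of_le hl.le]
      simp only [filter_empty, sum_empty, norm_zero]
      positivity
    set M := max P N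
    have m1 : (N : ℝ) ≤ M := by exact_mod_cast le_max_right P N
    have m2 : (M : ℝ) ≤ 2 * N := by exact_mod_cast hl.trans (min_le_right _ _)
    have m3 : |t| ≤ (M : ℝ) ^ k := by
      rw [abs_of_nonneg t0]
      refine ht'.trans (le_trans ?_ (pow_le_pow_left₀ (by positivity) (hN.trans m1) k))
      rw [← Real.rpow_mul_natCast (by linarith)]
      rw [div_le_iff₀ hc] at hk
      simpa using Real.rpow_le_rpow_of_exponent_le x1 (show 1 ≤ c * k by linarith)
    refine (h M _ t (fun _ => 1) (by exact_mod_cast h3.trans (hN.trans m1)) hl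
      ((min_le_right _ _).trans (Nat.mul_le_mul_left 2 (le_max_right _ _))) m3
      fun _ _ => ⟨zero_le_one, le_rfl⟩).trans ?_
    have b1 : 5 * (M : ℝ) / (1 + |t|) ≤ 10 * N / u :=
      div_le_div₀ (by positivity) (by linarith) hu (by rw [abs_of_nonneg t0]; linarith)
    have b2 : 2 * (M : ℝ) * Z.sav M ≤ 4 * N * (1 / u) :=
      mul_le_mul (by linarith) (h1 M (hN.trans m1)) (Z.sav_pos _).le (by positivity)
    calc _ ≤ 1 * (10 * N / u + 4 * N * (1 / u)) := by linarith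
      _ = _ := by ring
  rw [e]
  refine (norm_add_le _ _).trans ((add_le_add a1 a2).trans ?_)
  have l0 : 0 < Real.log x := by linarith
  calc (N : ℝ) / u + 14 * (N / u) = 15 / Real.log x * (N / Real.log x ^ B) := by
        simp only [u]
        field_simp
        ring
    _ ≤ _ := mul_le_of_le_one_left (by positivity) ((div_le_one l0).2 h2)

theorem e2d_of (hB : BoxIIStmt) (hP : Z.PrStmt) : S.E2D := by
  intro ι _ τ t η K A ht htτ hτ hη
  classical
  have h2 : 0 < η / 2 := by positivity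
  have key := fun q : {q : ι × ι × ι // q.1 ≠ q.2.1 ∧ q.1 ≠ q.2.2 ∧ q.2.1 ≠ q.2.2} =>
    hB ι K (A + 1) η (1 / 2000) (η / 2) q.1.2.1 q.1.2.2 q.1.1 q.2.2.2 q.2.1.symm q.2.2.1.symm hη
      (by norm_num) (by norm_num) h2
  choose f hf hq using key
  obtain ⟨γ, ⟨hγ, hγ1⟩, hγ2⟩ := (((eventually_all.2 fun q => Ioc_mem_nhdsGT (hf q)).and
    (Ioc_mem_nhdsGT h2)).exists).imp fun _ h => h.symm
  refine ⟨γ, hγ, ?_⟩
  filter_upwards [eventually_all.2 hq, win, wd_std,
    prime_slot hP h2 (show (0 : ℝ) < 1 / 2000 by norm_num) (A + 1 + 3),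
    eventually_ge_atTop (2 * (2 : ℝ) ^ Fintype.card ι), ev_le_log 2, ev_log_le 2 A one_pos,
    eventually_ge_atTop 1] with x hx hw hd hp hc l2 l3 x1 pr a N g ha hE hS hN hpr hle
  obtain ⟨⟨i, j, k, hij, hik, hjk, hi, ai, aj, ak⟩, hE⟩ := hE
  have low : ∀ l, η ≤ a l → x ^ (η / 2) ≤ (N l : ℝ) := fun l hl =>
    (Real.rpow_le_rpow_of_exponent_le x1 (by linarith)).trans (hN l).1
  obtain ⟨P, Q, hg⟩ := hpr i hi
  have b1 := hx ⟨(i, j, k), hij, hik, hjk⟩ t (Real.log x - Real.log (1 : ℕ)) _ _ a N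
    (fun l => g l) ht (by linarith) (hd t ht) ha (Eval.anti_tau htτ.le (by linarith) hE)
    (fun l => ⟨(hS l).1, (hN l).2.trans (Real.rpow_le_rpow_of_exponent_le x1
      (by linarith [(hγ2 ⟨(i, j, k), hij, hik, hjk⟩).2]))⟩)
    (by linarith) (low j aj) (low k ak) (fun l => (hS l).2.1)
    (fun s h1 h2 => by
      simp only [hg]
      exact hp _ P Q s (low i ai) h1 h2)
  have b2 := hw ι t g (fun l => Icc (N l) (2 * N l)) 1 ht (by linarith)
    (fun l hl => by have := (hS l).1; have := (mem_Icc.1 hl).1; omega)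
    (fun l n hn => mem_Icc.2 ⟨((hS l).2.2 n hn).1, ((hS l).2.2 n hn).2.le⟩)
    (fun l => (hS l).2.1) le_rfl (by
      refine (prod_le_prod (fun _ _ => Nat.cast_nonneg _) fun l _ => card_blk_le (hS l).1).trans ?_
      rw [prod_mul_distrib, prod_const, card_univ]
      have := mul_le_mul_of_nonneg_left hle (show (0 : ℝ) ≤ 2 ^ Fintype.card ι by positivity)
      nlinarith)
  rw [sgl_one, one_mul] at b2
  have l0 : 0 < Real.log x ^ A := by positivity
  have b3 : x / Real.log x ^ (A + 1) ≤ x / Real.log x ^ A / 2 := by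
    rw [pow_succ, ← div_div]
    exact div_le_div_of_nonneg_left (by positivity) two_pos l2
  have b4 : 2 ≤ x / Real.log x ^ A := by
    rw [le_div_iff₀ l0]
    simpa using l3
  linarith

end Pool.Agent.MP_c853c5_nt.E
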