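import Pool.Agent.MP_c853c5_nt.Z.YDefs

/-!
From a linear programme in the exponents to the comparison of a short and a long interval.
-/

set_option autoImplicit false

open Finset Filter

namespace Pool.Agent.MP_c853c5_nt.E

open Pool.Agent.MP_2a1f0e_nt Pool.Agent.MP_2a1f0e_nt.GM Pool.Agent.MP_2a1f0e_nt.DH

/-! ### the linear programme -/

/-- the large value bounds on the critical line: height `τ`, length `n`, value `w`, `r` points -/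
def Con (τ n w r : ℝ) : Prop :=
  r ≤ max τ n - 2 * w ∧
  r ≤ max (n - 2 * w) (τ + n - 6 * w) ∧
  r ≤ max (n - 2 * w) (max (τ / 2 + n - 4 * w) (τ + 8 / 21 * n - 4 * w)) ∧
  r ≤ max (n - 2 * w) (12 / 7 * max n (τ / 2) + τ / 7 - 4 * w) ∧
  r ≤ max (2 * n - 4 * w) (max (3 / 4 * τ + n - 6 * w) (τ - 6 * w))

/-- all products of powers -/
def Cons {ι : Type} [Fintype ι] (K : ℕ) (τ : ℝ) (b : ι → ℝ) (r : ℝ) (v : ι → ℝ) : Prop :=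
  ∀ κ : ι → ℕ, (∀ j, κ j ≤ K) → Con τ (∑ j, (κ j : ℝ) * b j) (∑ j, (κ j : ℝ) * v j) r

/-- the linear programme, with an extra constraint `X` -/
def EvalX {ι : Type} [Fintype ι] (X : ℝ → (ι → ℝ) → Prop) (K : ℕ) (τ η s : ℝ) (b : ι → ℝ) :
    Prop :=
  ∀ (r : ℝ) (v : ι → ℝ), 0 ≤ r → r ≤ τ → (∀ j, v j ≤ b j / 2) → Cons K τ b r v → X r v →
    (1 + η) * r + ∑ j, v j ≤ s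

/-- the linear programme: type II uses `η > 0`, `s = 1/2`; type I uses `η = 0`, `s < 1/2` -/
def Eval {ι : Type} [Fintype ι] (K : ℕ) (τ η s : ℝ) (b : ι → ℝ) : Prop :=
  ∀ (r : ℝ) (v : ι → ℝ), 0 ≤ r → r ≤ τ → (∀ j, v j ≤ b j / 2) → Cons K τ b r v →
    (1 + η) * r + ∑ j, v j ≤ s

/-- the effective length of a smooth factor of size `a` -/
def av (τ a : ℝ) : ℝ := max 0 (min a (τ - a))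

/-! ### large values on the critical line -/

noncomputable def Bd1 (L T V : ℝ) : ℝ := (T + L) / V ^ 2

noncomputable def Bd2 (L T V : ℝ) : ℝ := L / V ^ 2 + T * L / V ^ 6

noncomputable def Bd3 (L T V : ℝ) : ℝ :=
  L / V ^ 2 + (√T * L + T * L ^ (8 / 21 : ℝ)) / V ^ 4

noncomputable def Bd4 (L T V : ℝ) : ℝ :=
  L / V ^ 2 + (L ^ (12 / 7 : ℝ) * T ^ (1 / 7 : ℝ) + T) / V ^ 4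

noncomputable def Bd5 (L T V : ℝ) : ℝ :=
  L ^ 2 / V ^ 4 + (T ^ (3 / 4 : ℝ) * L + T) / V ^ 6

/-- polynomial on the critical line -/
noncomputable def NP (L : ℕ) (c : ℕ → ℂ) (t : ℝ) : ℂ := PP L (fun n => (hf (n : ℝ) : ℂ) * c n) t

/-- bound for a dyadic block -/
def DLV (B : ℝ → ℝ → ℝ → ℝ) : Prop := ∀ ε : ℝ, 0 < ε → ∃ K : ℝ, 0 < K ∧
  ∀ (N T : ℕ) (V : ℝ) (b : ℕ → ℂ), 1 ≤ N → 1 ≤ T → 0 < V → (∀ n, ‖b n‖ ≤ 1) →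
    (cnt N b T (√N * V) : ℝ) ≤ K * ((N : ℝ) * T) ^ ε * B N T V

/-- bound for a full polynomial that is large on average -/
def SLV (B : ℝ → ℝ → ℝ → ℝ) : Prop := ∀ ε : ℝ, 0 < ε → ∃ K : ℝ, 0 < K ∧
  ∀ (L T : ℕ) (V : ℝ) (c : ℕ → ℂ) (W : Finset ℤ), 1 ≤ L → 1 ≤ T → 0 < V → (∀ n, ‖c n‖ ≤ 1) →
    W ⊆ Icc 0 (T : ℤ) → W.card * V ≤ ∑ t ∈ W, ‖NP L c t‖ →
    (W.card : ℝ) ≤ K * ((L : ℝ) * T) ^ ε * B L T V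

def Reg (B : ℝ → ℝ → ℝ → ℝ) : Prop :=
  (∀ L L' T V : ℝ, 1 ≤ L → L ≤ L' → 1 ≤ T → 0 < V → 0 ≤ B L T V ∧ B L T V ≤ B L' T V) ∧
  ∀ L T V lam : ℝ, 1 ≤ L → 1 ≤ T → 0 < V → 1 ≤ lam →
    B L T (V / lam) ≤ lam ^ 6 * B L T V ∧ B L T (lam * V) ≤ B L T V / lam ^ 2

/-- the reflection bound -/
def RfIn : Prop := ∀ ε : ℝ, 0 < ε → ∃ K : ℝ, ∀ (N : ℕ) (T V : ℝ), 1 ≤ N → (N : ℝ) ≤ T →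
  T ≤ (N : ℝ) ^ 2 → 0 < V → ∀ b : ℕ → ℂ, (∀ n, ‖b n‖ ≤ 1) → ∀ W : Finset ℝ,
    (∀ t ∈ W, 0 ≤ t ∧ t ≤ T) → (∀ s ∈ W, ∀ t ∈ W, s ≠ t → 1 ≤ |s - t|) →
    (∀ t ∈ W, V ≤ ‖DP N b t‖) →
      (W.card : ℝ) ≤ K * (N : ℝ) ^ ε *
        ((N : ℝ) ^ 2 / V ^ 2 + (N : ℝ) ^ (26 / 7 : ℝ) * T ^ (1 / 7 : ℝ) / V ^ 4)

/-- the sixth moment bound -/
def SqIn : Prop := ∀ ε : ℝ, 0 < ε → ∃ K : ℝ, 0 < K ∧ ∀ (n T : ℕ) (V : ℝ) (b : ℕ → ℂ),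
  1 ≤ n → 0 < V → (∀ a, ‖b a‖ ≤ 1) →
  (cnt n b T V : ℝ) ≤ K * (n : ℝ) ^ ε * ((n : ℝ) ^ 4 / V ^ 4 +
    ((T : ℝ) ^ (3 / 4 : ℝ) * (n : ℝ) ^ 4 + T * (n : ℝ) ^ 3) / V ^ 6)

def RegStmt : Prop := Reg Bd1 ∧ Reg Bd2 ∧ Reg Bd3 ∧ Reg Bd4 ∧ Reg Bd5

def SlvStmt : Prop := ∀ B : ℝ → ℝ → ℝ → ℝ, Reg B → DLV B → SLV B

/-- exponent form -/
def ExpStmt : Prop := ∀ (D ε : ℝ), 0 < ε → ∃ γ : ℝ, 0 < γ ∧ ∀ᶠ x : ℝ in atTop,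
  ∀ (τ n w r : ℝ) (L T : ℕ) (c : ℕ → ℂ) (W : Finset ℤ), 0 ≤ τ → τ ≤ 1 → 0 ≤ n → n ≤ D →
    1 ≤ L → (L : ℝ) ≤ x ^ (n + γ) → 1 ≤ T → (T : ℝ) ≤ x ^ (τ + γ) → (∀ m, ‖c m‖ ≤ 1) →
    W ⊆ Icc 0 (T : ℤ) → x ^ (r + ε) ≤ W.card →
    W.card * x ^ (w - γ) ≤ ∑ t ∈ W, ‖NP L c t‖ → Con τ n w r

/-- `φ` is dominated on `S`, in all weighted moments, by polynomials of length `L` -/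
def Dom (S : Finset ℤ) (φ : ℤ → ℝ) (L : ℕ) (Δ : ℝ) : Prop :=
  ∀ (w : ℤ → ℝ) (m : ℕ), (∀ t ∈ S, 0 ≤ w t) → ∃ c : ℕ → ℂ, (∀ n, ‖c n‖ ≤ 1) ∧
    ∑ t ∈ S, w t * φ t ^ m ≤ Δ ^ m * ∑ t ∈ S, w t * ‖NP L c t‖ ^ m

def MulStmt : Prop := ∀ (L L' : ℕ) (Δ : ℝ) (c c' : ℕ → ℂ), DivB (L * L') Δ → (∀ n, ‖c n‖ ≤ 1) →
  (∀ n, ‖c' n‖ ≤ 1) → ∃ d : ℕ → ℂ, (∀ n, ‖d n‖ ≤ 1) ∧
    ∀ t : ℝ, NP L c t * NP L' c' t = (Δ : ℂ) * NP (L * L') d t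

def ProdStmt : Prop := ∀ (ι : Type) [Fintype ι] (S W : Finset ℤ) (φ : ι → ℤ → ℝ) (L κ : ι → ℕ)
  (Δ Δ' : ℝ), W ⊆ S → (∀ j, 1 ≤ L j) → 0 ≤ Δ → (∀ j, ∀ t ∈ S, 0 ≤ φ j t) →
  (∀ j, Dom S (φ j) (L j) Δ) → DivB (∏ j, L j ^ κ j) Δ' →
  ∃ c : ℕ → ℂ, (∀ n, ‖c n‖ ≤ 1) ∧ ∑ t ∈ W, ∏ j, φ j t ^ κ j ≤
    (Δ * Δ') ^ (∑ j, κ j) * ∑ t ∈ W, ‖NP (∏ j, L j ^ κ j) c t‖

/-- on a level set all constraints hold -/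
def ConStmt : Prop := ∀ (ι : Type) [Fintype ι] (K : ℕ) (ε : ℝ), 0 < ε → ∃ γ : ℝ, 0 < γ ∧
  ∀ᶠ x : ℝ in atTop,
  ∀ (τ : ℝ) (b : ι → ℝ) (T : ℕ) (L : ι → ℕ) (S : Finset ℤ) (φ : ι → ℤ → ℝ),
    0 ≤ τ → τ ≤ 1 → (∀ j, 0 ≤ b j ∧ b j ≤ 1) → 1 ≤ T → (T : ℝ) ≤ x ^ (τ + γ) →
    (∀ j, 1 ≤ L j ∧ (L j : ℝ) ≤ x ^ (b j + γ)) → S ⊆ Icc 0 (T : ℤ) →
    (∀ j, ∀ t ∈ S, 0 ≤ φ j t) → (∀ j, Dom S (φ j) (L j) (x ^ γ)) →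
    ∀ (W : Finset ℤ) (r : ℝ) (v : ι → ℝ), W ⊆ S → (∀ j, ∀ t ∈ W, x ^ v j ≤ φ j t) →
      x ^ (r + ε) ≤ W.card → Cons K τ b r v

/-- level sets -/
def LevStmt : Prop := ∀ (ι : Type) [Fintype ι] (ε : ℝ), 0 < ε → ε ≤ 1 → ∃ Q : ℝ, 0 < Q ∧
  ∀ (x τ η s ρ : ℝ) (u : ι → ℝ) (S : Finset ℤ) (φ : ι → ℤ → ℝ)
    (G : ℝ → (ι → ℝ) → Prop), 1 < x → τ ≤ 1 → 0 ≤ η → 0 ≤ ρ → (∀ j, u j ≤ 1) →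
    (S.card : ℝ) ≤ x ^ (τ + ε) → (∀ j, ∀ t ∈ S, 0 ≤ φ j t ∧ φ j t ≤ x ^ (u j + ε)) →
    (∀ (W : Finset ℤ) (r : ℝ) (v : ι → ℝ), W ⊆ S → (∀ j, ∀ t ∈ W, x ^ v j ≤ φ j t) →
      x ^ (r + ε) ≤ W.card → G r v) →
    (∀ (r : ℝ) (v : ι → ℝ), 0 ≤ r → r ≤ τ → (∀ j, v j ≤ u j) → G r v →
      (1 + η) * r + ∑ j, v j ≤ s) →
    ∃ S₀ : Finset ℤ, S₀ ⊆ S ∧ (S₀.card : ℝ) ≤ Q * x ^ (ρ + ε) ∧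
      ∑ t ∈ S \ S₀, ∏ j, φ j t ≤ Q * x ^ (s - η * ρ + (2 * Fintype.card ι + 1) * ε) + 1

def CoreStmt : Prop := ∀ (ι : Type) [Fintype ι] (K : ℕ) (ε : ℝ), 0 < ε → ∃ γ : ℝ, 0 < γ ∧
  γ ≤ ε ∧ ∀ᶠ x : ℝ in atTop, ∀ (X : ℝ → (ι → ℝ) → Prop) (τ η s ρ : ℝ) (b : ι → ℝ) (T : ℕ)
    (L : ι → ℕ) (S : Finset ℤ) (φ : ι → ℤ → ℝ),
    0 ≤ τ → τ ≤ 1 → 0 ≤ η → 0 ≤ ρ → (∀ j, 0 ≤ b j ∧ b j ≤ 1) → EvalX X K τ η s b → 1 ≤ T →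
    (T : ℝ) ≤ x ^ (τ + γ) → (∀ j, 1 ≤ L j ∧ (L j : ℝ) ≤ x ^ (b j + γ)) → S ⊆ Icc 0 (T : ℤ) →
    (∀ j, ∀ t ∈ S, 0 ≤ φ j t) → (∀ j, Dom S (φ j) (L j) (x ^ γ)) →
    (∀ (W : Finset ℤ) (r : ℝ) (v : ι → ℝ), W ⊆ S → (∀ j, ∀ t ∈ W, x ^ v j ≤ φ j t) →
      x ^ (r + γ) ≤ W.card → X r v) →
    ∃ S₀ : Finset ℤ, S₀ ⊆ S ∧ (S₀.card : ℝ) ≤ x ^ (ρ + ε) ∧
      ∑ t ∈ S \ S₀, ∏ j, φ j t ≤ x ^ (s - η * ρ + ε) + 1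

/-! ### sums over a grid -/

/-- polynomial on a set -/
noncomputable def FP (s : Finset ℕ) (c : ℕ → ℝ) (t : ℝ) : ℂ := ∑ n ∈ s, (c n : ℂ) * pw (n : ℝ) t

/-- polynomial on a dyadic block -/
noncomputable def BP (N : ℕ) (c : ℕ → ℝ) (t : ℝ) : ℂ := FP (Icc N (2 * N)) c t

/-- a polynomial with support in `[1, L]` dominates itself -/
def SelfStmt : Prop := ∀ (S : Finset ℤ) (s : Finset ℕ) (c : ℕ → ℝ) (L : ℕ) (u : ℝ), 1 ≤ L →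
  s ⊆ Icc 1 L → (∀ n, |c n| ≤ 1) → Dom S (fun m => ‖FP s c (u + m)‖ / √L) L 1

/-- few points, with a logarithmic loss only -/
def HalStmt : Prop := ∀ c₀ : ℝ, 0 < c₀ → ∃ ρ C : ℝ, 0 < ρ ∧ 0 < C ∧ ∀ᶠ x : ℝ in atTop,
  ∀ (N T : ℕ) (c : ℕ → ℝ) (u : ℝ) (S : Finset ℤ), x ^ c₀ ≤ (N : ℝ) → (T : ℝ) ≤ x →
    S ⊆ Icc 0 (T : ℤ) → (S.card : ℝ) ≤ x ^ ρ → (∀ n, |c n| ≤ 1) →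
    ∑ m ∈ S, ‖BP N c (u + m)‖ ^ 2 ≤ C * (N : ℝ) ^ 2 * Real.log x

def GridIIStmt : Prop := ∀ (ι : Type) [Fintype ι] (K A : ℕ) (η c₀ : ℝ) (ia ib ic : ι), ia ≠ ib →
  ia ≠ ic → ib ≠ ic → 0 < η → 0 < c₀ → ∃ γ : ℝ, 0 < γ ∧ ∀ᶠ x : ℝ in atTop,
  ∀ (τ u : ℝ) (b : ι → ℝ) (T : ℕ) (N : ι → ℕ) (c : ι → ℕ → ℝ) (S : Finset ℤ),
    0 ≤ τ → τ ≤ 1 / 2 → (∀ j, 0 ≤ b j ∧ b j ≤ 1) → Eval K τ η (1 / 2) b → 1 ≤ T →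
    (T : ℝ) ≤ x ^ (τ + γ) → (∀ j, 1 ≤ N j ∧ (N j : ℝ) ≤ x ^ (b j + γ)) →
    ∏ j, (N j : ℝ) ≤ 8 * x → x ^ c₀ ≤ (N ia : ℝ) → x ^ c₀ ≤ (N ib : ℝ) →
    (∀ j n, |c j n| ≤ 1) → S ⊆ Icc 0 (T : ℤ) →
    (∀ m ∈ S, ‖BP (N ic) (c ic) (u + m)‖ ≤ N ic / Real.log x ^ (A + 2)) →
    ∑ m ∈ S, ∏ j, ‖BP (N j) (c j) (u + m)‖ ≤ x / Real.log x ^ A

def GridIStmt : Prop := ∀ (ι : Type) [Fintype ι] (K : ℕ) (η : ℝ), 0 < η → η ≤ 1 / 10 →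
  ∃ γ : ℝ, 0 < γ ∧ ∀ᶠ x : ℝ in atTop, ∀ (τ u y b₀ : ℝ) (b : ι → ℝ) (T L : ℕ) (N : ι → ℕ)
    (c : ι → ℕ → ℝ) (S : Finset ℤ) (Y : ℤ → ℝ),
    0 ≤ τ → τ ≤ 1 / 2 → 0 ≤ b₀ → b₀ ≤ 1 → (∀ j, 0 ≤ b j ∧ b j ≤ 1) →
    Eval K τ 0 (1 / 2 - η) (fun o : Option ι => o.elim b₀ b) → 1 ≤ T → (T : ℝ) ≤ x ^ (τ + γ) →
    (∀ j, 1 ≤ N j ∧ (N j : ℝ) ≤ x ^ (b j + γ)) → 1 ≤ L → (L : ℝ) ≤ x ^ (b₀ + γ) → 1 ≤ y →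
    y * ∏ j, (N j : ℝ) ≤ 8 * x → (∀ j n, |c j n| ≤ 1) → S ⊆ Icc 0 (T : ℤ) →
    (∀ m ∈ S, 0 ≤ Y m) → Dom S (fun m => Y m / √y) L (x ^ γ) →
    ∑ m ∈ S, Y m * ∏ j, ‖BP (N j) (c j) (u + m)‖ ≤ x ^ (1 - η / 2)

/-! ### the smooth factor -/

/-- coefficients of the smooth factor -/
noncomputable def oc (y : ℝ) (l : ℕ) : ℝ := om ((l : ℝ) / y)

/-- the smooth factor -/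
noncomputable def ZS (y t : ℝ) : ℂ := FP (Ioc ⌊y⌋₊ (2 * ⌊y⌋₊)) (oc y) t

/-- the better of the two forms of the smooth factor -/
def AvStmt : Prop := ∀ δ γ : ℝ, 0 < δ → 0 < γ → ∀ᶠ x : ℝ in atTop, ∀ τ a y : ℝ, 1 / 3 ≤ τ →
  τ ≤ 1 / 2 → 5 ≤ y → y ≤ 8 * x → x ^ (a - γ / 4) ≤ y → y ≤ x ^ (a + γ / 4) →
  ∃ L : ℕ, 1 ≤ L ∧ (L : ℝ) ≤ x ^ (av τ a + γ) ∧ ∀ (u : ℝ) (S : Finset ℤ),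
    (∀ m ∈ S, x ^ δ ≤ |u + m| ∧ |u + m| ≤ x ^ τ * Real.log x ^ 3) →
    Dom S (fun m => ‖ZS y (u + m)‖ / √y) L (x ^ γ)

/-! ### transfer -/

/-- short weight minus long weight -/
noncomputable def dg (v Δ Δ₀ z : ℝ) : ℝ := Z.gg Δ (v - z) - Z.gg Δ₀ (v - z)

/-- admissible widths -/
def Wd (x τ δ Δ Δ₀ : ℝ) : Prop :=
  x ^ (-τ) / Real.log x ^ 2 ≤ Δ ∧ Δ ≤ Δ₀ ∧ Δ₀ ≤ x ^ (-(2 * δ))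

def GrdStmt : Prop := ∀ (f : ℝ → ℝ) (T₁ T₂ B : ℝ) (T : ℕ), Continuous f → (∀ t, 0 ≤ f t) →
  T₁ ≤ T₂ → T₂ - T₁ ≤ T →
  (∀ (u : ℝ) (S : Finset ℤ), S ⊆ Icc 0 (T : ℤ) → (∀ m ∈ S, T₁ ≤ u + m ∧ u + m ≤ T₂) →
    ∑ m ∈ S, f (u + m) ≤ B) →
  ∫ t in T₁..T₂, f t ≤ B

def TrStmt : Prop := ∃ C : ℝ, 0 < C ∧ ∀ (ι : Type) (s : Finset ι) (a z : ι → ℝ)
  (F : ℝ → ℂ) (v Δ Δ₀ T₀ T M B : ℝ), 0 < Δ → Δ ≤ Δ₀ → 0 ≤ T₀ → T₀ ≤ T → ∑ i ∈ s, |a i| ≤ M →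
  (∀ t : ℝ, F t = ∑ i ∈ s, (a i : ℂ) * Complex.exp (Complex.I * (t : ℂ) * (z i : ℂ))) →
  ∫ t in T₀..T, ‖F t‖ ≤ B →
  |∑ i ∈ s, a i * dg v Δ Δ₀ (z i)| ≤
    B + C * M * (Δ₀ ^ 2 * T₀ ^ 3 + Real.exp (-(Δ ^ 2 * T ^ 2 / (8 * Real.pi))) / Δ)

/-- the sum over a box -/
noncomputable def PhiS {ι : Type} [Fintype ι] [DecidableEq ι] (v Δ Δ₀ : ℝ) (s : ι → Finset ℕ)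
    (c : ι → ℕ → ℝ) : ℝ :=
  ∑ n ∈ Fintype.piFinset s, (∏ j, c j (n j)) * dg v Δ Δ₀ (Real.log ((∏ j, n j : ℕ) : ℝ))

/-- transfer for a box -/
def TbStmt : Prop := ∀ δ : ℝ, 0 < δ → δ ≤ 1 / 10 → ∀ᶠ x : ℝ in atTop,
  ∀ (ι : Type) [Fintype ι] [DecidableEq ι] (τ v Δ Δ₀ B : ℝ) (s : ι → Finset ℕ) (c : ι → ℕ → ℝ),
    1 / 3 ≤ τ → τ ≤ 1 / 2 → Wd x τ δ Δ Δ₀ → (∀ j, 0 ∉ s j) → (∀ j n, |c j n| ≤ 1) →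
    ∏ j, ((s j).card : ℝ) ≤ x * Real.log x →
    ∫ t in (x ^ δ)..(x ^ τ * Real.log x ^ 3), ∏ j, ‖FP (s j) (c j) t‖ ≤ B →
    |PhiS v Δ Δ₀ s c| ≤ B + x ^ (1 - δ / 2)

/-- type II, one box; the slot `ic` has a pointwise saving -/
def BoxIIStmt : Prop := ∀ (ι : Type) [Fintype ι] [DecidableEq ι] (K A : ℕ) (η δ c₀ : ℝ)
  (ia ib ic : ι), ia ≠ ib → ia ≠ ic → ib ≠ ic → 0 < η → 0 < δ → δ ≤ 1 / 10 → 0 < c₀ →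
  ∃ γ : ℝ, 0 < γ ∧ ∀ᶠ x : ℝ in atTop,
  ∀ (τ v Δ Δ₀ : ℝ) (b : ι → ℝ) (N : ι → ℕ) (c : ι → ℕ → ℝ),
    1 / 3 ≤ τ → τ ≤ 1 / 2 → Wd x τ δ Δ Δ₀ → (∀ j, 0 ≤ b j ∧ b j ≤ 1) → Eval K τ η (1 / 2) b →
    (∀ j, 1 ≤ N j ∧ (N j : ℝ) ≤ x ^ (b j + γ)) → ∏ j, (N j : ℝ) ≤ 8 * x →
    x ^ c₀ ≤ (N ia : ℝ) → x ^ c₀ ≤ (N ib : ℝ) → (∀ j n, |c j n| ≤ 1) →
    (∀ t : ℝ, x ^ δ ≤ t → t ≤ x → ‖BP (N ic) (c ic) t‖ ≤ N ic / Real.log x ^ (A + 3)) →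
    |PhiS v Δ Δ₀ (fun j => Icc (N j) (2 * N j)) c| ≤ x / Real.log x ^ A

/-- type I, one box and a smooth slot -/
def BoxIStmt : Prop := ∀ (ι : Type) [Fintype ι] [DecidableEq ι] (K : ℕ) (η δ : ℝ), 0 < η →
  η ≤ 1 / 10 → 0 < δ → δ ≤ 1 / 10 → ∃ γ : ℝ, 0 < γ ∧ ∀ᶠ x : ℝ in atTop,
  ∀ (τ v Δ Δ₀ y a : ℝ) (b : ι → ℝ) (N : ι → ℕ) (c : ι → ℕ → ℝ),
    1 / 3 ≤ τ → τ ≤ 1 / 2 → Wd x τ δ Δ Δ₀ → (∀ j, 0 ≤ b j ∧ b j ≤ 1) →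
    Eval K τ 0 (1 / 2 - η) (fun o : Option ι => o.elim (av τ a) b) →
    (∀ j, 1 ≤ N j ∧ (N j : ℝ) ≤ x ^ (b j + γ)) → 5 ≤ y → x ^ (a - γ) ≤ y → y ≤ x ^ (a + γ) →
    y * ∏ j, (N j : ℝ) ≤ 8 * x → (∀ j n, |c j n| ≤ 1) →
    |PhiS v Δ Δ₀ (fun o : Option ι => o.elim (Ioc ⌊y⌋₊ (2 * ⌊y⌋₊)) fun j => Icc (N j) (2 * N j))
      (fun o : Option ι => o.elim (oc y) c)| ≤ x ^ (1 - η / 2) + x ^ (1 - δ / 2)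

end Pool.Agent.MP_c853c5_nt.E
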