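import Pool.Agent.MP_c853c5_nt.E.Basic
import Pool.Agent.MP_c853c5_nt.S.Defs

/-!
From convolutions on the window to sums over boxes.
-/

set_option autoImplicit false

open Finset Filter

namespace Pool.Agent.MP_c853c5_nt.E

open S (AF sgl SS SB Dl)

lemma sgl_mul {a b : ℕ} (ha : a ≠ 0) (hb : b ≠ 0) : sgl a * sgl b = sgl (a * b) := by
  ext n
  rw [ArithmeticFunction.mul_apply]
  by_cases h : n = a * b
  · rw [sum_eq_single_of_mem (a, b) (Nat.mem_divisorsAntidiagonal.2 ⟨h.symm, by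
      rw [h]; exact mul_ne_zero ha hb⟩)]
    · simp [sgl, h, ha, hb]
    · rintro ⟨p, q⟩ _ hne
      by_cases h1 : p = a
      · have h2 : q ≠ b := fun h2 => hne (by rw [h1, h2])
        simp [sgl, h2]
      · simp [sgl, h1]
  · rw [sum_eq_zero]
    · simp [sgl, h]
    · rintro ⟨p, q⟩ hp
      have h0 := (Nat.mem_divisorsAntidiagonal.1 hp).1
      by_cases h1 : p = a
      · have h2 : q ≠ b := fun h2 => h (by rw [← h0, ← h1, ← h2])
        simp [sgl, h2]
      · simp [sgl, h1]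

lemma sgl_one : sgl 1 = 1 := by
  ext n
  by_cases h : n = 1 <;> simp [sgl, h]

lemma prod_sgl {ι : Type} (u : Finset ι) (n : ι → ℕ) (h : ∀ j ∈ u, n j ≠ 0) :
    ∏ j ∈ u, sgl (n j) = sgl (∏ j ∈ u, n j) := by
  classical
  induction u using Finset.induction_on with
  | empty => simp [sgl_one]
  | insert a u ha ih =>
    rw [prod_insert ha, prod_insert ha, ih fun j hj => h j (mem_insert_of_mem hj),
      sgl_mul (h a (mem_insert_self _ _))
        (prod_ne_zero_iff.2 fun j hj => h j (mem_insert_of_mem hj))]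

lemma af_sum_apply {ι : Type} (u : Finset ι) (f : ι → AF) (n : ℕ) :
    (∑ i ∈ u, f i) n = ∑ i ∈ u, f i n := by
  classical
  induction u using Finset.induction_on with
  | empty => simp
  | insert a u ha ih => rw [sum_insert ha, sum_insert ha, ArithmeticFunction.add_apply, ih]

lemma af_eq_sum (g : AF) (s : Finset ℕ) (h : ∀ n, g n ≠ 0 → n ∈ s) :
    g = ∑ m ∈ s, g m • sgl m := by
  ext n
  rw [af_sum_apply]
  rcases eq_or_ne n 0 with rfl | hn
  · simp
  by_cases hs : n ∈ s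
  · rw [sum_eq_single_of_mem n hs fun m _ hm => by simp [sgl, hm.symm]]
    simp [sgl, hn]
  · rw [sum_eq_zero fun m hm => by
      have : n ≠ m := fun e => hs (e ▸ hm)
      simp [sgl, this]]
    by_contra h0
    exact hs (h n h0)

lemma af_smul_mul (a b : ℝ) (f g : AF) : (a • f) * (b • g) = (a * b) • (f * g) := by
  ext n
  simp only [ArithmeticFunction.mul_apply, ArithmeticFunction.smul_map, smul_eq_mul, mul_sum]
  exact sum_congr rfl fun p _ => by ring

lemma af_prod_smul {ι : Type} (u : Finset ι) (a : ι → ℝ) (f : ι → AF) :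
    ∏ j ∈ u, a j • f j = (∏ j ∈ u, a j) • ∏ j ∈ u, f j := by
  classical
  induction u using Finset.induction_on with
  | empty => simp
  | insert i u hi ih => rw [prod_insert hi, prod_insert hi, prod_insert hi, ih, af_smul_mul]

lemma pair_eq {ι : Type} [Fintype ι] [DecidableEq ι] (g : ι → AF) (s : ι → Finset ℕ)
    (h0 : ∀ j, 0 ∉ s j) (h : ∀ j n, g j n ≠ 0 → n ∈ s j) {d : ℕ} (hd : d ≠ 0) (A : Finset ℕ)
    (G : ℕ → ℝ) :
    ∑ n ∈ A, (sgl d * ∏ j, g j : AF) n * G n = ∑ p ∈ Fintype.piFinset s,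
      (∏ j, g j (p j)) * if d * ∏ j, p j ∈ A then G (d * ∏ j, p j) else 0 := by
  have e : (sgl d * ∏ j, g j : AF) =
      ∑ p ∈ Fintype.piFinset s, (∏ j, g j (p j)) • sgl (d * ∏ j, p j) := by
    rw [prod_congr rfl fun j _ => af_eq_sum (g j) (s j) (h j), prod_univ_sum, mul_sum]
    refine sum_congr rfl fun p hp => ?_
    have hp0 : ∀ j ∈ (univ : Finset ι), p j ≠ 0 := fun j _ e =>
      h0 j (e ▸ Fintype.mem_piFinset.1 hp j)
    rw [af_prod_smul, prod_sgl _ _ hp0, ← sgl_mul hd (prod_ne_zero_iff.2 hp0),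
      ← one_mul (∏ j, g j (p j)), ← af_smul_mul, one_smul, one_mul]
  rw [e]
  simp only [af_sum_apply, sum_mul]
  rw [sum_comm]
  refine sum_congr rfl fun p hp => ?_
  have hp0 : d * ∏ j, p j ≠ 0 := mul_ne_zero hd (prod_ne_zero_iff.2 fun j _ e =>
    h0 j (e ▸ Fintype.mem_piFinset.1 hp j))
  split_ifs with hA
  · rw [sum_eq_single_of_mem _ hA fun m _ hm => by simp [sgl, hm]]
    simp only [sgl, ArithmeticFunction.smul_map, ArithmeticFunction.coe_mk, true_and, ne_eq, hp0,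
      not_false_eq_true, if_true, smul_eq_mul, mul_one]
  · rw [sum_eq_zero fun m hm => by
      have : m ≠ d * ∏ j, p j := fun e => hA (e ▸ hm)
      simp [sgl, this]]
    simp

lemma gg_far {Δ Δ₀ z : ℝ} (h0 : 0 < Δ) (h1 : Δ ≤ Δ₀) (hz : 1 / 2 ≤ |z|) :
    0 ≤ Z.gg Δ z ∧ Z.gg Δ z ≤ Δ⁻¹ * Real.exp (-(1 / (2 * Δ₀ ^ 2))) := by
  unfold Z.gg
  refine ⟨by positivity, mul_le_mul_of_nonneg_left (Real.exp_le_exp.2 (neg_le_neg ?_))
    (by positivity)⟩
  have h2 : 1 / 4 ≤ z ^ 2 := by nlinarith [sq_abs z]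
  have h3 : Δ ^ 2 ≤ Δ₀ ^ 2 := pow_le_pow_left₀ h0.le h1 2
  have h4 := Real.pi_gt_three
  rw [div_le_div_iff₀ (by nlinarith [pow_pos h0 2]) (by positivity)]
  nlinarith [mul_le_mul h2 h3 (by positivity) (by positivity), pow_pos h0 2,
    mul_nonneg (sq_nonneg z) (sq_nonneg Δ₀)]

lemma ev_tail : ∀ᶠ x : ℝ in atTop,
    x ^ 2 * (2 * x * Real.exp (-(x ^ (1 / 500 : ℝ) / 2))) ≤ 1 := by
  filter_upwards [ev_log_le 8 1 (show (0 : ℝ) < 1 / 500 by norm_num), eventually_ge_atTop 2]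
    with x h1 h2
  have h0 : 0 < x := by linarith
  have h3 : Real.exp (-(x ^ (1 / 500 : ℝ) / 2)) ≤ Real.exp (-(4 * Real.log x)) :=
    Real.exp_le_exp.2 (by rw [pow_one] at h1; linarith)
  have h4 : Real.exp (-(4 * Real.log x)) = (x ^ 4)⁻¹ := by
    rw [Real.exp_neg, show 4 * Real.log x = Real.log (x ^ 4) by rw [Real.log_pow]; norm_num,
      Real.exp_log (by positivity)]
  calc x ^ 2 * (2 * x * Real.exp (-(x ^ (1 / 500 : ℝ) / 2))) ≤ x ^ 2 * (2 * x * (x ^ 4)⁻¹) := by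
        rw [← h4]; gcongr
    _ = 2 / x := by field_simp
    _ ≤ 1 := (div_le_one h0).2 h2

theorem win : ∀ᶠ x : ℝ in atTop, ∀ (ι : Type) [Fintype ι] [DecidableEq ι] (t : ℝ) (g : ι → AF)
    (s : ι → Finset ℕ) (d : ℕ), 1 / 3 ≤ t → t ≤ 1 / 2 → (∀ j, 0 ∉ s j) →
    (∀ j n, g j n ≠ 0 → n ∈ s j) → (∀ j n, |g j n| ≤ 1) → 1 ≤ d →
    ∏ j, ((s j).card : ℝ) ≤ x ^ 2 →
    |Dl t x (sgl d * ∏ j, g j)| ≤ |PhiS (Real.log x - Real.log d) (x ^ (-t))
      (x ^ (-(1 / 1000) : ℝ)) s fun j => g j| + 1 := by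
  filter_upwards [ev_tail, eventually_ge_atTop 2] with x hx h2 ι _ _ t g s d ht ht' h0 hs hg hd hc
  have x0 : 0 < x := by linarith
  have x1 : 1 ≤ x := by linarith
  set Δ := x ^ (-t)
  set Δ₀ := x ^ (-(1 / 1000) : ℝ)
  have hΔ : 0 < Δ := Real.rpow_pos_of_pos x0 _
  have hΔ1 : Δ ≤ Δ₀ := Real.rpow_le_rpow_of_exponent_le x1 (by linarith)
  have hΔ2 : Δ⁻¹ ≤ x := by
    rw [← Real.rpow_neg x0.le, neg_neg]
    simpa using Real.rpow_le_rpow_of_exponent_le x1 (show t ≤ 1 by linarith)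
  have hΔ3 : 1 / (2 * Δ₀ ^ 2) = x ^ (1 / 500 : ℝ) / 2 := by
    have : Δ₀ ^ 2 = (x ^ (1 / 500 : ℝ))⁻¹ := by
      rw [← Real.rpow_mul_natCast x0.le, ← Real.rpow_neg x0.le]
      norm_num
    rw [this]
    field_simp
  have e : Dl t x (sgl d * ∏ j, g j) = ∑ n ∈ Ioc ⌊x / 2⌋₊ ⌊2 * x⌋₊,
      (sgl d * ∏ j, g j : AF) n * dg (Real.log x) Δ Δ₀ (Real.log n) := by
    simp only [Dl, SB, SS, dg, mul_sub, sum_sub_distrib]
    rfl
  rw [e, pair_eq g s h0 hs (by omega), PhiS]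
  set E := 2 * x * Real.exp (-(x ^ (1 / 500 : ℝ) / 2))
  have hE : 0 ≤ E := by positivity
  refine (abs_sub_abs_le_abs_sub _ _ |> sub_le_iff_le_add'.1).trans (add_le_add le_rfl ?_)
  rw [← sum_sub_distrib]
  refine (abs_sum_le_sum_abs _ _).trans ((sum_le_card_nsmul _ _ E fun p hp => ?_).trans ?_)
  · have hp0 : (∏ j, p j) ≠ 0 := prod_ne_zero_iff.2 fun j _ e =>
      h0 j (e ▸ Fintype.mem_piFinset.1 hp j)
    have hd0 : (d : ℝ) ≠ 0 := by positivity
    have hl : Real.log x - Real.log d - Real.log ((∏ j, p j : ℕ) : ℝ) =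
        Real.log x - Real.log ((d * ∏ j, p j : ℕ) : ℝ) := by
      rw [Nat.cast_mul, Real.log_mul hd0 (by exact_mod_cast hp0)]
      ring
    have hc1 : |∏ j, g j (p j)| ≤ 1 := by
      rw [abs_prod]
      exact prod_le_one (fun j _ => abs_nonneg _) fun j _ => hg j _
    rw [← mul_sub, abs_mul]
    refine (mul_le_of_le_one_left (abs_nonneg _) hc1).trans ?_
    simp only [dg, hl]
    split_ifs with hA
    · simpa using hE
    · set n := d * ∏ j, p j
      have hn : (0 : ℝ) < n := by exact_mod_cast Nat.pos_of_ne_zero (mul_ne_zero (by omega) hp0)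
      have hz : 1 / 2 ≤ |Real.log x - Real.log n| := by
        have l2 := Real.log_two_gt_d9
        rw [mem_Ioc, not_and_or, not_lt, not_le] at hA
        rcases hA with hA | hA
        · have : (n : ℝ) ≤ x / 2 := (Nat.le_floor_iff (by positivity)).1 hA
          have := Real.log_le_log hn this
          rw [Real.log_div x0.ne' two_ne_zero] at this
          exact le_abs.2 (Or.inl (by linarith))
        · have : 2 * x < n := (Nat.floor_lt (by positivity)).1 hA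
          have := Real.log_le_log (by positivity) this.le
          rw [Real.log_mul two_ne_zero x0.ne'] at this
          exact le_abs.2 (Or.inr (by linarith))
      obtain ⟨a1, a2⟩ := gg_far hΔ hΔ1 hz
      obtain ⟨a3, a4⟩ := gg_far (hΔ.trans_le hΔ1) le_rfl hz
      rw [hΔ3] at a2 a4
      have a5 : Δ₀⁻¹ ≤ x := (inv_anti₀ hΔ hΔ1).trans hΔ2
      have a6 := Real.exp_pos (-(x ^ (1 / 500 : ℝ) / 2))
      have a7 := mul_le_mul_of_nonneg_right hΔ2 a6.le
      have a8 := mul_le_mul_of_nonneg_right a5 a6.le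
      rw [zero_sub, abs_neg, abs_le]
      constructor <;> simp only [E] <;> linarith
  · rw [Fintype.card_piFinset, nsmul_eq_mul, Nat.cast_prod]
    exact (mul_le_mul_of_nonneg_right hc hE).trans hx

lemma Con.tau {τ τ' n w r : ℝ} (h : Con τ n w r) (hτ : τ ≤ τ') : Con τ' n w r := by
  obtain ⟨h1, h2, h3, h4, h5⟩ := h
  have m1 : max τ n ≤ max τ' n := max_le_max hτ le_rfl
  have m2 : max n (τ / 2) ≤ max n (τ' / 2) := max_le_max le_rfl (by linarith)
  exact ⟨by linarith, h2.trans (max_le_max le_rfl (by linarith)),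
    h3.trans (max_le_max le_rfl (max_le_max (by linarith) (by linarith))),
    h4.trans (max_le_max le_rfl (by linarith)),
    h5.trans (max_le_max le_rfl (max_le_max (by linarith) (by linarith)))⟩

lemma Eval.anti_tau {ι : Type} [Fintype ι] {K : ℕ} {t τ η s : ℝ} {b : ι → ℝ} (ht : t ≤ τ)
    (_h0 : 0 ≤ t) (h : Eval K τ η s b) : Eval K t η s b := fun r v h0 h1 h2 h3 =>
  h r v h0 (h1.trans ht) h2 fun κ hκ => (h3 κ hκ).tau ht

lemma wd_std : ∀ᶠ x : ℝ in atTop, ∀ t : ℝ, 1 / 3 ≤ t →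
    Wd x t (1 / 2000) (x ^ (-t)) (x ^ (-(1 / 1000) : ℝ)) := by
  filter_upwards [ev_le_log 1, eventually_ge_atTop 1] with x h1 h2 t ht
  refine ⟨div_le_self (by positivity) (one_le_pow₀ h1),
    Real.rpow_le_rpow_of_exponent_le h2 (by linarith), le_of_eq (by norm_num)⟩

end Pool.Agent.MP_c853c5_nt.E
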