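import Pool.Agent.MP_c853c5_nt.E.Basic

set_option autoImplicit false

open Finset Filter

namespace Pool.Agent.MP_c853c5_nt.E

open Pool.Agent.MP_2a1f0e_nt Pool.Agent.MP_2a1f0e_nt.GM Pool.Agent.MP_2a1f0e_nt.DH

open MeasureTheory

/-- the Gaussian on the frequency side -/
noncomputable def EE_Tr (Δ t : ℝ) : ℝ := Real.exp (-(Δ ^ 2 / (4 * Real.pi)) * t ^ 2)

lemma neg_Tr {Δ : ℝ} (hΔ : 0 < Δ) : (-((Δ : ℂ) ^ 2 / (4 * Real.pi))).re < 0 := by
  have e : -((Δ : ℂ) ^ 2 / (4 * Real.pi)) = ((-(Δ ^ 2 / (4 * Real.pi)) : ℝ) : ℂ) := by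
    push_cast
    rfl
  rw [e, Complex.ofReal_re, neg_lt_zero]
  have := Real.pi_pos
  positivity

lemma ker_Tr (Δ w t : ℝ) : Complex.exp (Complex.I * (t : ℂ) * (w : ℂ)) * (EE_Tr Δ t : ℂ) =
    Complex.exp (-((Δ : ℂ) ^ 2 / (4 * Real.pi)) * (t : ℂ) ^ 2 + Complex.I * w * t + 0) := by
  unfold EE_Tr
  rw [Complex.ofReal_exp, ← Complex.exp_add]
  congr 1
  push_cast
  ring

lemma int_Tr {Δ : ℝ} (hΔ : 0 < Δ) (w : ℝ) :
    Integrable fun t : ℝ => Complex.exp (Complex.I * (t : ℂ) * (w : ℂ)) * (EE_Tr Δ t : ℂ) := by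
  simp only [ker_Tr]
  exact integrable_cexp_quadratic' (neg_Tr hΔ) _ _

lemma val_Tr {Δ : ℝ} (hΔ : 0 < Δ) (w : ℝ) :
    ∫ t : ℝ, Complex.exp (Complex.I * (t : ℂ) * (w : ℂ)) * (EE_Tr Δ t : ℂ) =
      2 * Real.pi * (Z.gg Δ (-w) : ℂ) := by
  have hpi : (Real.pi : ℂ) ≠ 0 := by exact_mod_cast Real.pi_ne_zero
  have hΔ' : (Δ : ℂ) ≠ 0 := by exact_mod_cast hΔ.ne'
  simp only [ker_Tr]
  rw [integral_cexp_quadratic (neg_Tr hΔ)]
  have e1 : (Real.pi : ℂ) / - -((Δ : ℂ) ^ 2 / (4 * Real.pi)) =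
      (((2 * Real.pi / Δ : ℝ) : ℂ)) ^ (2 : ℕ) := by
    push_cast
    field_simp
    norm_num
  have e2 : (0 : ℂ) - (Complex.I * w) ^ 2 /
      (4 * -((Δ : ℂ) ^ 2 / (4 * Real.pi))) = ((-(Real.pi * (-w) ^ 2 / Δ ^ 2) : ℝ) : ℂ) := by
    rw [mul_pow, Complex.I_sq]
    push_cast
    field_simp
    ring
  have hp : 0 < (((2 * Real.pi / Δ : ℝ) : ℂ)).re := by
    rw [Complex.ofReal_re]
    have := Real.pi_pos
    positivity
  rw [e1, e2, one_div, Complex.sq_cpow_two_inv hp, Z.gg, ← Complex.ofReal_exp]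
  push_cast
  ring

lemma EE_le_Tr {Δ Δ₀ : ℝ} (hΔ : 0 < Δ) (h : Δ ≤ Δ₀) (t : ℝ) : EE_Tr Δ₀ t ≤ EE_Tr Δ t := by
  unfold EE_Tr
  apply Real.exp_le_exp.2
  have hp := Real.pi_pos
  have h1 : Δ ^ 2 ≤ Δ₀ ^ 2 := by gcongr
  have h2 : Δ ^ 2 / (4 * Real.pi) ≤ Δ₀ ^ 2 / (4 * Real.pi) := by gcongr
  nlinarith [sq_nonneg t]

lemma EE_one_Tr (Δ t : ℝ) : EE_Tr Δ t ≤ 1 := by
  unfold EE_Tr
  apply Real.exp_le_one_iff.2
  have hp := Real.pi_pos
  have h2 : 0 ≤ Δ ^ 2 / (4 * Real.pi) := by positivity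
  nlinarith [sq_nonneg t]

lemma EE_pos_Tr (Δ t : ℝ) : 0 < EE_Tr Δ t := Real.exp_pos _

lemma EE_low_Tr (Δ t : ℝ) : 1 - Δ ^ 2 / (4 * Real.pi) * t ^ 2 ≤ EE_Tr Δ t := by
  unfold EE_Tr
  have := Real.add_one_le_exp (-(Δ ^ 2 / (4 * Real.pi)) * t ^ 2)
  linarith

lemma EE_tail_Tr (Δ T t : ℝ) (h : T ^ 2 ≤ t ^ 2) : EE_Tr Δ t ≤
    Real.exp (-(Δ ^ 2 * T ^ 2 / (8 * Real.pi))) * Real.exp (-(Δ ^ 2 / (8 * Real.pi)) * t ^ 2) := by
  unfold EE_Tr
  rw [← Real.exp_add]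
  apply Real.exp_le_exp.2
  have hp := Real.pi_pos
  have h2 : 0 ≤ Δ ^ 2 / (8 * Real.pi) := by positivity
  have e1 : Δ ^ 2 / (4 * Real.pi) = 2 * (Δ ^ 2 / (8 * Real.pi)) := by
    field_simp
    ring
  have e2 : Δ ^ 2 * T ^ 2 / (8 * Real.pi) = Δ ^ 2 / (8 * Real.pi) * T ^ 2 := by ring
  rw [e1, e2]
  nlinarith [mul_le_mul_of_nonneg_left h h2]

/-- the weighted integral of an even bounded function -/
lemma main_Tr (f : ℝ → ℝ) (Δ Δ₀ T₀ T M B : ℝ) (hc : Continuous f) (h0 : ∀ t, 0 ≤ f t)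
    (hM : ∀ t, f t ≤ M) (hev : ∀ t, f (-t) = f t) (hΔ : 0 < Δ) (hΔ₀ : Δ ≤ Δ₀) (hT₀ : 0 ≤ T₀)
    (hT : T₀ ≤ T) (hB : ∫ t in T₀..T, f t ≤ B) :
    ∫ t, f t * (EE_Tr Δ t - EE_Tr Δ₀ t) ≤ 2 * B + M * (Δ₀ ^ 2 / (4 * Real.pi) * T₀ ^ 2) * (2 * T₀) +
      M * Real.exp (-(Δ ^ 2 * T ^ 2 / (8 * Real.pi))) * (3 * Real.pi / Δ) := by
  have hp := Real.pi_pos
  have hM0 : 0 ≤ M := (h0 0).trans (hM 0)
  set c : ℝ := M * (Δ₀ ^ 2 / (4 * Real.pi) * T₀ ^ 2) with hc'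
  set e : ℝ := M * Real.exp (-(Δ ^ 2 * T ^ 2 / (8 * Real.pi))) with he
  have hc0 : 0 ≤ c := by positivity
  have he0 : 0 ≤ e := by positivity
  have hb : 0 < Δ ^ 2 / (8 * Real.pi) := by positivity
  let g1 : ℝ → ℝ := (Set.Icc T₀ T).indicator f
  let g2 : ℝ → ℝ := (Set.Icc (-T) (-T₀)).indicator f
  let g3 : ℝ → ℝ := (Set.Icc (-T₀) T₀).indicator fun _ => c
  let g4 : ℝ → ℝ := fun t => e * Real.exp (-(Δ ^ 2 / (8 * Real.pi)) * t ^ 2)
  have i1 : Integrable g1 :=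
    (integrable_indicator_iff measurableSet_Icc).2 hc.integrableOn_Icc
  have i2 : Integrable g2 :=
    (integrable_indicator_iff measurableSet_Icc).2 hc.integrableOn_Icc
  have i3 : Integrable g3 :=
    (integrable_indicator_iff measurableSet_Icc).2 continuous_const.integrableOn_Icc
  have i4 : Integrable g4 := (integrable_exp_neg_mul_sq hb).const_mul e
  have v1 : ∫ t, g1 t ≤ B := by
    rw [integral_indicator measurableSet_Icc, integral_Icc_eq_integral_Ioc,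
      ← intervalIntegral.integral_of_le hT]
    exact hB
  have v2 : ∫ t, g2 t ≤ B := by
    rw [integral_indicator measurableSet_Icc, integral_Icc_eq_integral_Ioc,
      ← intervalIntegral.integral_of_le (by linarith : -T ≤ -T₀),
      ← intervalIntegral.integral_comp_neg]
    simp only [hev]
    exact hB
  have v3 : ∫ t, g3 t = c * (2 * T₀) := by
    rw [integral_indicator measurableSet_Icc, integral_Icc_eq_integral_Ioc,
      ← intervalIntegral.integral_of_le (by linarith : -T₀ ≤ T₀), intervalIntegral.integral_const,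
      smul_eq_mul]
    ring
  have v4 : ∫ t, g4 t ≤ e * (3 * Real.pi / Δ) := by
    simp only [g4]
    rw [integral_const_mul, integral_gaussian]
    refine mul_le_mul_of_nonneg_left ?_ he0
    apply Real.sqrt_le_iff.2
    refine ⟨by positivity, ?_⟩
    have e1 : Real.pi / (Δ ^ 2 / (8 * Real.pi)) = 8 * (Real.pi / Δ) ^ 2 := by
      field_simp
    have e2 : (3 * Real.pi / Δ) ^ 2 = 9 * (Real.pi / Δ) ^ 2 := by ring
    rw [e1, e2]
    nlinarith [sq_nonneg (Real.pi / Δ)]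
  have n1 : ∀ t, 0 ≤ g1 t := fun t => Set.indicator_nonneg (fun s _ => h0 s) t
  have n2 : ∀ t, 0 ≤ g2 t := fun t => Set.indicator_nonneg (fun s _ => h0 s) t
  have n3 : ∀ t, 0 ≤ g3 t := fun t => Set.indicator_nonneg (fun _ _ => hc0) t
  have n4 : ∀ t, 0 ≤ g4 t := fun t => by positivity
  have pt : ∀ t, f t * (EE_Tr Δ t - EE_Tr Δ₀ t) ≤ g1 t + g2 t + g3 t + g4 t := by
    intro t
    have a0 := EE_le_Tr hΔ hΔ₀ t
    have a1 := EE_one_Tr Δ t
    have a2 := EE_pos_Tr Δ₀ t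
    have b1 : f t * (EE_Tr Δ t - EE_Tr Δ₀ t) ≤ f t := by nlinarith [h0 t]
    have := n1 t
    have := n2 t
    have := n3 t
    have := n4 t
    by_cases k1 : t ∈ Set.Icc T₀ T
    · have : g1 t = f t := Set.indicator_of_mem k1 _
      linarith
    by_cases k2 : t ∈ Set.Icc (-T) (-T₀)
    · have : g2 t = f t := Set.indicator_of_mem k2 _
      linarith
    by_cases k3 : t ∈ Set.Icc (-T₀) T₀
    · have e3 : g3 t = c := Set.indicator_of_mem k3 _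
      have a3 := EE_low_Tr Δ₀ t
      have a4 : t ^ 2 ≤ T₀ ^ 2 := sq_le_sq' k3.1 k3.2
      have a5 : Δ₀ ^ 2 / (4 * Real.pi) * t ^ 2 ≤ Δ₀ ^ 2 / (4 * Real.pi) * T₀ ^ 2 := by gcongr
      have a6 : f t * (EE_Tr Δ t - EE_Tr Δ₀ t) ≤ c :=
        mul_le_mul (hM t) (by linarith) (by linarith) hM0
      linarith
    · have a4 : T ^ 2 ≤ t ^ 2 := by
        simp only [Set.mem_Icc, not_and_or, not_le] at k1 k2 k3
        have hT' : 0 ≤ T := hT₀.trans hT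
        rcases k3 with k3 | k3
        · have : t < -T := by
            rcases k2 with k2 | k2
            · exact k2
            · linarith
          nlinarith
        · have : T < t := by
            rcases k1 with k1 | k1
            · linarith
            · exact k1
          nlinarith
      have a5 := EE_tail_Tr Δ T t a4
      have a6 : f t * (EE_Tr Δ t - EE_Tr Δ₀ t) ≤ g4 t := by
        simp only [g4, he]
        rw [mul_assoc]
        exact mul_le_mul (hM t) (by linarith) (by linarith) hM0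
      linarith
  have key : ∫ t, f t * (EE_Tr Δ t - EE_Tr Δ₀ t) ≤ ∫ t, (g1 t + g2 t + g3 t + g4 t) := by
    refine integral_mono_of_nonneg (Eventually.of_forall fun t => ?_) (((i1.add i2).add i3).add i4)
      (Eventually.of_forall pt)
    exact mul_nonneg (h0 t) (sub_nonneg.2 (EE_le_Tr hΔ hΔ₀ t))
  have i12 : Integrable fun t => g1 t + g2 t := i1.add i2
  have i123 : Integrable fun t => g1 t + g2 t + g3 t := i12.add i3
  rw [integral_add i123 i4, integral_add i12 i3, integral_add i1 i2, v3] at key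
  linarith

theorem tr_stmt : TrStmt := by
  refine ⟨2, by norm_num, ?_⟩
  intro ι s a z F v Δ Δ₀ T₀ T M B hΔ hΔ₀ hT₀ hT hM hF hB
  have hp := Real.pi_pos
  have hp3 := Real.pi_gt_three
  have hΔ₀' : 0 < Δ₀ := hΔ.trans_le hΔ₀
  have hFe : F = fun t : ℝ => ∑ i ∈ s, (a i : ℂ) * Complex.exp (Complex.I * (t : ℂ) * (z i : ℂ)) :=
    funext hF
  have hn : ∀ t w : ℝ, ‖Complex.exp (Complex.I * (t : ℂ) * (w : ℂ))‖ = 1 := by
    intro t w
    have : Complex.I * (t : ℂ) * (w : ℂ) = ((t * w : ℝ) : ℂ) * Complex.I := by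
      push_cast
      ring
    rw [this, Complex.norm_exp_ofReal_mul_I]
  have hc : Continuous fun t => ‖F t‖ := by
    rw [hFe]
    fun_prop
  have hb : ∀ t, ‖F t‖ ≤ M := by
    intro t
    rw [hF]
    refine (norm_sum_le _ _).trans (le_trans (le_of_eq ?_) hM)
    refine sum_congr rfl fun i _ => ?_
    rw [norm_mul, hn, mul_one, Complex.norm_real, Real.norm_eq_abs]
  have hev : ∀ t, ‖F (-t)‖ = ‖F t‖ := by
    intro t
    rw [← Complex.norm_conj (F t), hF, hF, map_sum]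
    congr 1
    refine sum_congr rfl fun i _ => ?_
    rw [map_mul, Complex.conj_ofReal, ← Complex.exp_conj]
    congr 2
    simp
  have hM0 : 0 ≤ M := (norm_nonneg _).trans (hb 0)
  have hB0 : 0 ≤ B :=
    (intervalIntegral.integral_nonneg hT fun t _ => norm_nonneg (F t)).trans hB
  have key := main_Tr (fun t => ‖F t‖) Δ Δ₀ T₀ T M B hc (fun t => norm_nonneg _) hb hev hΔ hΔ₀
    hT₀ hT hB
  have hi : ∀ i, Integrable fun t : ℝ => (a i : ℂ) *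
      (Complex.exp (Complex.I * (t : ℂ) * ((z i - v : ℝ) : ℂ)) * (EE_Tr Δ t : ℂ) -
        Complex.exp (Complex.I * (t : ℂ) * ((z i - v : ℝ) : ℂ)) * (EE_Tr Δ₀ t : ℂ)) := fun i =>
    ((int_Tr hΔ _).sub (int_Tr hΔ₀' _)).const_mul _
  have id1 : ((2 * Real.pi * ∑ i ∈ s, a i * dg v Δ Δ₀ (z i) : ℝ) : ℂ) =
      ∫ t : ℝ, ∑ i ∈ s, (a i : ℂ) *
      (Complex.exp (Complex.I * (t : ℂ) * ((z i - v : ℝ) : ℂ)) * (EE_Tr Δ t : ℂ) -
        Complex.exp (Complex.I * (t : ℂ) * ((z i - v : ℝ) : ℂ)) * (EE_Tr Δ₀ t : ℂ)) := by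
    rw [integral_finsetSum _ fun i _ => hi i, mul_sum, Complex.ofReal_sum]
    refine sum_congr rfl fun i _ => ?_
    rw [integral_const_mul, integral_sub (int_Tr hΔ _) (int_Tr hΔ₀' _), val_Tr hΔ, val_Tr hΔ₀',
      dg, neg_sub]
    push_cast
    ring
  have id2 : ∀ t : ℝ, ‖∑ i ∈ s, (a i : ℂ) *
      (Complex.exp (Complex.I * (t : ℂ) * ((z i - v : ℝ) : ℂ)) * (EE_Tr Δ t : ℂ) -
        Complex.exp (Complex.I * (t : ℂ) * ((z i - v : ℝ) : ℂ)) * (EE_Tr Δ₀ t : ℂ))‖ =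
      ‖F t‖ * (EE_Tr Δ t - EE_Tr Δ₀ t) := by
    intro t
    have e : ∑ i ∈ s, (a i : ℂ) *
      (Complex.exp (Complex.I * (t : ℂ) * ((z i - v : ℝ) : ℂ)) * (EE_Tr Δ t : ℂ) -
        Complex.exp (Complex.I * (t : ℂ) * ((z i - v : ℝ) : ℂ)) * (EE_Tr Δ₀ t : ℂ)) =
        Complex.exp (Complex.I * (t : ℂ) * ((-v : ℝ) : ℂ)) * F t *
          ((EE_Tr Δ t - EE_Tr Δ₀ t : ℝ) : ℂ) := by
      rw [hF, mul_sum, sum_mul]
      refine sum_congr rfl fun i _ => ?_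
      have : Complex.I * (t : ℂ) * ((z i - v : ℝ) : ℂ) =
          Complex.I * (t : ℂ) * ((-v : ℝ) : ℂ) + Complex.I * (t : ℂ) * (z i : ℂ) := by
        push_cast
        ring
      rw [this, Complex.exp_add]
      push_cast
      ring
    rw [e, norm_mul, norm_mul, hn, one_mul, Complex.norm_real, Real.norm_eq_abs,
      abs_of_nonneg (sub_nonneg.2 (EE_le_Tr hΔ hΔ₀ t))]
  have b1 : 2 * Real.pi * |∑ i ∈ s, a i * dg v Δ Δ₀ (z i)| ≤
      ∫ t, ‖F t‖ * (EE_Tr Δ t - EE_Tr Δ₀ t) := by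
    have h1 := congrArg norm id1
    rw [Complex.norm_real, Real.norm_eq_abs, abs_mul, abs_of_pos (by positivity)] at h1
    rw [h1]
    refine (norm_integral_le_integral_norm _).trans (le_of_eq ?_)
    simp only [id2]
  set S := |∑ i ∈ s, a i * dg v Δ Δ₀ (z i)|
  set e := Real.exp (-(Δ ^ 2 * T ^ 2 / (8 * Real.pi))) with he
  have he0 : 0 ≤ e := (Real.exp_pos _).le
  have q1 : M * (Δ₀ ^ 2 / (4 * Real.pi) * T₀ ^ 2) * (2 * T₀) ≤
      2 * Real.pi * (2 * M * (Δ₀ ^ 2 * T₀ ^ 3)) := by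
    have e1 : M * (Δ₀ ^ 2 / (4 * Real.pi) * T₀ ^ 2) * (2 * T₀) =
        (1 / (2 * Real.pi)) * (M * (Δ₀ ^ 2 * T₀ ^ 3)) := by
      field_simp
      ring
    have e2 : 1 / (2 * Real.pi) ≤ 4 * Real.pi := by
      rw [div_le_iff₀ (by positivity)]
      nlinarith
    have e3 : 0 ≤ M * (Δ₀ ^ 2 * T₀ ^ 3) := by positivity
    rw [e1]
    nlinarith [mul_le_mul_of_nonneg_right e2 e3]
  have q2 : M * e * (3 * Real.pi / Δ) ≤ 2 * Real.pi * (2 * M * (e / Δ)) := by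
    have e1 : M * e * (3 * Real.pi / Δ) = 3 * (Real.pi * (M * (e / Δ))) := by ring
    have e3 : 0 ≤ Real.pi * (M * (e / Δ)) := by positivity
    rw [e1]
    nlinarith
  have q3 : 2 * B ≤ 2 * Real.pi * B := by nlinarith
  have fin : 2 * Real.pi * S ≤ 2 * Real.pi * (B + 2 * M * (Δ₀ ^ 2 * T₀ ^ 3 + e / Δ)) := by
    nlinarith
  exact le_of_mul_le_mul_left fin (by positivity)

end Pool.Agent.MP_c853c5_nt.E
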