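import Pool.Agent.MP_c853c5_nt.E.Basic
import Pool.Agent.MP_c853c5_nt.R.Av

set_option autoImplicit false

open Finset Filter

namespace Pool.Agent.MP_c853c5_nt.E

open Pool.Agent.MP_2a1f0e_nt Pool.Agent.MP_2a1f0e_nt.GM Pool.Agent.MP_2a1f0e_nt.DH MeasureTheory

lemma ZS_eq_Av {y : ℝ} (hy : 5 ≤ y) (t : ℝ) :
    ZS y t = (√y : ℝ) * R.SZ (fun x => om x * √x) y (2 * ⌊y⌋₊) t := by
  have hy0 : 0 < y := by linarith
  rw [ZS, FP, R.SZ, PP, mul_sum]
  have hs : Ioc ⌊y⌋₊ (2 * ⌊y⌋₊) ⊆ Icc 1 (2 * ⌊y⌋₊) := fun l hl => by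
    rw [mem_Ioc] at hl
    exact mem_Icc.2 ⟨by omega, hl.2⟩
  rw [sum_subset hs fun l _ hl => by
    have h : oc y l = 0 := by
      by_contra h
      exact hl (mem_of_oc_ne_zero hy h)
    rw [h, Complex.ofReal_zero, zero_mul]]
  refine sum_congr rfl fun l hl => ?_
  have hl0 : (0 : ℝ) < l := by exact_mod_cast (mem_Icc.1 hl).1
  have e : oc y l = √y * (om ((l : ℝ) / y) * √((l : ℝ) / y) * hf (l : ℝ)) := by
    have h1 := Real.sqrt_pos.2 hl0
    have h2 := Real.sqrt_pos.2 hy0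
    rw [oc, hf, Real.sqrt_div hl0.le]
    field_simp
  rw [e]
  push_cast
  ring

/-- moments of an average -/
lemma mom_Av (L m : ℕ) (hm : 1 ≤ m) (t : ℝ) :
    Integrable (fun ξ : ℝ => kp ξ * ‖ZZ L (t + ξ)‖ ^ m) ∧
    4 * ((∫ ξ : ℝ, kp ξ * ‖ZZ L (t + ξ)‖) / 8) ^ m ≤ ∫ ξ : ℝ, kp ξ * ‖ZZ L (t + ξ)‖ ^ m := by
  have hi : Integrable (fun ξ : ℝ => kp ξ * ‖ZZ L (t + ξ)‖ ^ m) :=
    integrable_kp.mul_bdd (c := (L : ℝ) ^ m)
      (((continuous_ZZ L).comp (continuous_const.add continuous_id)).norm.pow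
        m).aestronglyMeasurable
      (Eventually.of_forall fun _ => by
        rw [norm_pow, norm_norm]
        exact pow_le_pow_left₀ (norm_nonneg _) (norm_ZZ_le L _) m)
  refine ⟨hi, ?_⟩
  obtain ⟨n, rfl⟩ : ∃ n, m = n + 1 := ⟨m - 1, by omega⟩
  set I := ∫ ξ : ℝ, kp ξ * ‖ZZ L (t + ξ)‖ with hI
  have hI0 : 0 ≤ I := integral_nonneg fun ξ => mul_nonneg (kp_pos ξ).le (norm_nonneg _)
  have h1 : ∫ ξ : ℝ, (I / 8) ^ n * (kp ξ * ‖ZZ L (t + ξ)‖) ≤
      ∫ ξ : ℝ, (kp ξ * (I / 8) ^ (n + 1) + kp ξ * ‖ZZ L (t + ξ)‖ ^ (n + 1)) := by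
    refine integral_mono ((int_kpZ_Refl L t).const_mul _) ((integrable_kp.mul_const _).add hi)
      fun ξ => ?_
    have h2 : (I / 8) ^ n * ‖ZZ L (t + ξ)‖ ≤ (I / 8) ^ (n + 1) + ‖ZZ L (t + ξ)‖ ^ (n + 1) := by
      rcases le_total (I / 8) ‖ZZ L (t + ξ)‖ with h | h
      · refine le_add_of_nonneg_of_le (by positivity) ?_
        rw [pow_succ]
        gcongr
      · refine le_add_of_le_of_nonneg ?_ (by positivity)
        rw [pow_succ]
        gcongr
    have h3 := mul_le_mul_of_nonneg_left h2 (kp_pos ξ).le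
    dsimp only
    linarith
  rw [integral_const_mul, integral_add (integrable_kp.mul_const _) hi, integral_mul_const,
    integral_kp, ← hI] at h1
  have h4 : 0 ≤ (I / 8) ^ (n + 1) := by positivity
  have h5 : (I / 8) ^ n * I = 8 * (I / 8) ^ (n + 1) := by ring
  nlinarith [Real.pi_le_four]

/-- an average of shifted zeta sums plus a constant is dominated -/
lemma dom_Av (S : Finset ℤ) {L : ℕ} (hL : 1 ≤ L) (u : ℝ) {E : ℝ} (hE : 8 ≤ E) :
    Dom S (fun m => (∫ ξ : ℝ, kp ξ * ‖ZZ L (u + m + ξ)‖) + E) L (2 * (4 * E)) := by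
  refine Dom.of_sup (by linarith) fun w m B hm hw hB => ?_
  have h1 : ∑ t ∈ S, w t ≤ B := by
    simpa [NP_one hL] using hB (fun n => if n = 1 then 1 else 0) fun n => by
      split_ifs <;> simp
  have h2 : ∑ t ∈ S, w t * ∫ ξ : ℝ, kp ξ * ‖ZZ L (u + t + ξ)‖ ^ m ≤ Real.pi * B := by
    simp only [← integral_const_mul]
    have hi : ∀ t ∈ S, Integrable fun ξ : ℝ => w t * (kp ξ * ‖ZZ L (u + t + ξ)‖ ^ m) :=
      fun t _ => (mom_Av L m hm (u + t)).1.const_mul _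
    rw [← integral_finsetSum _ hi, ← integral_kp, ← integral_mul_const]
    refine integral_mono (integrable_finsetSum _ hi) (integrable_kp.mul_const _) fun ξ => ?_
    have h3 := hB (fun n => 1 * pw (n : ℝ) (u + ξ)) fun n => by rw [one_mul, norm_pw]
    refine le_trans (le_of_eq ?_) (mul_le_mul_of_nonneg_left h3 (kp_pos ξ).le)
    rw [mul_sum]
    refine sum_congr rfl fun t _ => ?_
    rw [← NP_add, ← ZZ_eq_NP, show (t : ℝ) + (u + ξ) = u + t + ξ by ring]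
    ring
  have hB0 : 0 ≤ B := (sum_nonneg hw).trans h1
  have h3 : ∀ t ∈ S, w t * ((∫ ξ : ℝ, kp ξ * ‖ZZ L (u + t + ξ)‖) + E) ^ m ≤
      (2 * E) ^ m * (w t * (∫ ξ : ℝ, kp ξ * ‖ZZ L (u + t + ξ)‖ ^ m) / 4 + w t) := fun t ht => by
    have h4 := (mom_Av L m hm (u + t)).2
    have hI0 : 0 ≤ ∫ ξ : ℝ, kp ξ * ‖ZZ L (u + t + ξ)‖ :=
      integral_nonneg fun ξ => mul_nonneg (kp_pos ξ).le (norm_nonneg _)
    generalize (∫ ξ : ℝ, kp ξ * ‖ZZ L (u + t + ξ)‖) = I at h4 hI0 ⊢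
    generalize (∫ ξ : ℝ, kp ξ * ‖ZZ L (u + t + ξ)‖ ^ m) = J at h4 ⊢
    have h5 : (I + E) ^ m ≤ (2 * E) ^ m * ((I / 8) ^ m + 1) := by
      rcases le_total (I / 8) 1 with h | h
      · refine (pow_le_pow_left₀ (by positivity) (show I + E ≤ 2 * E by linarith) m).trans ?_
        exact le_mul_of_one_le_right (by positivity) (le_add_of_nonneg_left (by positivity))
      · refine (pow_le_pow_left₀ (by positivity)
          (show I + E ≤ 2 * E * (I / 8) by nlinarith) m).trans ?_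
        rw [mul_pow]
        gcongr
        linarith
    have h6 : (0 : ℝ) ≤ (2 * E) ^ m := by positivity
    calc w t * (I + E) ^ m ≤ w t * ((2 * E) ^ m * (J / 4 + 1)) :=
          mul_le_mul_of_nonneg_left (h5.trans (mul_le_mul_of_nonneg_left (by linarith) h6))
            (hw t ht)
      _ = _ := by ring
  refine (sum_le_sum h3).trans ?_
  rw [← mul_sum, sum_add_distrib, ← sum_div]
  have h7 : 2 * (2 * E) ^ m ≤ (4 * E) ^ m := by
    rw [show 4 * E = 2 * (2 * E) by ring, mul_pow 2 (2 * E)]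
    gcongr
    exact le_self_pow₀ one_le_two (by omega)
  have h8 : (0 : ℝ) ≤ (2 * E) ^ m := by positivity
  have h9 := mul_le_mul_of_nonneg_right Real.pi_le_four hB0
  nlinarith [mul_le_mul_of_nonneg_right h7 hB0, mul_le_mul_of_nonneg_left (h2.trans h9) h8,
    mul_le_mul_of_nonneg_left h1 h8]

lemma self_Av (S : Finset ℤ) {y : ℝ} (hy : 5 ≤ y) (u : ℝ) :
    Dom S (fun m => ‖ZS y (u + m)‖ / √y) (2 * ⌊y⌋₊) 2 := by
  intro w m hw
  have hy0 : 0 < y := by linarith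
  have hs := Real.sqrt_pos.2 hy0
  refine ⟨fun n => ((om ((n : ℝ) / y) * √((n : ℝ) / y) / 2 : ℝ) : ℂ) * pw (n : ℝ) u,
    fun n => ?_, le_of_eq ?_⟩
  · rw [norm_mul, norm_pw, mul_one, Complex.norm_real, Real.norm_eq_abs]
    by_cases h : oc y n = 0
    · rw [oc] at h
      simp [h]
    have h1 := (oc_ne_zero hy0 h).2
    have h2 : √((n : ℝ) / y) ≤ 2 := by
      rw [Real.sqrt_le_left (by norm_num), div_le_iff₀ hy0]
      linarith
    have h3 : |om ((n : ℝ) / y)| ≤ 1 := abs_oc_le y n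
    rw [abs_div, abs_mul, abs_of_nonneg (Real.sqrt_nonneg _), abs_two]
    nlinarith [abs_nonneg (om ((n : ℝ) / y)), Real.sqrt_nonneg ((n : ℝ) / y)]
  rw [mul_sum]
  refine sum_congr rfl fun t _ => ?_
  have e : R.SZ (fun x => om x * √x) y (2 * ⌊y⌋₊) (u + t) = (2 : ℂ) * NP (2 * ⌊y⌋₊)
      (fun n => ((om ((n : ℝ) / y) * √((n : ℝ) / y) / 2 : ℝ) : ℂ) * pw (n : ℝ) u) t := by
    rw [← NP_add, add_comm (t : ℝ), NP, ← PP_smul, R.SZ]
    congr 1
    funext l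
    push_cast
    ring
  dsimp only
  rw [ZS_eq_Av hy, e, norm_mul, norm_mul, Complex.norm_real, Real.norm_of_nonneg hs.le,
    mul_div_cancel_left₀ _ hs.ne', Complex.norm_two, mul_pow]
  ring

theorem av_stmt : AvStmt := by
  intro δ γ hδ hγ
  have hd : 0 < min δ (γ / 4) / 2 := by positivity
  obtain ⟨C, hC, h⟩ := R.sc_stmt _ _ _
    (R.sup_om.mul (g := fun x => √x) fun _ hx => Real.contDiffAt_sqrt hx.ne') _ 0 hd
  filter_upwards [eventually_ge_atTop (8 : ℝ), ev_log_le 2 3 (half_pos hγ), ev_log_le 1 3 one_pos,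
    ev_const_le 2 (half_pos hγ), ev_const_le (C * 64) hγ, ev_le_log 1]
    with x hx e1 e2 e3 e4 e5 τ a y hτ hτ' hy hyx h1 h2
  have hx0 : 0 < x := by linarith
  have hx1 : 1 ≤ x := by linarith
  have hy0 : 0 < y := by linarith
  have h3 := Nat.floor_le hy0.le
  have h4 := Nat.lt_floor_add_one y
  have h5 : 5 ≤ ⌊y⌋₊ := Nat.le_floor (by exact_mod_cast hy)
  have h6 : (5 : ℝ) ≤ ⌊y⌋₊ := by exact_mod_cast h5
  have e6 : x ^ (γ / 2) ≤ x ^ γ := Real.rpow_le_rpow_of_exponent_le hx1 (by linarith)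
  rcases le_total a (τ - a) with ha | ha
  · refine ⟨2 * ⌊y⌋₊, by omega, ?_, fun u S _ => (self_Av S hy u).mono (lam := 1) (by norm_num)
      zero_le_one (by linarith) fun m _ => ⟨by positivity, (one_mul _).ge⟩⟩
    have h7 : a ≤ av τ a := le_max_of_le_right (le_min le_rfl ha)
    calc ((2 * ⌊y⌋₊ : ℕ) : ℝ) ≤ x ^ (γ / 2) * x ^ (a + γ / 4) := by
          push_cast
          exact mul_le_mul e3 (h3.trans h2) (by positivity) (by positivity)
      _ ≤ _ := by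
          rw [← Real.rpow_add hx0]
          exact Real.rpow_le_rpow_of_exponent_le hx1 (by linarith)
  set T := x ^ τ * Real.log x ^ 3 with hT
  have hT0 : 0 < T := by positivity
  have hq : 0 < T * x ^ (γ / 4) / y := by positivity
  refine ⟨⌈T * x ^ (γ / 4) / y⌉₊, Nat.ceil_pos.2 hq, ?_, fun u S hS => ?_⟩
  · have h7 : τ - a ≤ av τ a := le_max_of_le_right (le_min ha le_rfl)
    have h8 : 2 * (T * x ^ (γ / 4) / y) ≤ x ^ (av τ a + γ) := by
      rw [← mul_div_assoc, div_le_iff₀ hy0]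
      calc 2 * (T * x ^ (γ / 4)) = 2 * Real.log x ^ 3 * (x ^ τ * x ^ (γ / 4)) := by ring
        _ ≤ x ^ (γ / 2) * (x ^ τ * x ^ (γ / 4)) := by gcongr
        _ ≤ x ^ (av τ a + γ) * x ^ (a - γ / 4) := by
          rw [← Real.rpow_add hx0, ← Real.rpow_add hx0, ← Real.rpow_add hx0]
          exact Real.rpow_le_rpow_of_exponent_le hx1 (by linarith)
        _ ≤ _ := by gcongr
    have h9 : x ^ (γ / 2) ≤ x ^ (av τ a + γ) :=
      Real.rpow_le_rpow_of_exponent_le hx1 (by linarith [av_nonneg τ a])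
    linarith [Nat.ceil_lt_add_one hq.le]
  have e7 : (x ^ 2) ^ (min δ (γ / 4) / 2) = x ^ min δ (γ / 4) := by
    rw [← Real.rpow_natCast, ← Real.rpow_mul hx0.le]
    congr 1
    push_cast
    ring
  refine (dom_Av S (Nat.ceil_pos.2 hq) u le_rfl).mono (by norm_num) hC.le (by linarith)
    fun m hm => ⟨by positivity, ?_⟩
  have hs := Real.sqrt_pos.2 hy0
  have h7 := h (x ^ 2) y T (2 * ⌊y⌋₊) ⌈T * x ^ (γ / 4) / y⌉₊ (u + m) (by linarith) (by nlinarith)
    (by push_cast; linarith)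
    (by
      have h8 : x ^ τ ≤ x ^ (1 : ℝ) := Real.rpow_le_rpow_of_exponent_le hx1 (by linarith)
      rw [Real.rpow_one] at h8 e2
      rw [hT, sq]
      exact mul_le_mul h8 (by linarith) (by positivity) hx0.le)
    (by
      have h8 := Nat.le_ceil (T * x ^ (γ / 4) / y)
      rw [div_le_iff₀ hy0] at h8
      have h9 : x ^ min δ (γ / 4) ≤ x ^ (γ / 4) :=
        Real.rpow_le_rpow_of_exponent_le hx1 (min_le_right _ _)
      rw [e7]
      nlinarith)
    (e7 ▸ (Real.rpow_le_rpow_of_exponent_le hx1 (min_le_left _ _)).trans (hS m hm).1)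
    (hS m hm).2
  rw [neg_zero, Real.rpow_zero] at h7
  rw [ZS_eq_Av hy, norm_mul, Complex.norm_real, Real.norm_of_nonneg hs.le,
    mul_div_cancel_left₀ _ hs.ne']
  linarith

end Pool.Agent.MP_c853c5_nt.E
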