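import Pool.Agent.MP_c853c5_nt.E.GridG

/-!
Type I for one box, with any number of smooth slots and an extra constraint.
-/

set_option autoImplicit false

open Finset Filter

namespace Pool.Agent.MP_c853c5_nt.E

open Pool.Agent.MP_2a1f0e_nt Pool.Agent.MP_2a1f0e_nt.GM Pool.Agent.MP_2a1f0e_nt.DH

/-- an extra constraint that holds on level sets; the slots in `σ` are smooth -/
structure Hk (σ ι : Type) (X : ℝ → (σ ⊕ ι → ℝ) → ℝ → (σ ⊕ ι → ℝ) → Prop) : Prop where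
  shift : ∀ τ b r v g, 0 ≤ g → X τ b r v → X τ b (r + g) fun j => v j - g
  mono : ∀ τ τ' b b' r v, τ ≤ τ' → (∀ j, b j ≤ b' j) → X τ b r v → X τ' b' r v
  hook : ∀ δ ε : ℝ, 0 < δ → δ ≤ 1 / 10 → 0 < ε → ∃ γ : ℝ, 0 < γ ∧ ∀ᶠ x : ℝ in atTop,
    ∀ (τ u : ℝ) (b : σ ⊕ ι → ℝ) (y : σ → ℝ) (T : ℕ) (L : σ ⊕ ι → ℕ) (S : Finset ℤ)
      (φ : σ ⊕ ι → ℤ → ℝ), 1 / 3 ≤ τ → τ ≤ 1 / 2 → (∀ j, 0 ≤ b j ∧ b j ≤ 1) →
      (∀ s, b (Sum.inl s) ≤ τ / 2) → 1 ≤ T → (T : ℝ) ≤ x ^ (τ + γ) →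
      (∀ j, 1 ≤ L j ∧ (L j : ℝ) ≤ x ^ (b j + γ)) → S ⊆ Icc 0 (T : ℤ) →
      (∀ m ∈ S, x ^ δ ≤ u + m ∧ u + m ≤ x ^ τ * Real.log x ^ 3) →
      (∀ s, 5 ≤ y s ∧ y s ≤ 8 * x) →
      (∀ s m, φ (Sum.inl s) m = ‖ZS (y s) (u + m)‖ / √(y s)) → (∀ j, ∀ t ∈ S, 0 ≤ φ j t) →
      (∀ j, Dom S (φ j) (L j) (x ^ γ)) →
      ∀ (W : Finset ℤ) (r : ℝ) (v : σ ⊕ ι → ℝ), W ⊆ S → (∀ j, ∀ t ∈ W, x ^ v j ≤ φ j t) →
        x ^ (r + ε) ≤ W.card → X τ b r v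

lemma Hk.triv (σ ι : Type) : Hk σ ι fun _ _ _ _ => True :=
  ⟨fun _ _ _ _ _ _ _ => trivial, fun _ _ _ _ _ _ _ _ _ => trivial,
    fun _ _ _ _ _ => ⟨1, one_pos, Eventually.of_forall (by intros; trivial)⟩⟩

lemma win_BoxG {δ γ : ℝ} (hδ : δ ≤ 1 / 10) (hγ : 0 < γ) : ∀ᶠ x : ℝ in atTop, ∀ τ : ℝ,
    1 / 3 ≤ τ → ∃ T : ℕ, 1 ≤ T ∧ (T : ℝ) ≤ x ^ (τ + γ) ∧
      x ^ δ ≤ x ^ τ * Real.log x ^ 3 ∧ x ^ τ * Real.log x ^ 3 - x ^ δ ≤ T := by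
  filter_upwards [ev_log_le 2 3 hγ, ev_le_log 1, eventually_ge_atTop 1] with x h1 h3 h4 τ a1
  have x0 : 0 < x := by linarith
  have b1 : 1 ≤ Real.log x ^ 3 := one_le_pow₀ h3
  have b2 : 1 ≤ x ^ τ := Real.one_le_rpow h4 (by linarith)
  have b3 : 1 ≤ x ^ τ * Real.log x ^ 3 := one_le_mul_of_one_le_of_one_le b2 b1
  refine ⟨⌈x ^ τ * Real.log x ^ 3⌉₊, Nat.ceil_pos.2 (by linarith), ?_, ?_, ?_⟩
  · have := Nat.ceil_lt_add_one (zero_le_one.trans b3)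
    rw [Real.rpow_add x0]
    nlinarith
  · exact (Real.rpow_le_rpow_of_exponent_le h4 (by linarith)).trans
      (le_mul_of_one_le_right (by linarith) b1)
  · linarith [Nat.le_ceil (x ^ τ * Real.log x ^ 3), Real.rpow_nonneg x0.le δ]

/-- the supports -/
noncomputable def sG {σ ι : Type} (y : σ → ℝ) (N : ι → ℕ) : σ ⊕ ι → Finset ℕ :=
  Sum.elim (fun s => Ioc ⌊y s⌋₊ (2 * ⌊y s⌋₊)) fun j => Icc (N j) (2 * N j)

lemma card_sG {σ ι : Type} [Fintype σ] [Fintype ι] {y : σ → ℝ} {N : ι → ℕ} (hy : ∀ s, 0 ≤ y s)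
    (hN : ∀ j, 1 ≤ N j) : ∏ o, ((sG y N o).card : ℝ) ≤
      2 ^ Fintype.card ι * ((∏ s, y s) * ∏ j, (N j : ℝ)) := by
  rw [Fintype.prod_sum_type, mul_left_comm]
  refine mul_le_mul (prod_le_prod (fun _ _ => Nat.cast_nonneg _) fun s _ => ?_) ?_
    (prod_nonneg fun _ _ => Nat.cast_nonneg _) (prod_nonneg fun s _ => hy s)
  · simp only [sG, Sum.elim_inl]
    rw [Nat.card_Ioc, show 2 * ⌊y s⌋₊ - ⌊y s⌋₊ = ⌊y s⌋₊ by omega]
    exact Nat.floor_le (hy s)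
  · refine (prod_le_prod (fun _ _ => Nat.cast_nonneg _) fun j _ => card_blk_le (hN j)).trans_eq ?_
    rw [prod_mul_distrib, prod_const, card_univ]

theorem boxG (hC : CoreStmt) (hS : SelfStmt) (hA : AvStmt) (hI : GrdStmt) (hT : TbStmt)
    (σ ι : Type) [Fintype σ] [Fintype ι] [DecidableEq σ] [DecidableEq ι]
    {X : ℝ → (σ ⊕ ι → ℝ) → ℝ → (σ ⊕ ι → ℝ) → Prop} (hX : Hk σ ι X) (K : ℕ) {η δ : ℝ}
    (hη : 0 < η) (hη' : η ≤ 1 / 10) (hδ : 0 < δ) (hδ' : δ ≤ 1 / 10) :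
    ∃ γ : ℝ, 0 < γ ∧ ∀ᶠ x : ℝ in atTop,
    ∀ (τ v Δ Δ₀ : ℝ) (y a : σ → ℝ) (b : ι → ℝ) (N : ι → ℕ) (c : ι → ℕ → ℝ),
      1 / 3 ≤ τ → τ ≤ 1 / 2 → Wd x τ δ Δ Δ₀ → (∀ j, 0 ≤ b j ∧ b j ≤ 1) →
      EvalX (X τ (Sum.elim (fun s => av τ (a s)) b)) K τ 0 (1 / 2 - η)
        (Sum.elim (fun s => av τ (a s)) b) →
      (∀ j, 1 ≤ N j ∧ (N j : ℝ) ≤ x ^ (b j + γ)) →
      (∀ s, 5 ≤ y s ∧ x ^ (a s - γ) ≤ y s ∧ y s ≤ x ^ (a s + γ)) →
      (∏ s, y s) * ∏ j, (N j : ℝ) ≤ 8 * x → (∀ j n, |c j n| ≤ 1) →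
      |PhiS v Δ Δ₀ (sG y N) (Sum.elim (fun s => oc (y s)) c)| ≤
        x ^ (1 - η / 2) + x ^ (1 - δ / 2) := by
  obtain ⟨g₁, hg₁, hG⟩ := gridG hC (σ ⊕ ι) K (2 ^ Fintype.card ι * 8) hη hη'
  obtain ⟨g₂, hg₂, hH⟩ := hX.hook δ g₁ hδ hδ' hg₁
  obtain ⟨γ, hγ, γ1, γ2⟩ : ∃ γ : ℝ, 0 < γ ∧ γ ≤ g₁ ∧ γ ≤ g₂ :=
    ⟨min g₁ g₂, lt_min hg₁ hg₂, min_le_left _ _, min_le_right _ _⟩
  refine ⟨γ / 4, by positivity, ?_⟩
  filter_upwards [hG, hH, hA δ γ hδ hγ, hT δ hδ hδ', win_BoxG hδ' hγ,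
    ev_le_log (2 ^ Fintype.card ι * 8), ev_const_le 2 (half_pos hγ), eventually_ge_atTop 1] with
    x hG hH hA hT hW l1 l2 x1 τ v Δ Δ₀ y a b N c a1 a2 a3 a4 a5 a6 a7 a10 a11
  have x0 : 0 < x := by linarith
  have mono : ∀ {a a' : ℝ}, a ≤ a' → x ^ a ≤ x ^ a' := fun h => Real.rpow_le_rpow_of_exponent_le x1 h
  obtain ⟨T, t1, t2, t3, t4⟩ := hW τ a1
  have p1 : 1 ≤ ∏ j, (N j : ℝ) := by
    exact_mod_cast one_le_prod' fun j _ => (a6 j).1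
  have y1 : ∀ s, 1 ≤ y s := fun s => by linarith [(a7 s).1]
  have y8 : ∀ s, y s ≤ 8 * x := fun s => by
    refine le_trans ?_ ((le_mul_of_one_le_right (prod_nonneg fun s _ => by linarith [y1 s])
      p1).trans a10)
    rw [← mul_prod_erase _ _ (mem_univ s)]
    exact le_mul_of_one_le_right (by linarith [y1 s]) (one_le_prod fun s _ => y1 s)
  choose L s1 s2 s3 using fun s => hA τ (a s) (y s) a1 a2 (a7 s).1 (y8 s) (a7 s).2.1 (a7 s).2.2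
  set b' : σ ⊕ ι → ℝ := Sum.elim (fun s => av τ (a s)) b with hb'
  set L' : σ ⊕ ι → ℕ := Sum.elim L fun j => 2 * N j with hL'
  set y' : σ ⊕ ι → ℝ := Sum.elim y fun j => ((2 * N j : ℕ) : ℝ) with hy'
  set c' : σ ⊕ ι → ℕ → ℝ := Sum.elim (fun s => oc (y s)) c with hc'
  have τ2 : ∀ s, b' (Sum.inl s) ≤ τ / 2 := fun s => av_le (by linarith) _
  have e0 : ∀ o, 0 ≤ b' o ∧ b' o ≤ 1 := by
    rintro (s | j)
    exacts [⟨av_nonneg _ _, (τ2 s).trans (by linarith)⟩, a4 j]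
  have e1 : ∀ o, 1 ≤ L' o ∧ (L' o : ℝ) ≤ x ^ (b' o + γ) := by
    rintro (s | j)
    · exact ⟨s1 s, s2 s⟩
    · refine ⟨by have := (a6 j).1; simp only [hL', Sum.elim_inr]; omega, ?_⟩
      simp only [hL', hb', Sum.elim_inr]
      push_cast
      calc (2 : ℝ) * N j ≤ x ^ (γ / 2) * x ^ (b j + γ / 4) := by
            have := (a6 j).2
            gcongr
        _ ≤ _ := by
          rw [← Real.rpow_add x0]
          exact mono (by linarith)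
  have e2 : ∀ o, 0 < y' o := by
    rintro (s | j)
    · exact one_pos.trans_le (y1 s)
    · have := (a6 j).1
      simp only [hy', Sum.elim_inr]
      exact_mod_cast (by omega : 0 < 2 * N j)
  have e3 : ∏ o, y' o ≤ 2 ^ Fintype.card ι * 8 * x := by
    rw [Fintype.prod_sum_type]
    simp only [hy', Sum.elim_inl, Sum.elim_inr]
    push_cast
    rw [prod_mul_distrib, prod_const, card_univ, mul_left_comm, mul_assoc]
    gcongr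
  have b1 := hI (fun t => ∏ o, ‖FP (sG y N o) (c' o) t‖) _ _ (x ^ (1 - η / 2)) T
    (continuous_finsetProd _ fun o _ => (continuous_FP _ _).norm)
    (fun t => prod_nonneg fun _ _ => norm_nonneg _) t3 t4 fun u S hST hm => by
      have d1 : ∀ o, Dom S (fun m => ‖FP (sG y N o) (c' o) (u + m)‖ / √(y' o)) (L' o) (x ^ γ) := by
        rintro (s | j)
        · exact s3 s u S fun m h => by
            rw [abs_of_nonneg ((Real.rpow_nonneg x0.le δ).trans (hm m h).1)]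
            exact hm m h
        · exact (hS S (Icc (N j) (2 * N j)) (c j) (2 * N j) u (e1 (Sum.inr j)).1
            (Icc_subset_Icc_left (a6 j).1) (a11 j)).mono (lam := 1) zero_le_one zero_le_one
            (by rw [one_mul]; exact Real.one_le_rpow x1 hγ.le)
            fun t ht => ⟨by positivity, by rw [one_mul]; rfl⟩
      have d2 : ∀ {g : ℝ}, γ ≤ g → ∀ o, Dom S (fun m => ‖FP (sG y N o) (c' o) (u + m)‖ / √(y' o))
          (L' o) (x ^ g) := fun h o => (d1 o).mono (lam := 1) (by positivity) zero_le_one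
            (by rw [one_mul]; exact mono h) fun t ht => ⟨by positivity, by rw [one_mul]⟩
      exact hG (X τ b') τ b' y' T L' S (fun o m => ‖FP (sG y N o) (c' o) (u + m)‖) (by linarith) a2
        e0 a5 (hX.shift τ b') t1 (t2.trans (mono (by linarith)))
        (fun o => ⟨(e1 o).1, (e1 o).2.trans (mono (by linarith))⟩) e2 e3 hST
        (fun _ _ _ => norm_nonneg _) (d2 γ1)
        (hH τ u b' y T L' S _ a1 a2 e0 τ2 t1 (t2.trans (mono (by linarith)))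
          (fun o => ⟨(e1 o).1, (e1 o).2.trans (mono (by linarith))⟩) hST hm
          (fun s => ⟨(a7 s).1, y8 s⟩) (fun _ _ => rfl) (fun _ _ _ => by positivity) (d2 γ2))
  refine hT (σ ⊕ ι) τ v Δ Δ₀ (x ^ (1 - η / 2)) _ _ a1 a2 a3 (fun o h => ?_) (fun o n => ?_) ?_ b1
  · rcases o with s | j
    · exact Nat.not_lt_zero _ (mem_Ioc.1 h).1
    · have := (a6 j).1
      have := (mem_Icc.1 h).1
      omega
  · rcases o with s | j
    exacts [abs_oc_le (y s) n, a11 j n]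
  · refine (card_sG (fun s => by linarith [y1 s]) fun j => (a6 j).1).trans ?_
    calc _ ≤ 2 ^ Fintype.card ι * (8 * x) := by gcongr
      _ = x * (2 ^ Fintype.card ι * 8) := by ring
      _ ≤ _ := by gcongr

end Pool.Agent.MP_c853c5_nt.E
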