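import Pool.Agent.MP_c853c5_nt.E.Basic

set_option autoImplicit false

open Finset Filter

namespace Pool.Agent.MP_c853c5_nt.E

open Pool.Agent.MP_2a1f0e_nt Pool.Agent.MP_2a1f0e_nt.GM Pool.Agent.MP_2a1f0e_nt.DH

lemma prod_ConL {ι : Type} [Fintype ι] {x : ℝ} (hx : 0 < x) (κ : ι → ℕ) (a : ι → ℝ) :
    ∏ j, (x ^ a j) ^ κ j = x ^ ∑ j, (κ j : ℝ) * a j := by
  rw [Real.rpow_sum_of_pos hx]
  refine prod_congr rfl fun j _ => ?_
  rw [← Real.rpow_natCast, ← Real.rpow_mul hx.le, mul_comm]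

theorem con_stmt (hE : ExpStmt) (hP : ProdStmt) : ConStmt := by
  intro ι _ K ε hε
  obtain ⟨m, hm⟩ : ∃ m : ℝ, m = (Fintype.card ι : ℝ) * K := ⟨_, rfl⟩
  have hm0 : 0 ≤ m := by rw [hm]; positivity
  obtain ⟨g, hg, hE⟩ := hE m ε hε
  obtain ⟨γ, hγ, hγg⟩ : ∃ γ : ℝ, 0 < γ ∧ (2 * m + 1) * γ = g :=
    ⟨g / (2 * m + 1), by positivity, by field_simp⟩
  have hmγ : 0 ≤ m * γ := by positivity
  obtain ⟨C, -, hC⟩ := exists_DivB (ε := γ / 2 / (m + g)) (by positivity)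
  refine ⟨γ, hγ, ?_⟩
  filter_upwards [hE, ev_const_le C (half_pos hγ), eventually_ge_atTop 1] with x hE hCx hx
  intro τ b T L S φ h0 h1 hb hT hTx hL hS hφ hD W r v hW hv hr κ hκ
  have hx0 : 0 < x := by linarith
  have hk : ∑ j, (κ j : ℝ) ≤ m := by
    rw [hm, ← nsmul_eq_mul, ← card_univ]
    exact sum_le_card_nsmul _ _ _ fun j _ => by exact_mod_cast hκ j
  have hkγ : (∑ j, (κ j : ℝ)) * γ ≤ m * γ := mul_le_mul_of_nonneg_right hk hγ.le
  have hn0 : 0 ≤ ∑ j, (κ j : ℝ) * b j := sum_nonneg fun j _ => mul_nonneg (by positivity) (hb j).1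
  have hn : ∑ j, (κ j : ℝ) * b j ≤ m :=
    (sum_le_sum fun j _ => mul_le_of_le_one_right (by positivity) (hb j).2).trans hk
  have hL1 : 1 ≤ ∏ j, L j ^ κ j := one_le_prod' fun j _ => Nat.one_le_pow _ _ (hL j).1
  have hLx : ((∏ j, L j ^ κ j : ℕ) : ℝ) ≤ x ^ (∑ j, (κ j : ℝ) * b j + g) := by
    push_cast
    refine (prod_le_prod (fun j _ => by positivity) fun j _ =>
      pow_le_pow_left₀ (by positivity) (hL j).2 _).trans ?_
    rw [prod_ConL hx0]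
    refine Real.rpow_le_rpow_of_exponent_le hx ?_
    simp only [mul_add, sum_add_distrib, ← sum_mul]
    linarith
  have hΔ : C * ((∏ j, L j ^ κ j : ℕ) : ℝ) ^ (γ / 2 / (m + g)) ≤ x ^ γ := by
    have e1 : ((∏ j, L j ^ κ j : ℕ) : ℝ) ^ (γ / 2 / (m + g)) ≤ x ^ (γ / 2) := by
      refine (Real.rpow_le_rpow (Nat.cast_nonneg _) (hLx.trans
        (Real.rpow_le_rpow_of_exponent_le hx (show _ ≤ m + g by linarith))) (by positivity)).trans
        (le_of_eq ?_)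
      rw [← Real.rpow_mul hx0.le]
      congr 1
      field_simp
    refine (mul_le_mul hCx e1 (by positivity) (by positivity)).trans (le_of_eq ?_)
    rw [← Real.rpow_add hx0, add_halves]
  obtain ⟨c, hc, hs⟩ := hP ι S W φ L κ (x ^ γ) (x ^ γ) hW (fun j => (hL j).1) (by positivity) hφ hD
    ⟨(hC _ hL1).1.trans hΔ, fun n hn => ((hC _ hL1).2 n hn).trans hΔ⟩
  refine hE τ _ _ r _ T c W h0 h1 hn0 hn hL1 hLx hT
    (hTx.trans (Real.rpow_le_rpow_of_exponent_le hx (by linarith))) hc (hW.trans hS) hr ?_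
  have e1 : (W.card : ℝ) * x ^ (∑ j, (κ j : ℝ) * v j) ≤ ∑ t ∈ W, ∏ j, φ j t ^ κ j := by
    rw [← nsmul_eq_mul, ← prod_ConL hx0]
    exact card_nsmul_le_sum _ _ _ fun t ht => prod_le_prod (fun j _ => by positivity) fun j _ =>
      pow_le_pow_left₀ (by positivity) (hv j t ht) _
  have e2 : (x ^ γ * x ^ γ) ^ (∑ j, κ j) ≤ x ^ g := by
    rw [← Real.rpow_add hx0, ← Real.rpow_natCast, ← Real.rpow_mul hx0.le]
    refine Real.rpow_le_rpow_of_exponent_le hx ?_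
    push_cast
    linarith
  have e3 := (e1.trans hs).trans
    (mul_le_mul_of_nonneg_right e2 (sum_nonneg fun _ _ => norm_nonneg _))
  rw [Real.rpow_sub hx0, ← mul_div_assoc, div_le_iff₀' (by positivity)]
  exact e3

end Pool.Agent.MP_c853c5_nt.E
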