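import Pool.Agent.MP_c853c5_nt.E.Basic

set_option autoImplicit false

open Finset Filter

namespace Pool.Agent.MP_c853c5_nt.E

open Pool.Agent.MP_2a1f0e_nt Pool.Agent.MP_2a1f0e_nt.GM Pool.Agent.MP_2a1f0e_nt.DH

theorem core_stmt (hC : ConStmt) (hL : LevStmt) : CoreStmt := by
  intro ι _ K ε hε
  set k : ℝ := (Fintype.card ι : ℝ) with hk
  have hk0 : 0 ≤ k := Nat.cast_nonneg _
  set e : ℝ := min 1 (ε / (2 * k + 2)) with he
  have he0 : 0 < e := lt_min one_pos (by positivity)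
  have he1 : e ≤ 1 := min_le_left _ _
  have he2 : (2 * k + 2) * e ≤ ε := by
    have : e ≤ ε / (2 * k + 2) := min_le_right _ _
    rwa [le_div_iff₀ (by positivity), mul_comm] at this
  have he3 : 2 * e ≤ ε := by nlinarith
  obtain ⟨g, hg, hC⟩ := hC ι K e he0
  obtain ⟨Q, hQ, hL⟩ := hL ι e he0 he1
  have hγ0 : 0 < min g (e / 4) := lt_min hg (by positivity)
  have hγ1 : min g (e / 4) ≤ g := min_le_left _ _
  have hγ2 : min g (e / 4) ≤ e / 4 := min_le_right _ _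
  generalize min g (e / 4) = γ at hγ0 hγ1 hγ2
  refine ⟨γ, hγ0, by linarith, ?_⟩
  filter_upwards [hC, eventually_gt_atTop 1, ev_const_le Q he0,
    ev_const_le 2 (show 0 < e / 2 by positivity)] with x hC hx hQx h2
  intro X τ η s ρ b T L S φ hτ0 hτ1 hη hρ hb hE hT1 hT hLx hS hφ hD hX
  have hx0 : 0 < x := by linarith
  have hm : ∀ {a c : ℝ}, a ≤ c → x ^ a ≤ x ^ c := fun h =>
    Real.rpow_le_rpow_of_exponent_le hx.le h
  have hp : ∀ a : ℝ, 0 < x ^ a := fun a => Real.rpow_pos_of_pos hx0 a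
  have hcard : (S.card : ℝ) ≤ x ^ (τ + e) := by
    have h1 : S.card ≤ T + 1 := by
      refine (card_le_card hS).trans ?_
      rw [Int.card_Icc]
      omega
    have h3 : (S.card : ℝ) ≤ 2 * T := by exact_mod_cast (by omega : S.card ≤ 2 * T)
    calc (S.card : ℝ) ≤ 2 * T := h3
      _ ≤ x ^ (e / 2) * x ^ (τ + γ) :=
          mul_le_mul h2 hT (Nat.cast_nonneg _) (hp _).le
      _ = x ^ (e / 2 + (τ + γ)) := (Real.rpow_add hx0 _ _).symm
      _ ≤ _ := hm (by linarith)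
  have hφ' : ∀ j, ∀ t ∈ S, 0 ≤ φ j t ∧ φ j t ≤ x ^ (b j / 2 + e) := by
    intro j t ht
    refine ⟨hφ j t ht, ((hD j).le (hp γ).le ht).trans ?_⟩
    have h1 : √(L j : ℝ) ≤ x ^ ((b j + γ) / 2) := by
      refine Real.sqrt_le_iff.2 ⟨(hp _).le, (hLx j).2.trans (le_of_eq ?_)⟩
      rw [sq, ← Real.rpow_add hx0]
      congr 1
      ring
    calc x ^ γ * (2 * √(L j : ℝ)) ≤ x ^ γ * (x ^ (e / 2) * x ^ ((b j + γ) / 2)) :=
          mul_le_mul_of_nonneg_left (mul_le_mul h2 h1 (Real.sqrt_nonneg _) (hp _).le) (hp _).le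
      _ = x ^ (γ + (e / 2 + (b j + γ) / 2)) := by
          rw [← Real.rpow_add hx0, ← Real.rpow_add hx0]
      _ ≤ _ := hm (by linarith)
  obtain ⟨S₀, hS₀, h1, h3⟩ := hL x τ η s ρ (fun j => b j / 2) S φ
    (fun r v => Cons K τ b r v ∧ X r v) hx hτ1 hη hρ (fun j => by linarith [(hb j).2]) hcard hφ'
    (fun W r v hW hv hr =>
      ⟨hC τ b T L S φ hτ0 hτ1 hb hT1 (hT.trans (hm (by linarith)))
        (fun j => ⟨(hLx j).1, (hLx j).2.trans (hm (by linarith))⟩) hS hφ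
        (fun j => (hD j).mono (hp γ).le zero_le_one (by rw [one_mul]; exact hm hγ1)
          fun t ht => ⟨hφ j t ht, by rw [one_mul]⟩) W r v hW hv hr,
        hX W r v hW hv ((hm (by linarith)).trans hr)⟩)
    (fun r v h0 h1 h2 h3 => hE r v h0 h1 h2 h3.1 h3.2)
  refine ⟨S₀, hS₀, h1.trans ?_, h3.trans (add_le_add ?_ le_rfl)⟩
  · calc Q * x ^ (ρ + e) ≤ x ^ e * x ^ (ρ + e) := mul_le_mul_of_nonneg_right hQx (hp _).le
      _ = x ^ (e + (ρ + e)) := (Real.rpow_add hx0 _ _).symm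
      _ ≤ _ := hm (by linarith)
  · calc Q * x ^ (s - η * ρ + (2 * k + 1) * e)
        ≤ x ^ e * x ^ (s - η * ρ + (2 * k + 1) * e) := mul_le_mul_of_nonneg_right hQx (hp _).le
      _ = x ^ (e + (s - η * ρ + (2 * k + 1) * e)) := (Real.rpow_add hx0 _ _).symm
      _ ≤ _ := hm (by linarith)

end Pool.Agent.MP_c853c5_nt.E
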