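import Pool.Agent.MP_c853c5_nt.E.Basic

set_option autoImplicit false

open Finset Filter

namespace Pool.Agent.MP_c853c5_nt.E

open Pool.Agent.MP_2a1f0e_nt Pool.Agent.MP_2a1f0e_nt.GM Pool.Agent.MP_2a1f0e_nt.DH

lemma sq_DOne (N : ℕ) (V : ℝ) : (√(N : ℝ) * V) ^ 2 = N * V ^ 2 := by
  rw [mul_pow, Real.sq_sqrt (Nat.cast_nonneg N)]

lemma mv_DOne {C : ℝ} (hC : ∀ (N T : ℕ) (V : ℝ) (b : ℕ → ℂ), 1 ≤ N → 0 < V →
      (∀ n, ‖b n‖ ≤ 1) → (DH.cnt N b T V : ℝ) * V ^ 2 ≤ C * (((N : ℝ) + T) * N))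
    (N T : ℕ) (V : ℝ) (b : ℕ → ℂ) (hN : 1 ≤ N) (hV : 0 < V) (hb : ∀ n, ‖b n‖ ≤ 1) :
    (cnt N b T (√N * V) : ℝ) ≤ C * (((T : ℝ) + N) / V ^ 2) := by
  have hN0 : (0 : ℝ) < N := by exact_mod_cast hN
  have h := hC N T (√N * V) b hN (by positivity) hb
  rw [sq_DOne] at h
  rw [← mul_div_assoc, le_div_iff₀ (by positivity)]
  refine le_of_mul_le_mul_right ?_ hN0
  linarith

lemma mass_DOne (N T : ℕ) (b : ℕ → ℂ) {W : ℝ} (hW : 0 ≤ W) :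
    (cnt N b T W : ℝ) * W ^ 2 ≤ Mass N b (Icc 0 (T : ℤ)) W := by
  unfold cnt Mass
  rw [← nsmul_eq_mul]
  exact card_nsmul_le_sum _ _ _ fun t ht => pow_le_pow_left₀ hW (mem_filter.1 ht).2 2

theorem d1_stmt (hM : Z.MvStmt) : DLV Bd1 := by
  obtain ⟨C, hC0, hC⟩ := hM
  intro ε hε
  refine ⟨C, hC0, fun N T V b hN hT hV hb => (mv_DOne hC N T V b hN hV hb).trans ?_⟩
  have hN1 : (1 : ℝ) ≤ N := by exact_mod_cast hN
  have hT1 : (1 : ℝ) ≤ T := by exact_mod_cast hT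
  have h1 : 1 ≤ ((N : ℝ) * T) ^ ε :=
    Real.one_le_rpow (one_le_mul_of_one_le_of_one_le hN1 hT1) hε.le
  unfold Bd1
  exact mul_le_mul_of_nonneg_right (le_mul_of_one_le_right hC0.le h1) (by positivity)

lemma mid_DOne {K ε : ℝ} {N T : ℕ} {V : ℝ} {b : ℕ → ℂ} (hN : 1 ≤ N) (hV : 0 < V)
    (h : Mass N b (Icc 0 (T : ℤ)) (√N * V) ≤
      K * (N : ℝ) ^ ε * ((N : ℝ) ^ 2 + T * (N : ℝ) ^ 4 / (√N * V) ^ 4)) :
    (cnt N b T (√N * V) : ℝ) ≤ K * (N : ℝ) ^ ε * Bd2 N T V := by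
  have hN0 : (0 : ℝ) < N := by exact_mod_cast hN
  have h1 := (mass_DOne N T b (W := √N * V) (by positivity)).trans h
  have h2 : (√(N : ℝ) * V) ^ 4 = (N * V ^ 2) ^ 2 := by
    rw [← sq_DOne]
    ring
  rw [h2, sq_DOne] at h1
  refine le_of_mul_le_mul_right (h1.trans_eq ?_) (show 0 < (N : ℝ) * V ^ 2 by positivity)
  unfold Bd2
  field_simp

lemma top_DOne {C : ℝ} (hC0 : 0 < C) (hC : ∀ (N T : ℕ) (V : ℝ) (b : ℕ → ℂ), 1 ≤ N → 0 < V →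
      (∀ n, ‖b n‖ ≤ 1) → (DH.cnt N b T V : ℝ) * V ^ 2 ≤ C * (((N : ℝ) + T) * N))
    (hS : Z.SplStmt) {N T : ℕ} {V Δ : ℝ} {b : ℕ → ℂ} (hN : 1 ≤ N) (hT : N ^ 2 ≤ T) (hV : 0 < V)
    (hb : ∀ n, ‖b n‖ ≤ 1) (hΔ : DivB ((2 * N) ^ 3) Δ) :
    (cnt N b T (√N * V) : ℝ) ≤ 540 * C * Δ ^ 6 * ((T : ℝ) * N / V ^ 6) := by
  have hN1 : (1 : ℝ) ≤ N := by exact_mod_cast hN
  have hN0 : (0 : ℝ) < N := by linarith
  have hT2 : (N : ℝ) ^ 2 ≤ T := by exact_mod_cast hT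
  have hT0 : (0 : ℝ) ≤ T := Nat.cast_nonneg T
  have hΔ0 : 0 < Δ := by linarith [hΔ.1]
  obtain ⟨c, hc, h⟩ := hS N 3 T Δ (√N * V) b hN (by norm_num) hΔ (by positivity) hb
  have h' : (cnt N b T (√N * V) : ℝ) ≤ ∑ i ∈ range 3,
      (cnt (2 ^ i * N ^ 3) (c i) T ((√N * V) ^ 3 / (((3 : ℕ) : ℝ) * Δ ^ 3)) : ℝ) := by
    exact_mod_cast h
  refine h'.trans ((sum_le_card_nsmul _ _ (180 * C * Δ ^ 6 * ((T : ℝ) * N / V ^ 6))
    fun i hi => ?_).trans (le_of_eq ?_))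
  · have h2 : (2 : ℝ) ^ i ≤ 4 := by
      calc (2 : ℝ) ^ i ≤ 2 ^ 2 := pow_le_pow_right₀ (by norm_num) (by have := mem_range.1 hi; omega)
        _ = 4 := by norm_num
    have h3 := hC (2 ^ i * N ^ 3) T ((√N * V) ^ 3 / (((3 : ℕ) : ℝ) * Δ ^ 3)) (c i)
      (Nat.one_le_iff_ne_zero.2 (by positivity)) (by positivity) (hc i)
    have h4 : ((√(N : ℝ) * V) ^ 3 / (((3 : ℕ) : ℝ) * Δ ^ 3)) ^ 2 =
        (N : ℝ) ^ 3 * V ^ 6 / (9 * Δ ^ 6) := by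
      rw [div_pow, ← pow_mul, show 3 * 2 = 2 * 3 by norm_num, pow_mul, sq_DOne]
      push_cast
      ring
    rw [h4] at h3
    have h5 : (N : ℝ) ^ 3 ≤ T * N := by
      calc (N : ℝ) ^ 3 = (N : ℝ) ^ 2 * N := by ring
        _ ≤ (T : ℝ) * N := by gcongr
    have h6 : (T : ℝ) ≤ T * N := le_mul_of_one_le_right hT0 hN1
    have h7 : (((2 ^ i * N ^ 3 : ℕ) : ℝ) + T) * ((2 ^ i * N ^ 3 : ℕ) : ℝ) ≤
        (4 * (T * N) + T * N) * (4 * (N : ℝ) ^ 3) := by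
      push_cast
      gcongr
    refine le_of_mul_le_mul_right ((h3.trans (mul_le_mul_of_nonneg_left h7 hC0.le)).trans_eq ?_)
      (show 0 < (N : ℝ) ^ 3 * V ^ 6 / (9 * Δ ^ 6) by positivity)
    field_simp
    ring
  · rw [card_range, nsmul_eq_mul]
    push_cast
    ring

theorem d2_stmt (hM : Z.MvStmt) (hS : Z.SplStmt) (hB : GM.B2Stmt) : DLV Bd2 := by
  obtain ⟨C, hC0, hC⟩ := hM
  intro ε hε
  obtain ⟨K, hK0, hK⟩ := hB ε hε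
  obtain ⟨D, hD1, hD⟩ := exists_DivB (show 0 < ε / 18 by positivity)
  have hD0 : 0 < D := by linarith
  have hA : 0 < 540 * C * D ^ 6 * (2 : ℝ) ^ ε := by positivity
  refine ⟨2 * C + K + 540 * C * D ^ 6 * (2 : ℝ) ^ ε, by positivity,
    fun N T V b hN hT hV hb => ?_⟩
  have hN1 : (1 : ℝ) ≤ N := by exact_mod_cast hN
  have hT1 : (1 : ℝ) ≤ T := by exact_mod_cast hT
  have h0 : 1 ≤ (N : ℝ) ^ ε := Real.one_le_rpow hN1 hε.le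
  have h1 : (N : ℝ) ^ ε ≤ ((N : ℝ) * T) ^ ε :=
    Real.rpow_le_rpow (by positivity) (le_mul_of_one_le_right (by positivity) hT1) hε.le
  have hB1 : (N : ℝ) / V ^ 2 ≤ Bd2 N T V := le_add_of_nonneg_right (by positivity)
  have hB2 : (T : ℝ) * N / V ^ 6 ≤ Bd2 N T V := le_add_of_nonneg_left (by positivity)
  have hB0 : 0 ≤ Bd2 N T V := le_trans (by positivity) hB1
  have key : ∀ A : ℝ, A ≤ 2 * C + K + 540 * C * D ^ 6 * (2 : ℝ) ^ ε →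
      (cnt N b T (√N * V) : ℝ) ≤ A * (N : ℝ) ^ ε * Bd2 N T V →
      (cnt N b T (√N * V) : ℝ) ≤
        (2 * C + K + 540 * C * D ^ 6 * (2 : ℝ) ^ ε) * ((N : ℝ) * T) ^ ε * Bd2 N T V :=
    fun A hA' h => h.trans (by gcongr)
  rcases le_total T N with hTN | hNT
  · refine key (2 * C) (by linarith) ((mv_DOne hC N T V b hN hV hb).trans ?_)
    have h2 : (T : ℝ) ≤ N := by exact_mod_cast hTN
    calc C * (((T : ℝ) + N) / V ^ 2) ≤ C * (((N : ℝ) + N) / V ^ 2) := by gcongr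
      _ = 2 * C * 1 * ((N : ℝ) / V ^ 2) := by ring
      _ ≤ _ := by gcongr
  rcases le_total T (N ^ 2) with hT2 | hT2
  · exact key K (by linarith)
      (mid_DOne hN hV (hK N T hN hNT hT2 b hb _ (by positivity)))
  · refine key (540 * C * D ^ 6 * (2 : ℝ) ^ ε) (by linarith)
      ((top_DOne hC0 hC hS hN hT2 hV hb
        (hD ((2 * N) ^ 3) (Nat.one_le_iff_ne_zero.2 (by positivity)))).trans ?_)
    have h2 : (D * ((((2 * N) ^ 3 : ℕ) : ℝ)) ^ (ε / 18)) ^ 6 =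
        D ^ 6 * (2 : ℝ) ^ ε * (N : ℝ) ^ ε := by
      rw [mul_pow, mul_assoc, ← Real.mul_rpow (by norm_num) (by positivity)]
      congr 1
      push_cast
      rw [← Real.rpow_natCast, ← Real.rpow_natCast, ← Real.rpow_mul (by positivity),
        ← Real.rpow_mul (by positivity)]
      congr 1
      push_cast
      ring
    rw [h2]
    calc 540 * C * (D ^ 6 * (2 : ℝ) ^ ε * (N : ℝ) ^ ε) * ((T : ℝ) * N / V ^ 6)
        = 540 * C * D ^ 6 * (2 : ℝ) ^ ε * (N : ℝ) ^ ε * ((T : ℝ) * N / V ^ 6) := by ring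
      _ ≤ _ := by gcongr

end Pool.Agent.MP_c853c5_nt.E
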