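import Pool.Agent.MP_c853c5_nt.E.Basic

set_option autoImplicit false

open Finset Filter

namespace Pool.Agent.MP_c853c5_nt.E

open Pool.Agent.MP_2a1f0e_nt Pool.Agent.MP_2a1f0e_nt.GM Pool.Agent.MP_2a1f0e_nt.DH

lemma lv_DThree {N T : ℕ} {V Z : ℝ} {b : ℕ → ℂ}
    (h : ∀ W : Finset ℝ, (∀ t ∈ W, 0 ≤ t ∧ t ≤ T) → (∀ s ∈ W, ∀ t ∈ W, s ≠ t → 1 ≤ |s - t|) →
      (∀ t ∈ W, V ≤ ‖DP N b t‖) → (W.card : ℝ) ≤ Z) : (cnt N b T V : ℝ) ≤ Z := by
  classical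
  rw [cnt, ← card_image_of_injective _ (Int.cast_injective (α := ℝ))]
  refine h _ ?_ ?_ ?_
  · simp only [forall_mem_image, mem_filter, mem_Icc]
    exact fun t ht => ⟨by exact_mod_cast ht.1.1, by exact_mod_cast ht.1.2⟩
  · simp only [forall_mem_image]
    intro s _ t _ hst
    have : s - t ≠ 0 := sub_ne_zero.2 fun h => hst (by rw [h])
    exact_mod_cast Int.one_le_abs this
  · simp only [forall_mem_image, mem_filter]
    exact fun t ht => ht.2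

lemma w2_DThree {n : ℝ} (hn : 0 ≤ n) (V : ℝ) : (√n * V) ^ 2 = n * V ^ 2 := by
  rw [mul_pow, Real.sq_sqrt hn]

lemma w4_DThree {n : ℝ} (hn : 0 ≤ n) (V : ℝ) : (√n * V) ^ 4 = n ^ 2 * V ^ 4 := by
  rw [show (4 : ℕ) = 2 * 2 from rfl, pow_mul, w2_DThree hn, mul_pow, ← pow_mul]

lemma w6_DThree {n : ℝ} (hn : 0 ≤ n) (V : ℝ) : (√n * V) ^ 6 = n ^ 3 * V ^ 6 := by
  rw [show (6 : ℕ) = 2 * 3 from rfl, pow_mul, w2_DThree hn, mul_pow, ← pow_mul]

lemma fin_DThree {x c K P B B' : ℝ} (h : x ≤ c * B') (h0 : 0 ≤ B') (h1 : B' ≤ B) (h2 : c ≤ K * P)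
    (h3 : 0 ≤ K * P) : x ≤ K * P * B :=
  h.trans (mul_le_mul h2 h1 h0 h3)

lemma short_DThree {C : ℝ} {N T : ℕ} {V : ℝ} {b : ℕ → ℂ} (hC : 0 < C) (hN : 1 ≤ N) (hT : T ≤ N)
    (hV : 0 < V) (h : (cnt N b T (√N * V) : ℝ) * (√N * V) ^ 2 ≤ C * (((N : ℝ) + T) * N)) :
    (cnt N b T (√N * V) : ℝ) ≤ 2 * C * (N / V ^ 2) := by
  have n0 : (0 : ℝ) < N := by exact_mod_cast hN
  have t1 : (T : ℝ) ≤ N := by exact_mod_cast hT
  rw [w2_DThree n0.le] at h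
  rw [← mul_div_assoc, le_div_iff₀ (by positivity)]
  refine le_of_mul_le_mul_right ?_ n0
  have := mul_le_mul_of_nonneg_left (mul_le_mul_of_nonneg_right t1 n0.le) hC.le
  linarith

lemma pw_DThree {N T : ℕ} (hN : 1 ≤ N) (hT : 1 ≤ T) {ε : ℝ} (hε : 0 < ε) :
    1 ≤ (N : ℝ) ^ ε ∧ (N : ℝ) ^ ε ≤ ((N : ℝ) * T) ^ ε := by
  have n1 : (1 : ℝ) ≤ N := by exact_mod_cast hN
  have t1 : (1 : ℝ) ≤ T := by exact_mod_cast hT
  exact ⟨Real.one_le_rpow n1 hε.le,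
    Real.rpow_le_rpow (by linarith) (le_mul_of_one_le_right (by linarith) t1) hε.le⟩

theorem d3_stmt (hM : Z.MvStmt) (h : Z.LVe (50 / 21)) : DLV Bd3 := by
  obtain ⟨C, hC, hM⟩ := hM
  intro ε hε
  obtain ⟨K, hK⟩ := h ε hε
  refine ⟨2 * C + |K|, by positivity, fun N T V b hN hT hV hb => ?_⟩
  have n0 : (0 : ℝ) < N := by exact_mod_cast hN
  have w0 : 0 < √(N : ℝ) * V := by positivity
  obtain ⟨p1, p2⟩ := pw_DThree hN hT hε
  have k0 := abs_nonneg K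
  rcases le_total T N with hTN | hNT
  · refine fin_DThree (short_DThree hC hN hTN hV (hM N T _ b hN w0 hb)) (by positivity)
      (le_add_of_nonneg_right (by positivity)) ?_ (by positivity)
    exact (le_add_of_nonneg_right k0).trans (le_mul_of_one_le_right (by positivity) (p1.trans p2))
  · refine fin_DThree (lv_DThree (hK N T _ hN (by exact_mod_cast hNT) w0 b hb)) (by positivity)
      (le_of_eq ?_) (mul_le_mul (by linarith [le_abs_self K]) p2 (by positivity) (by positivity))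
      (by positivity)
    rw [w2_DThree n0.le, w4_DThree n0.le, Bd3, show (50 / 21 : ℝ) = 8 / 21 + 2 by norm_num,
      Real.rpow_add n0, Real.rpow_two]
    field_simp
    ring

lemma long_DThree {C Δ : ℝ} {N T : ℕ} {V : ℝ} {b : ℕ → ℂ} (hC : 0 < C)
    (hM : ∀ (N T : ℕ) (V : ℝ) (b : ℕ → ℂ), 1 ≤ N → 0 < V → (∀ n, ‖b n‖ ≤ 1) →
      (cnt N b T V : ℝ) * V ^ 2 ≤ C * (((N : ℝ) + T) * N)) (hS : Z.SplStmt) (hN : 1 ≤ N)
    (hT : N ^ 2 ≤ T) (hV : 0 < V) (hb : ∀ n, ‖b n‖ ≤ 1) (hΔ : DivB ((2 * N) ^ 2) Δ) :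
    (cnt N b T (√N * V) : ℝ) ≤ 48 * C * Δ ^ 4 * (T / V ^ 4) := by
  have n0 : (0 : ℝ) < N := by exact_mod_cast hN
  have t1 : (N : ℝ) ^ 2 ≤ T := by exact_mod_cast hT
  have d0 : 0 < Δ := one_pos.trans_le hΔ.1
  obtain ⟨c, hc, h1⟩ := hS N 2 T Δ (√N * V) b hN (by norm_num) hΔ (by positivity) hb
  have key : ∀ (i : ℕ) (M : ℕ), 1 ≤ M → M ≤ 2 * N ^ 2 →
      (cnt M (c i) T ((√N * V) ^ 2 / ((2 : ℕ) * Δ ^ 2)) : ℝ) ≤ 24 * C * Δ ^ 4 * (T / V ^ 4) := by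
    intro i M m1 m2
    have h2 := hM M T ((√N * V) ^ 2 / ((2 : ℕ) * Δ ^ 2)) (c i) m1 (by positivity) (hc i)
    have m3 : (M : ℝ) ≤ 2 * (N : ℝ) ^ 2 := by exact_mod_cast m2
    have h3 : C * (((M : ℝ) + T) * M) ≤ C * ((3 * T) * (2 * (N : ℝ) ^ 2)) := by
      gcongr
      linarith
    refine ((le_div_iff₀ (by positivity)).2 (h2.trans h3)).trans_eq ?_
    rw [w2_DThree n0.le]
    push_cast
    field_simp
    ring
  have p0 : 1 ≤ N ^ 2 := Nat.one_le_pow _ _ hN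
  have a0 := key 0 (2 ^ 0 * N ^ 2) (by omega) (by omega)
  have a1 := key 1 (2 ^ 1 * N ^ 2) (by omega) (by omega)
  rw [sum_range_succ, sum_range_one] at h1
  have h2 : (cnt N b T (√N * V) : ℝ) ≤
      (cnt (2 ^ 0 * N ^ 2) (c 0) T ((√N * V) ^ 2 / ((2 : ℕ) * Δ ^ 2)) : ℝ) +
        (cnt (2 ^ 1 * N ^ 2) (c 1) T ((√N * V) ^ 2 / ((2 : ℕ) * Δ ^ 2)) : ℝ) := by
    rw [← Nat.cast_add]
    exact Nat.cast_le.2 h1
  linarith

theorem d4_stmt (hM : Z.MvStmt) (hS : Z.SplStmt) (h : RfIn) : DLV Bd4 := by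
  obtain ⟨C, hC, hM⟩ := hM
  intro ε hε
  obtain ⟨K, hK⟩ := h ε hε
  obtain ⟨Cd, cd, hd⟩ := DH.exists_DivB (ε := ε / 4) (by positivity)
  have q0 : 0 < 48 * C * (Cd ^ 4 * (4 : ℝ) ^ ε) := by positivity
  refine ⟨2 * C + |K| + 48 * C * (Cd ^ 4 * (4 : ℝ) ^ ε), by positivity,
    fun N T V b hN hT hV hb => ?_⟩
  have n0 : (0 : ℝ) < N := by exact_mod_cast hN
  have t0 : (0 : ℝ) < T := by exact_mod_cast hT
  have w0 : 0 < √(N : ℝ) * V := by positivity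
  obtain ⟨p1, p2⟩ := pw_DThree hN hT hε
  have k0 := abs_nonneg K
  rcases le_total T N with hTN | hNT
  · refine fin_DThree (short_DThree hC hN hTN hV (hM N T _ b hN w0 hb)) (by positivity)
      (le_add_of_nonneg_right (by positivity)) ?_ (by positivity)
    exact le_trans (by linarith) (le_mul_of_one_le_right (by positivity) (p1.trans p2))
  rcases le_total T (N ^ 2) with h2 | h2
  · refine fin_DThree (lv_DThree (hK N T _ hN (by exact_mod_cast hNT) (by exact_mod_cast h2) w0 b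
      hb)) (by positivity) ?_
      (mul_le_mul (by linarith [le_abs_self K]) p2 (by positivity) (by positivity)) (by positivity)
    have e : (N : ℝ) ^ 2 / (√N * V) ^ 2 +
        (N : ℝ) ^ (26 / 7 : ℝ) * (T : ℝ) ^ (1 / 7 : ℝ) / (√N * V) ^ 4 + T / V ^ 4 = Bd4 N T V := by
      rw [w2_DThree n0.le, w4_DThree n0.le, Bd4, show (26 / 7 : ℝ) = 12 / 7 + 2 by norm_num,
        Real.rpow_add n0, Real.rpow_two]
      field_simp
      ring
    rw [← e]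
    exact le_add_of_nonneg_right (by positivity)
  · have h3 : (2 * N) ^ 2 ≤ 4 * (N * T) := by
      rw [mul_pow]
      exact Nat.mul_le_mul_left 4 (h2.trans (Nat.le_mul_of_pos_left T hN))
    have h4 := DH.DivB_mono (hd (4 * (N * T)) (Nat.mul_pos (by norm_num) (Nat.mul_pos hN hT))) h3
    refine fin_DThree (long_DThree hC hM hS hN h2 hV hb h4) (by positivity) ?_ ?_ (by positivity)
    · rw [Bd4, add_div, ← add_assoc]
      exact le_add_of_nonneg_left (by positivity)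
    · have e : (Cd * ((4 * (N * T) : ℕ) : ℝ) ^ (ε / 4)) ^ 4 =
          Cd ^ 4 * (4 : ℝ) ^ ε * ((N : ℝ) * T) ^ ε := by
        rw [mul_pow, ← Real.rpow_mul_natCast (Nat.cast_nonneg _), mul_assoc,
          ← Real.mul_rpow (by norm_num) (by positivity)]
        push_cast
        rw [div_mul_cancel₀ ε (by norm_num)]
      rw [e, ← mul_assoc]
      exact mul_le_mul_of_nonneg_right (by linarith) (by positivity)

theorem d5_stmt (h : SqIn) : DLV Bd5 := by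
  intro ε hε
  obtain ⟨K, k0, hK⟩ := h ε hε
  refine ⟨K, k0, fun N T V b hN hT hV hb => ?_⟩
  have n0 : (0 : ℝ) < N := by exact_mod_cast hN
  obtain ⟨p1, p2⟩ := pw_DThree hN hT hε
  refine fin_DThree (hK N T _ b hN (by positivity) hb) (by positivity) (le_of_eq ?_)
    (mul_le_mul_of_nonneg_left p2 k0.le) (by positivity)
  rw [w4_DThree n0.le, w6_DThree n0.le, Bd5]
  field_simp

end Pool.Agent.MP_c853c5_nt.E
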