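import Pool.Agent.MP_c853c5_nt.E.Basic

set_option autoImplicit false

open Finset Filter

namespace Pool.Agent.MP_c853c5_nt.E

open Pool.Agent.MP_2a1f0e_nt Pool.Agent.MP_2a1f0e_nt.GM Pool.Agent.MP_2a1f0e_nt.DH

lemma term_Exp {x A a v E : ℝ} (hx : 1 < x) (k : ℕ) (hA : A ≤ x ^ a) (h : a - v * k ≤ E) :
    A / (x ^ v) ^ k ≤ x ^ E := by
  have h0 : 0 < x := by linarith
  rw [← Real.rpow_natCast, ← Real.rpow_mul h0.le]
  refine (div_le_div_of_nonneg_right hA (by positivity)).trans ?_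
  rw [← Real.rpow_sub h0]
  exact Real.rpow_le_rpow_of_exponent_le hx.le h

lemma pow_Exp {x A a p : ℝ} (hx : 1 < x) (h0 : 0 ≤ A) (hA : A ≤ x ^ a) (hp : 0 ≤ p) :
    A ^ p ≤ x ^ (a * p) := by
  rw [Real.rpow_mul (by linarith)]
  exact Real.rpow_le_rpow h0 hA hp

lemma mul_Exp {x A B a b : ℝ} (hx : 1 < x) (hA : A ≤ x ^ a) (h0 : 0 ≤ B) (hB : B ≤ x ^ b) :
    A * B ≤ x ^ (a + b) := by
  have h1 : 0 < x := by linarith
  rw [Real.rpow_add h1]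
  exact mul_le_mul hA hB h0 (by positivity)

lemma gen_Exp {B : ℝ → ℝ → ℝ → ℝ} (h : SLV B) {D ε : ℝ} (hD : 0 < D) (hε : 0 < ε) :
    ∀ᶠ x : ℝ in atTop, ∀ (V r E : ℝ) (L T : ℕ) (c : ℕ → ℂ) (W : Finset ℤ), 1 ≤ L → 1 ≤ T →
      0 < V → (L : ℝ) * T ≤ x ^ D → (∀ m, ‖c m‖ ≤ 1) → W ⊆ Icc 0 (T : ℤ) →
      x ^ (r + ε) ≤ W.card → W.card * V ≤ ∑ t ∈ W, ‖NP L c t‖ →
      B L T V ≤ 3 * x ^ (E + ε / 3) → r ≤ E := by
  obtain ⟨K, hK, h⟩ := h (ε / 3 / D) (by positivity)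
  filter_upwards [ev_const_le (3 * K) (show 0 < ε / 3 by positivity), eventually_gt_atTop 1]
    with x h1 hx V r E L T c W hL hT hV hLT hc hW hr hs hB
  have h0 : 0 < x := by linarith
  have h2 := pow_Exp hx (by positivity) hLT (show 0 ≤ ε / 3 / D by positivity)
  rw [mul_div_cancel₀ _ hD.ne'] at h2
  have h3 : x ^ (r + ε) ≤ x ^ (E + ε) :=
    calc x ^ (r + ε) ≤ K * ((L : ℝ) * T) ^ (ε / 3 / D) * B L T V :=
          hr.trans (h L T V c W hL hT hV hc hW hs)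
      _ ≤ K * ((L : ℝ) * T) ^ (ε / 3 / D) * (3 * x ^ (E + ε / 3)) := by gcongr
      _ ≤ K * x ^ (ε / 3) * (3 * x ^ (E + ε / 3)) := by gcongr
      _ = 3 * K * (x ^ (ε / 3) * x ^ (E + ε / 3)) := by ring
      _ ≤ x ^ (ε / 3) * (x ^ (ε / 3) * x ^ (E + ε / 3)) := by gcongr
      _ = x ^ (E + ε) := by
          rw [← Real.rpow_add h0, ← Real.rpow_add h0]
          congr 1
          ring
  have := (Real.rpow_le_rpow_left_iff hx).1 h3
  linarith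

theorem exp_stmt (h1 : SLV Bd1) (h2 : SLV Bd2) (h3 : SLV Bd3) (h4 : SLV Bd4) (h5 : SLV Bd5) :
    ExpStmt := by
  intro D ε hε
  obtain ⟨γ, g0, g1, g2⟩ : ∃ γ : ℝ, 0 < γ ∧ γ ≤ 1 ∧ γ ≤ ε / 30 :=
    ⟨min 1 (ε / 30), by positivity, min_le_left _ _, min_le_right _ _⟩
  have hD : 0 < |D| + 3 := by positivity
  refine ⟨γ, g0, ?_⟩
  filter_upwards [gen_Exp h1 hD hε, gen_Exp h2 hD hε, gen_Exp h3 hD hε, gen_Exp h4 hD hε,
    gen_Exp h5 hD hε, eventually_gt_atTop 1]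
    with x k1 k2 k3 k4 k5 hx τ n w r L T c W _ t1 _ n1 hL l1 hT s1 hc hW hr hs
  have h0 : 0 < x := by linarith
  have l0 : (0 : ℝ) ≤ L := Nat.cast_nonneg _
  have s0 : (0 : ℝ) ≤ T := Nat.cast_nonneg _
  have hV : 0 < x ^ (w - γ) := by positivity
  have hLT : (L : ℝ) * T ≤ x ^ (|D| + 3) := (mul_Exp hx l1 s0 s1).trans
    (Real.rpow_le_rpow_of_exponent_le hx.le (by linarith [le_abs_self D]))
  have two : ∀ {a b E : ℝ}, a ≤ x ^ E → b ≤ x ^ E → a + b ≤ 3 * x ^ E := fun {a b E} ha hb => by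
    have : 0 < x ^ E := by positivity
    linarith
  have three : ∀ {a b d E : ℝ}, a ≤ x ^ E → b ≤ x ^ E → d ≤ x ^ E → a + (b + d) ≤ 3 * x ^ E :=
    fun ha hb hd => by linarith
  refine ⟨k1 _ r _ L T c W hL hT hV hLT hc hW hr hs ?_,
    k2 _ r _ L T c W hL hT hV hLT hc hW hr hs ?_, k3 _ r _ L T c W hL hT hV hLT hc hW hr hs ?_,
    k4 _ r _ L T c W hL hT hV hLT hc hW hr hs ?_, k5 _ r _ L T c W hL hT hV hLT hc hW hr hs ?_⟩
  · rw [Bd1, add_div]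
    refine two (term_Exp hx 2 s1 ?_) (term_Exp hx 2 l1 ?_) <;> push_cast <;>
      linarith [le_max_left τ n, le_max_right τ n]
  · rw [Bd2]
    refine two (term_Exp hx 2 l1 ?_) (term_Exp hx 6 (mul_Exp hx s1 l0 l1) ?_) <;> push_cast <;>
      linarith [le_max_left (n - 2 * w) (τ + n - 6 * w), le_max_right (n - 2 * w) (τ + n - 6 * w)]
  · rw [Bd3, add_div, Real.sqrt_eq_rpow]
    obtain ⟨a1, a2⟩ := max_le_iff.1 (le_refl (max (n - 2 * w)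
      (max (τ / 2 + n - 4 * w) (τ + 8 / 21 * n - 4 * w))))
    obtain ⟨a2, a3⟩ := max_le_iff.1 a2
    refine three (term_Exp hx 2 l1 ?_)
      (term_Exp hx 4 (mul_Exp hx (pow_Exp hx s0 s1 (by norm_num)) l0 l1) ?_)
      (term_Exp hx 4 (mul_Exp hx s1 (by positivity) (pow_Exp hx l0 l1 (by norm_num))) ?_) <;>
      push_cast <;> linarith
  · rw [Bd4, add_div]
    obtain ⟨a1, a2⟩ := max_le_iff.1 (le_refl (max (n - 2 * w)
      (12 / 7 * max n (τ / 2) + τ / 7 - 4 * w)))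
    refine three (term_Exp hx 2 l1 ?_)
      (term_Exp hx 4 (mul_Exp hx (pow_Exp hx l0 l1 (by norm_num)) (by positivity)
        (pow_Exp hx s0 s1 (by norm_num))) ?_) (term_Exp hx 4 s1 ?_) <;>
      push_cast <;> linarith [le_max_left n (τ / 2), le_max_right n (τ / 2)]
  · rw [Bd5, add_div, sq]
    obtain ⟨a1, a2⟩ := max_le_iff.1 (le_refl (max (2 * n - 4 * w)
      (max (3 / 4 * τ + n - 6 * w) (τ - 6 * w))))
    obtain ⟨a2, a3⟩ := max_le_iff.1 a2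
    refine three (term_Exp hx 4 (mul_Exp hx l1 l0 l1) ?_)
      (term_Exp hx 6 (mul_Exp hx (pow_Exp hx s0 s1 (by norm_num)) l0 l1) ?_)
      (term_Exp hx 6 s1 ?_) <;> push_cast <;> linarith

end Pool.Agent.MP_c853c5_nt.E
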