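import Pool.Agent.MP_c853c5_nt.S.Basic

/-!
From the sum over a box to the smoothed sum of a convolution.
-/

set_option autoImplicit false

open Finset Filter

namespace Pool.Agent.MP_c853c5_nt.E

open Pool.Agent.MP_c853c5_nt.S

lemma sgl_mul_Glue (a b : ℕ) : sgl a * sgl b = sgl (a * b) := by
  ext n
  rw [ArithmeticFunction.mul_apply]
  by_cases h : n = a * b ∧ n ≠ 0
  · rw [sum_eq_single_of_mem (a, b) (Nat.mem_divisorsAntidiagonal.2 ⟨h.1.symm, h.2⟩)]
    · have h1 : a * b ≠ 0 := h.1 ▸ h.2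
      simp [sgl, h.1, left_ne_zero_of_mul h1, right_ne_zero_of_mul h1]
    · intro p _ hp
      by_cases h1 : p.1 = a
      · have h2 : p.2 ≠ b := fun h2 => hp (Prod.ext h1 h2)
        simp [sgl, h2]
      · simp [sgl, h1]
  · have e : sgl (a * b) n = 0 := if_neg h
    rw [e]
    refine sum_eq_zero fun p hp => ?_
    obtain ⟨h1, h2⟩ := Nat.mem_divisorsAntidiagonal.1 hp
    by_cases h3 : p.1 = a
    · have h4 : p.2 ≠ b := fun h4 => h ⟨by rw [← h1, h3, h4], h2⟩
      simp [sgl, h4]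
    · simp [sgl, h3]

lemma sgl_one_Glue : sgl 1 = 1 := by
  ext n
  rw [ArithmeticFunction.one_apply]
  by_cases h : n = 1 <;> simp [sgl, h]

lemma prod_sgl_Glue {ι : Type} (s : Finset ι) (c : ι → ℝ) (m : ι → ℕ) :
    ∏ i ∈ s, c i • sgl (m i) = (∏ i ∈ s, c i) • sgl (∏ i ∈ s, m i) := by
  classical
  induction s using Finset.induction_on with
  | empty => simp [sgl_one_Glue]
  | insert a s ha ih =>
    rw [prod_insert ha, prod_insert ha, prod_insert ha, ih, smul_mul_smul_comm, sgl_mul_Glue]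

lemma eq_sum_Glue {g : AF} {s : Finset ℕ} (h : ∀ n, g n ≠ 0 → n ∈ s) :
    g = ∑ m ∈ s, g m • sgl m := by
  ext n
  rw [AF_sum]
  simp only [AF_smul]
  by_cases h0 : g n = 0
  · rw [h0]
    refine (sum_eq_zero fun m _ => ?_).symm
    by_cases h1 : n = m
    · rw [← h1, h0, zero_mul]
    · simp [sgl, h1]
  · rw [sum_eq_single_of_mem n (h n h0) fun m _ hm => by simp [sgl, hm.symm]]
    have h1 : n ≠ 0 := fun h1 => h0 (by rw [h1, ArithmeticFunction.map_zero])
    simp [sgl, h1]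

lemma SS_sgl_Glue (x Δ : ℝ) (m : ℕ) : SS x Δ (sgl m) =
    if m ∈ Ioc ⌊x / 2⌋₊ ⌊2 * x⌋₊ then Z.gg Δ (Real.log x - Real.log m) else 0 := by
  rw [SS, ← sum_ite_eq' (Ioc ⌊x / 2⌋₊ ⌊2 * x⌋₊) m fun n => Z.gg Δ (Real.log x - Real.log n)]
  refine sum_congr rfl fun n hn => ?_
  have h : n ≠ 0 := by have := (mem_Ioc.1 hn).1; omega
  by_cases h1 : n = m <;> simp [sgl, h1, h]
  intro h2
  exact absurd (h1.trans h2) h

lemma gg_tail_Glue {x Δ z : ℝ} (hx : 1 ≤ x) (h1 : x⁻¹ ≤ Δ) (h2 : Δ ≤ x ^ (-(1 / 1000) : ℝ))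
    (hz : 2 / 3 ≤ |z|) : Z.gg Δ z ≤ x * Real.exp (-x ^ (1 / 500 : ℝ)) := by
  have hx0 : 0 < x := by linarith
  have h0 : 0 < Δ := (inv_pos.2 hx0).trans_le h1
  rw [Z.gg]
  refine mul_le_mul (inv_le_of_inv_le₀ hx0 h1) (Real.exp_le_exp.2 (neg_le_neg ?_))
    (Real.exp_pos _).le hx0.le
  rw [le_div_iff₀ (by positivity)]
  have h3 : x ^ (1 / 500 : ℝ) * (x ^ (-(1 / 1000) : ℝ)) ^ 2 = 1 := by
    rw [← Real.rpow_mul_natCast hx0.le, ← Real.rpow_add hx0]
    norm_num
  have h4 : x ^ (1 / 500 : ℝ) * Δ ^ 2 ≤ 1 := by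
    refine le_trans ?_ h3.le
    gcongr
  have h5 : (2 / 3) ^ 2 ≤ z ^ 2 := by
    rw [← sq_abs z]
    gcongr
  nlinarith [Real.pi_gt_three]

lemma ev_tail_Glue (C : ℝ) :
    ∀ᶠ x : ℝ in atTop, C * x * (x * Real.exp (-x ^ (1 / 500 : ℝ))) ≤ 1 := by
  filter_upwards [ev_log_le 3 1 (show (0 : ℝ) < 1 / 500 by norm_num), eventually_ge_atTop C,
    eventually_gt_atTop 0] with x h1 h2 h3
  have h4 : x * x * x ≤ Real.exp (x ^ (1 / 500 : ℝ)) := by
    refine le_trans (le_of_eq ?_) (Real.exp_le_exp.2 h1)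
    rw [pow_one, show 3 * Real.log x = Real.log x + Real.log x + Real.log x by ring, Real.exp_add,
      Real.exp_add, Real.exp_log h3]
  rw [Real.exp_neg, ← mul_assoc, mul_inv_le_iff₀ (Real.exp_pos _), one_mul]
  refine le_trans ?_ h4
  gcongr

/-- the smoothed sum of a convolution is the sum over the box, up to the tails -/
theorem dl_box (C : ℝ) : ∀ᶠ x : ℝ in atTop, ∀ (ι : Type) [Fintype ι] [DecidableEq ι] (t : ℝ)
    (d : ℕ) (g : ι → AF) (s : ι → Finset ℕ), 1 / 1000 ≤ t → t ≤ 1 → 1 ≤ d →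
    (∀ i n, |g i n| ≤ 1) → (∀ i n, g i n ≠ 0 → n ∈ s i) → ∏ i, ((s i).card : ℝ) ≤ C * x →
    |Dl t x (sgl d * ∏ i, g i)| ≤ |PhiS (Real.log x - Real.log d) (x ^ (-t))
      (x ^ (-(1 / 1000) : ℝ)) s fun i => g i| + 1 := by
  filter_upwards [ev_tail_Glue C, eventually_ge_atTop 1] with x h1 hx ι _ _ t d g s ht ht' hd hg
    hs hc
  have hx0 : 0 < x := by linarith
  have e : sgl d * ∏ i, g i =
      ∑ m ∈ Fintype.piFinset s, (∏ i, g i (m i)) • sgl (d * ∏ i, m i) := by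
    rw [prod_congr rfl fun i _ => eq_sum_Glue (hs i), prod_univ_sum, mul_sum]
    exact sum_congr rfl fun m _ => by rw [prod_sgl_Glue, mul_smul_comm, sgl_mul_Glue]
  have a1 : x⁻¹ ≤ x ^ (-t) := by
    rw [← Real.rpow_neg_one]
    exact Real.rpow_le_rpow_of_exponent_le hx (by linarith)
  have a2 : x ^ (-t) ≤ x ^ (-(1 / 1000) : ℝ) := Real.rpow_le_rpow_of_exponent_le hx (by linarith)
  rw [e, Dl_sum, PhiS]
  refine (abs_sub_abs_le_abs_sub _ _ |> sub_le_iff_le_add'.1).trans (add_le_add le_rfl ?_)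
  rw [← sum_sub_distrib]
  refine (abs_sum_le_sum_abs _ _).trans ((sum_le_card_nsmul _ _
    (x * Real.exp (-x ^ (1 / 500 : ℝ))) fun m _ => ?_).trans ?_)
  · rw [Dl_smul, ← mul_sub, abs_mul]
    by_cases h0 : ∏ i, g i (m i) = 0
    · rw [h0, abs_zero, zero_mul]
      positivity
    have h2 : (∏ i, m i) ≠ 0 := prod_ne_zero_iff.2 fun i hi h3 =>
      prod_ne_zero_iff.1 h0 i hi (by rw [h3, ArithmeticFunction.map_zero])
    have h3 : |∏ i, g i (m i)| ≤ 1 := by
      rw [abs_prod]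
      exact prod_le_one (fun i _ => abs_nonneg _) fun i _ => hg i _
    refine (mul_le_of_le_one_left (abs_nonneg _) h3).trans ?_
    have hn : 0 < d * ∏ i, m i := Nat.mul_pos hd (Nat.pos_of_ne_zero h2)
    have e1 : Real.log x - Real.log d - Real.log ((∏ i, m i : ℕ) : ℝ) =
        Real.log x - Real.log ((d * ∏ i, m i : ℕ) : ℝ) := by
      rw [Nat.cast_mul, Real.log_mul (by positivity) (Nat.cast_ne_zero.2 h2), sub_sub]
    rw [Dl, SB, SS_sgl_Glue, SS_sgl_Glue, dg, e1]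
    generalize d * ∏ i, m i = n at hn ⊢
    split_ifs with h4
    · rw [sub_self, abs_zero]
      positivity
    have hn' : (0 : ℝ) < n := by exact_mod_cast hn
    have hz : 2 / 3 ≤ |Real.log x - Real.log n| := by
      have h5 : ¬ Win x n := fun h => h4 (mem_of_win hx0.le h)
      have h6 := Real.log_two_gt_d9
      rw [Win, not_and_or, not_lt, not_le] at h5
      rcases h5 with h5 | h5
      · have h7 := Real.log_le_log hn' h5
        rw [Real.log_div hx0.ne' two_ne_zero] at h7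
        exact le_abs.2 (Or.inl (by linarith))
      · have h7 := Real.log_le_log (by positivity) h5.le
        rw [Real.log_mul two_ne_zero hx0.ne'] at h7
        exact le_abs.2 (Or.inr (by linarith))
    have b1 := gg_tail_Glue hx a1 a2 hz
    have b2 := gg_tail_Glue hx (a1.trans a2) le_rfl hz
    have b3 := gg_nonneg (Real.rpow_nonneg hx0.le (-t)) (Real.log x - Real.log n)
    have b4 := gg_nonneg (Real.rpow_nonneg hx0.le (-(1 / 1000))) (Real.log x - Real.log n)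
    rw [abs_le]
    constructor <;> linarith
  · rw [nsmul_eq_mul, Fintype.card_piFinset, Nat.cast_prod]
    exact (mul_le_mul_of_nonneg_right hc (by positivity)).trans h1

end Pool.Agent.MP_c853c5_nt.E
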