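import Pool.Agent.MP_c853c5_nt.E.Glue

set_option autoImplicit false

open Finset Filter

namespace Pool.Agent.MP_c853c5_nt.E

open Pool.Agent.MP_c853c5_nt.S

lemma wd_GlueI : ∀ᶠ x : ℝ in atTop, ∀ t : ℝ, 1 / 3 ≤ t →
    Wd x t (1 / 2000) (x ^ (-t)) (x ^ (-(1 / 1000) : ℝ)) := by
  filter_upwards [eventually_ge_atTop 1, ev_le_log 1] with x hx h1 t ht
  refine ⟨div_le_self (by positivity) (one_le_pow₀ h1),
    Real.rpow_le_rpow_of_exponent_le hx (by linarith), le_of_eq ?_⟩
  norm_num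

theorem e1d_of (hB : BoxIStmt) : S.E1D := by
  intro ι _ τ t η K ht htτ hτ hη hη'
  classical
  obtain ⟨γ, hγ, h⟩ := hB ι K η (1 / 2000) hη (by linarith) (by norm_num) (by norm_num)
  refine ⟨γ, hγ, ?_⟩
  filter_upwards [h, dl_box (2 * 2 ^ Fintype.card ι), wd_GlueI, eventually_gt_atTop 1,
    ev_const_le 5 (show (0 : ℝ) < 1 / 60 by norm_num),
    ev_const_le 3 (show 0 < η / 20 by positivity)]
    with x h1 h2 h3 hx h5 h6 a b N g d y ha _ hE hs hN hy1 hy2 _ hd hp
  have hx0 : 0 < x := by linarith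
  have hy5 : 5 ≤ y := h5.trans ((Real.rpow_le_rpow_of_exponent_le hx.le
    (by linarith [hE.1])).trans hy1)
  have hy0 : 0 < y := by linarith
  have hd' : (1 : ℝ) ≤ d := by exact_mod_cast hd
  have hP : 0 ≤ ∏ i, (N i : ℝ) := prod_nonneg fun i _ => Nat.cast_nonneg _
  have hp' : y * ∏ i, (N i : ℝ) ≤ 2 * x := by nlinarith [mul_nonneg hy0.le hP]
  have e0 : x ^ Real.logb x y = y := Real.rpow_logb hx0 hx.ne' hy0
  have l1 : b - (τ - t) / 2 ≤ Real.logb x y := (Real.le_logb_iff_rpow_le hx hy0).2 hy1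
  have l2 : min (Real.logb x y) b ≤ b := min_le_right _ _
  have l3 : b - (τ - t) / 2 ≤ min (Real.logb x y) b := le_min l1 (by linarith)
  have key := h1 t (Real.log x - Real.log d) _ _ y (min (Real.logb x y) b) a N (fun i => g i) ht
    (by linarith) (h3 t ht) ha
    ((hE.2.tau htτ.le).anti fun o => by
      cases o with
      | none => exact max_le_max le_rfl (min_le_min l2 (by linarith))
      | some i => exact le_rfl)
    (fun j => ⟨(hs j).1, hN j⟩) hy5
    (by
      refine le_trans ?_ e0.le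
      exact Real.rpow_le_rpow_of_exponent_le hx.le (by linarith [min_le_left (Real.logb x y) b]))
    (by
      rcases le_total (Real.logb x y) b with h7 | h7
      · rw [min_eq_left h7]
        exact e0.ge.trans (Real.rpow_le_rpow_of_exponent_le hx.le (by linarith))
      · rwa [min_eq_right h7])
    (by linarith) fun j => (hs j).2.1
  have win := h2 (Option ι) t d (fun o => o.elim (omz y) g)
    (fun o => o.elim (Ioc ⌊y⌋₊ (2 * ⌊y⌋₊)) fun j => Icc (N j) (2 * N j)) (by linarith)
    (by linarith) hd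
    (fun o n => by
      cases o with
      | none => exact abs_oc_le y n
      | some i => exact (hs i).2.1 n)
    (fun o n hn => by
      cases o with
      | none => exact mem_of_oc_ne_zero hy5 hn
      | some i => exact mem_Icc.2 ⟨((hs i).2.2 n hn).1, ((hs i).2.2 n hn).2.le⟩)
    (by
      rw [Fintype.prod_option]
      simp only [Option.elim]
      have c1 : ((Ioc ⌊y⌋₊ (2 * ⌊y⌋₊)).card : ℝ) ≤ y := by
        rw [Nat.card_Ioc, show 2 * ⌊y⌋₊ - ⌊y⌋₊ = ⌊y⌋₊ by omega]
        exact Nat.floor_le hy0.le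
      have c2 : ∏ i, ((Icc (N i) (2 * N i)).card : ℝ) ≤ ∏ i, 2 * (N i : ℝ) :=
        prod_le_prod (fun i _ => Nat.cast_nonneg _) fun i _ => card_blk_le (hs i).1
      rw [prod_mul_distrib, prod_const, card_univ] at c2
      calc _ ≤ y * (2 ^ Fintype.card ι * ∏ i, (N i : ℝ)) :=
            mul_le_mul c1 c2 (prod_nonneg fun i _ => Nat.cast_nonneg _) hy0.le
        _ = 2 ^ Fintype.card ι * (y * ∏ i, (N i : ℝ)) := by ring
        _ ≤ 2 ^ Fintype.card ι * (2 * x) := by gcongr
        _ = _ := by ring)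
  have e1 : (fun o : Option ι => ((o.elim (omz y) g : AF) : ℕ → ℝ)) =
      fun o : Option ι => o.elim (oc y) fun i => (g i : ℕ → ℝ) := by
    funext o
    cases o <;> rfl
  rw [e1, Fintype.prod_option] at win
  simp only [Option.elim] at win
  rw [mul_assoc, mul_comm _ (omz y)]
  refine win.trans ((add_le_add key le_rfl).trans ?_)
  have f1 : x ^ (1 - η / 2) ≤ x ^ (1 - η / 4) :=
    Real.rpow_le_rpow_of_exponent_le hx.le (by linarith)
  have f2 : x ^ (1 - (1 / 2000 : ℝ) / 2) ≤ x ^ (1 - η / 4) :=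
    Real.rpow_le_rpow_of_exponent_le hx.le (by linarith)
  have f3 : 1 ≤ x ^ (1 - η / 4) := Real.one_le_rpow hx.le (by linarith)
  have f4 : x ^ (1 - η / 5) = x ^ (η / 20) * x ^ (1 - η / 4) := by
    rw [← Real.rpow_add hx0]
    congr 1
    ring
  rw [f4]
  nlinarith

end Pool.Agent.MP_c853c5_nt.E
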