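import Pool.Agent.MP_c853c5_nt.E.BoxG
import Pool.Agent.MP_c853c5_nt.E.GlueI

/-!
Type I for a dyadic box with any number of smooth factors.
-/

set_option autoImplicit false

open Finset Filter

namespace Pool.Agent.MP_c853c5_nt.E

open Pool.Agent.MP_c853c5_nt.S

/-- type I with smooth factors indexed by `σ` and the extra constraint `X` -/
def E1DG (σ ι : Type) [Fintype σ] [Fintype ι]
    (X : ℝ → (σ ⊕ ι → ℝ) → ℝ → (σ ⊕ ι → ℝ) → Prop) (K : ℕ) : Prop :=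
  ∀ τ t η : ℝ, 1 / 3 ≤ t → t < τ → τ ≤ 1 / 2 → 0 < η → η ≤ 1 / 1000 →
    ∃ γ : ℝ, 0 < γ ∧ ∀ᶠ x : ℝ in atTop,
    ∀ (a : ι → ℝ) (b : σ → ℝ) (N : ι → ℕ) (g : ι → AF) (d : ℕ) (y : σ → ℝ),
      (∀ i, 0 ≤ a i ∧ a i ≤ 1) → (∀ s, 1 / 10 ≤ b s) →
      EvalX (X τ (Sum.elim (fun s => av τ (b s)) a)) K τ 0 (1 / 2 - η)
        (Sum.elim (fun s => av τ (b s)) a) →
      (∀ i, Slot (N i) (g i)) → (∀ i, (N i : ℝ) ≤ x ^ (a i + γ)) →
      (∀ s, x ^ (b s - (τ - t) / 2) ≤ y s ∧ y s ≤ x ^ (b s + γ)) → 1 ≤ d →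
      (d : ℝ) * (∏ i, (N i : ℝ)) * ∏ s, y s ≤ 2 * x →
      |Dl t x (sgl d * (∏ i, g i) * ∏ s, omz (y s))| ≤ x ^ (1 - η / 5)

lemma Hk.anti {σ ι : Type} [Fintype σ] [Fintype ι]
    {X : ℝ → (σ ⊕ ι → ℝ) → ℝ → (σ ⊕ ι → ℝ) → Prop} (hX : Hk σ ι X) {K : ℕ} {τ τ' s : ℝ}
    {b b' : σ ⊕ ι → ℝ} (h : EvalX (X τ' b') K τ' 0 s b') (hτ : τ ≤ τ') (hb : ∀ j, b j ≤ b' j) :
    EvalX (X τ b) K τ 0 s b := fun r v h0 h1 h2 h3 h4 =>
  h r v h0 (h1.trans hτ) (fun j => by linarith [h2 j, hb j])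
    (fun κ hκ => (S.con_tau (h3 κ hκ) hτ (h0.trans h1)).mono
      (sum_le_sum fun j _ => mul_le_mul_of_nonneg_left (hb j) (Nat.cast_nonneg _)))
    (hX.mono _ _ _ _ _ _ hτ hb h4)

theorem e1dG (hC : CoreStmt) (hS : SelfStmt) (hA : AvStmt) (hI : GrdStmt) (hT : TbStmt)
    (σ ι : Type) [Fintype σ] [Fintype ι] {X : ℝ → (σ ⊕ ι → ℝ) → ℝ → (σ ⊕ ι → ℝ) → Prop}
    (hX : Hk σ ι X) (K : ℕ) : E1DG σ ι X K := by
  intro τ t η ht htτ hτ hη hη'
  classical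
  obtain ⟨γ, hγ, h⟩ := boxG hC hS hA hI hT σ ι hX K hη (show η ≤ 1 / 10 by linarith)
    (show (0 : ℝ) < 1 / 2000 by norm_num) (by norm_num)
  refine ⟨γ, hγ, ?_⟩
  filter_upwards [h, dl_box (2 ^ Fintype.card ι * 2), wd_GlueI, eventually_gt_atTop 1,
    ev_const_le 5 (show (0 : ℝ) < 1 / 60 by norm_num),
    ev_const_le 3 (show 0 < η / 20 by positivity)]
    with x h1 h2 h3 hx h5 h6 a b N g d y ha hb hE hs hN hy hd hp
  have hx0 : 0 < x := by linarith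
  have hy5 : ∀ s, 5 ≤ y s := fun s => h5.trans ((Real.rpow_le_rpow_of_exponent_le hx.le
    (by linarith [hb s])).trans (hy s).1)
  have hy0 : ∀ s, 0 < y s := fun s => by linarith [hy5 s]
  have hd' : (1 : ℝ) ≤ d := by exact_mod_cast hd
  have hP : 0 ≤ ∏ i, (N i : ℝ) := prod_nonneg fun i _ => Nat.cast_nonneg _
  have hY : 0 ≤ ∏ s, y s := prod_nonneg fun s _ => (hy0 s).le
  have hp' : (∏ s, y s) * ∏ i, (N i : ℝ) ≤ 2 * x := by nlinarith [mul_nonneg hY hP]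
  have e0 : ∀ s, x ^ Real.logb x (y s) = y s := fun s => Real.rpow_logb hx0 hx.ne' (hy0 s)
  have l3 : ∀ s, b s - (τ - t) / 2 ≤ min (Real.logb x (y s)) (b s) := fun s =>
    le_min ((Real.le_logb_iff_rpow_le hx (hy0 s)).2 (hy s).1) (by linarith)
  have key := h1 t (Real.log x - Real.log d) _ _ y (fun s => min (Real.logb x (y s)) (b s)) a N
    (fun i => g i) ht (by linarith) (h3 t ht) ha
    (hX.anti hE htτ.le (by
      rintro (s | i)
      · exact max_le_max le_rfl (min_le_min (min_le_right _ _) (by linarith [l3 s]))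
      · exact le_rfl))
    (fun j => ⟨(hs j).1, hN j⟩)
    (fun s => ⟨hy5 s, le_trans (Real.rpow_le_rpow_of_exponent_le hx.le
      (by linarith [min_le_left (Real.logb x (y s)) (b s)])) (e0 s).le, by
        rcases le_total (Real.logb x (y s)) (b s) with h7 | h7
        · rw [min_eq_left h7]
          exact (e0 s).ge.trans (Real.rpow_le_rpow_of_exponent_le hx.le (by linarith))
        · rw [min_eq_right h7]
          exact (hy s).2⟩)
    (by linarith) fun j => (hs j).2.1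
  have win := h2 (σ ⊕ ι) t d (Sum.elim (fun s => omz (y s)) g) (sG y N) (by linarith)
    (by linarith) hd
    (by
      rintro (s | i) n
      exacts [abs_oc_le (y s) n, (hs i).2.1 n])
    (by
      rintro (s | i) n hn
      exacts [mem_of_oc_ne_zero (hy5 s) hn,
        mem_Icc.2 ⟨((hs i).2.2 n hn).1, ((hs i).2.2 n hn).2.le⟩])
    ((card_sG (fun s => (hy0 s).le) fun i => (hs i).1).trans (by
      rw [mul_assoc]
      gcongr))
  have e1 : (fun o : σ ⊕ ι => ((Sum.elim (fun s => omz (y s)) g o : AF) : ℕ → ℝ)) =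
      Sum.elim (fun s => oc (y s)) fun i => (g i : ℕ → ℝ) := by
    funext o
    cases o <;> rfl
  rw [e1, Fintype.prod_sum_type] at win
  simp only [Sum.elim_inl, Sum.elim_inr] at win
  rw [mul_assoc, mul_comm (∏ i, g i)]
  refine win.trans ((add_le_add key le_rfl).trans ?_)
  have f1 : x ^ (1 - η / 2) ≤ x ^ (1 - η / 4) :=
    Real.rpow_le_rpow_of_exponent_le hx.le (by linarith)
  have f2 : x ^ (1 - (1 / 2000 : ℝ) / 2) ≤ x ^ (1 - η / 4) :=
    Real.rpow_le_rpow_of_exponent_le hx.le (by linarith)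
  have f3 : 1 ≤ x ^ (1 - η / 4) := Real.one_le_rpow hx.le (by linarith)
  have f4 : x ^ (1 - η / 5) = x ^ (η / 20) * x ^ (1 - η / 4) := by
    rw [← Real.rpow_add hx0]
    congr 1
    ring
  rw [f4]
  nlinarith

end Pool.Agent.MP_c853c5_nt.E
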