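import Pool.Agent.MP_c853c5_nt.E.Basic

/-!
An integral is bounded by the sums over shifted integer grids.
-/

set_option autoImplicit false

open Finset Filter

namespace Pool.Agent.MP_c853c5_nt.E

open Pool.Agent.MP_2a1f0e_nt Pool.Agent.MP_2a1f0e_nt.GM Pool.Agent.MP_2a1f0e_nt.DH

lemma cont_Grd {f : ℝ → ℝ} (hf : Continuous f) (n : ℕ) :
    Continuous fun u : ℝ => ∑ m ∈ range n, f (u + m) :=
  continuous_finsetSum _ fun _ _ => hf.comp (continuous_id.add continuous_const)

lemma fold_Grd {f : ℝ → ℝ} (hf : Continuous f) (a : ℝ) (n : ℕ) :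
    ∫ t in a..a + n, f t = ∫ u in a..a + 1, ∑ m ∈ range n, f (u + m) := by
  induction n with
  | zero => simp
  | succ n ih =>
    have h1 : Continuous fun u : ℝ => f (u + n) := hf.comp (continuous_id.add continuous_const)
    simp only [sum_range_succ]
    rw [intervalIntegral.integral_add ((cont_Grd hf n).intervalIntegrable _ _)
      (h1.intervalIntegrable _ _), ← ih, intervalIntegral.integral_comp_add_right,
      intervalIntegral.integral_add_adjacent_intervals (hf.intervalIntegrable _ _)
        (hf.intervalIntegrable _ _), Nat.cast_succ, add_right_comm, add_assoc]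

lemma le_Grd {g : ℝ → ℝ} (hg : Continuous g) {a b B : ℝ} (hab : a ≤ b)
    (h : ∀ u, a ≤ u → u ≤ b → g u ≤ B) : ∫ u in a..b, g u ≤ (b - a) * B := by
  have := intervalIntegral.integral_mono_on hab (hg.intervalIntegrable (μ := MeasureTheory.volume) _ _)
    (continuous_const.intervalIntegrable _ _) fun u hu => h u hu.1 hu.2
  rwa [intervalIntegral.integral_const, smul_eq_mul] at this

theorem grd_stmt : GrdStmt := by
  intro f T₁ T₂ B T hf _ h12 hT h
  obtain ⟨q, hq1, hq2⟩ : ∃ q : ℕ, (q : ℝ) ≤ T₂ - T₁ ∧ T₂ - T₁ < q + 1 :=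
    ⟨_, Nat.floor_le (by linarith), Nat.lt_floor_add_one _⟩
  have hqT : q ≤ T := by exact_mod_cast hq1.trans hT
  have key : ∀ (n : ℕ) (u : ℝ), n ≤ q + 1 → T₁ ≤ u → u + n ≤ T₂ + 1 →
      ∑ m ∈ range n, f (u + m) ≤ B := by
    intro n u hn h1 h2
    have := h u ((range n).map Nat.castEmbedding) (fun m hm => ?_) fun m hm => ?_
    · simpa only [sum_map, Nat.castEmbedding_apply, Int.cast_natCast] using this
    · obtain ⟨k, hk, rfl⟩ := mem_map.1 hm
      have := mem_range.1 hk
      rw [Nat.castEmbedding_apply, mem_Icc]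
      omega
    · obtain ⟨k, hk, rfl⟩ := mem_map.1 hm
      have h3 : (k : ℝ) + 1 ≤ n := by exact_mod_cast mem_range.1 hk
      have h4 : (0 : ℝ) ≤ k := Nat.cast_nonneg k
      rw [Nat.castEmbedding_apply, Int.cast_natCast]
      constructor <;> linarith
  have h1 : Continuous fun u : ℝ => f (u + q) := hf.comp (continuous_id.add continuous_const)
  have e1 := le_Grd (cont_Grd hf (q + 1)) (a := T₁) (b := T₂ - q) (B := B) (by linarith)
    fun u h1 h2 => key _ u le_rfl h1 (by push_cast; linarith)
  have e2 := le_Grd (cont_Grd hf q) (a := T₂ - q) (b := T₁ + 1) (B := B) (by linarith)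
    fun u h1 h2 => key _ u (Nat.le_succ q) (by linarith) (by linarith)
  simp only [sum_range_succ] at e1
  rw [intervalIntegral.integral_add ((cont_Grd hf q).intervalIntegrable _ _)
    (h1.intervalIntegrable _ _), intervalIntegral.integral_comp_add_right, sub_add_cancel] at e1
  rw [← intervalIntegral.integral_add_adjacent_intervals (b := T₁ + q) (hf.intervalIntegrable _ _)
    (hf.intervalIntegrable _ _), fold_Grd hf,
    ← intervalIntegral.integral_add_adjacent_intervals (b := T₂ - q)
      ((cont_Grd hf q).intervalIntegrable _ _) ((cont_Grd hf q).intervalIntegrable _ _)]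
  linarith

end Pool.Agent.MP_c853c5_nt.E
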