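import Pool.Agent.MP_c853c5_nt.E.GridI

/-!
Type I on a grid, for abstract slots and an extra constraint.
-/

set_option autoImplicit false

open Finset Filter

namespace Pool.Agent.MP_c853c5_nt.E

open Pool.Agent.MP_2a1f0e_nt Pool.Agent.MP_2a1f0e_nt.GM Pool.Agent.MP_2a1f0e_nt.DH

theorem gridG (hC : CoreStmt) (ι : Type) [Fintype ι] (K : ℕ) (C : ℝ) {η : ℝ} (hη : 0 < η)
    (hη' : η ≤ 1 / 10) : ∃ γ : ℝ, 0 < γ ∧ ∀ᶠ x : ℝ in atTop,
    ∀ (X : ℝ → (ι → ℝ) → Prop) (τ : ℝ) (b y : ι → ℝ) (T : ℕ) (L : ι → ℕ) (S : Finset ℤ)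
      (Y : ι → ℤ → ℝ), 0 ≤ τ → τ ≤ 1 / 2 → (∀ j, 0 ≤ b j ∧ b j ≤ 1) →
      EvalX X K τ 0 (1 / 2 - η) b → (∀ r v g, 0 ≤ g → X r v → X (r + g) fun j => v j - g) →
      1 ≤ T → (T : ℝ) ≤ x ^ (τ + γ) → (∀ j, 1 ≤ L j ∧ (L j : ℝ) ≤ x ^ (b j + γ)) →
      (∀ j, 0 < y j) → ∏ j, y j ≤ C * x → S ⊆ Icc 0 (T : ℤ) → (∀ j, ∀ m ∈ S, 0 ≤ Y j m) →
      (∀ j, Dom S (fun m => Y j m / √(y j)) (L j) (x ^ γ)) →
      (∀ (W : Finset ℤ) (r : ℝ) (v : ι → ℝ), W ⊆ S → (∀ j, ∀ t ∈ W, x ^ v j ≤ Y j t / √(y j)) →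
        x ^ (r + γ) ≤ W.card → X r v) →
      ∑ m ∈ S, ∏ j, Y j m ≤ x ^ (1 - η / 2) := by
  classical
  set k : ℕ := Fintype.card ι with hk
  have hk0 : (0 : ℝ) ≤ k := Nat.cast_nonneg _
  set ε : ℝ := η / (8 * (k + 2)) with hε
  have hε0 : 0 < ε := by positivity
  have hε1 : (3 * k + 3) * ε ≤ η / 2 - η / 8 := by
    rw [hε, ← mul_div_assoc, div_le_iff₀ (by positivity)]
    nlinarith
  obtain ⟨g, hg, hgε, hev⟩ := hC ι K ε hε0
  refine ⟨g, hg, ?_⟩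
  filter_upwards [hev, eventually_gt_atTop 1, ev_const_le 2 (half_pos hg),
    ev_const_le (3 * √C) (show 0 < η / 8 by linarith)] with x hx h1' h2 h3
  intro X τ b y T L S Y hτ hτ' hb hE hX hT hT' hL hy hyN hST hY hD hH
  have h1 := h1'.le
  have h0 : 0 < x := by linarith
  have hy0 : ∀ j, 0 < √(y j) := fun j => Real.sqrt_pos.2 (hy j)
  have mono : ∀ {a a' : ℝ}, a ≤ a' → x ^ a ≤ x ^ a' := fun h => Real.rpow_le_rpow_of_exponent_le h1 h
  set φ : ι → ℤ → ℝ := fun j m => Y j m / √(y j) with hφ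
  have e2 : ∀ o, ∀ t ∈ S, 0 ≤ φ o t := fun j t ht => div_nonneg (hY j t ht) (hy0 j).le
  obtain ⟨S₀, s1, s2, s3⟩ := hx X τ 0 (1 / 2 - η) 0 b T L S φ hτ (by linarith)
    le_rfl le_rfl hb hE hT hT' hL hST e2 hD hH
  have e4 : ∀ t ∈ S, ∏ o, φ o t ≤ x ^ (1 / 2 - η + 2 * k * ε) := fun t ht => by
    by_cases hz : ∃ o, φ o t = 0
    · obtain ⟨o, ho⟩ := hz
      rw [prod_eq_zero (mem_univ o) ho]
      positivity
    have hp : ∀ o, 0 < φ o t := fun o => (e2 o t ht).lt_of_ne fun h => hz ⟨o, h.symm⟩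
    have e0 : ∀ o, x ^ Real.logb x (φ o t) = φ o t := fun o => Real.rpow_logb h0 h1'.ne' (hp o)
    have a1 : ∀ o, Real.logb x (φ o t) ≤ b o / 2 + 2 * g := fun o =>
      (Real.logb_le_iff_le_rpow h1' (hp o)).2
        (((hD o).le (by positivity) ht).trans (pt_GridI h1 h2 (hL o).2))
    have a2 := hX _ _ (2 * g) (by linarith) (hH {t} (-(2 * g)) (fun o => Real.logb x (φ o t))
      (singleton_subset_iff.2 ht) (fun o s hs => by rw [mem_singleton.1 hs]; exact (e0 o).le)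
      (by
        rw [card_singleton, Nat.cast_one]
        exact Real.rpow_le_one_of_one_le_of_nonpos h1 (by linarith)))
    rw [neg_add_cancel] at a2
    have a3 := hE 0 (fun o => Real.logb x (φ o t) - 2 * g) le_rfl hτ (fun o => by linarith [a1 o])
      (fun κ _ => Con.zero (by
        rw [sum_div]
        refine sum_le_sum fun o _ => ?_
        rw [mul_div_assoc]
        exact mul_le_mul_of_nonneg_left (by linarith [a1 o]) (Nat.cast_nonneg _))) a2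
    rw [sum_sub_distrib, sum_const, card_univ, nsmul_eq_mul] at a3
    rw [← prod_congr rfl fun o _ => e0 o, ← Real.rpow_sum_of_pos h0]
    exact mono (by nlinarith)
  have e5 : ∑ t ∈ S, ∏ o, φ o t ≤ 3 * x ^ (1 / 2 - 5 * η / 8) := by
    rw [← sum_sdiff s1]
    have a1 : ∑ t ∈ S₀, ∏ o, φ o t ≤ x ^ (1 / 2 - 5 * η / 8) := by
      calc ∑ t ∈ S₀, ∏ o, φ o t ≤ S₀.card • x ^ (1 / 2 - η + 2 * k * ε) :=
            sum_le_card_nsmul _ _ _ fun t ht => e4 t (s1 ht)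
        _ ≤ x ^ (0 + ε) * x ^ (1 / 2 - η + 2 * k * ε) := by
            rw [nsmul_eq_mul]
            gcongr
        _ ≤ _ := by
            rw [← Real.rpow_add h0]
            exact mono (by nlinarith)
    have a2 : x ^ (1 / 2 - η - 0 * 0 + ε) ≤ x ^ (1 / 2 - 5 * η / 8) := mono (by nlinarith)
    have a3 : 1 ≤ x ^ (1 / 2 - 5 * η / 8) := Real.one_le_rpow h1 (by linarith)
    linarith
  have e6 : ∀ t : ℤ, ∏ j, Y j t = (∏ j, √(y j)) * ∏ o, φ o t := fun t => by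
    rw [← prod_mul_distrib]
    exact prod_congr rfl fun j _ => (mul_div_cancel₀ _ (hy0 j).ne').symm
  have e7 : ∏ j, √(y j) ≤ √C * √x := by
    rw [← Real.sqrt_prod _ fun j _ => (hy j).le, mul_comm, ← Real.sqrt_mul h0.le, mul_comm]
    exact Real.sqrt_le_sqrt hyN
  simp only [e6]
  rw [← mul_sum]
  calc (∏ j, √(y j)) * ∑ t ∈ S, ∏ o, φ o t ≤ (√C * √x) * (3 * x ^ (1 / 2 - 5 * η / 8)) :=
        mul_le_mul e7 e5 (sum_nonneg fun t ht => prod_nonneg fun o _ => e2 o t ht) (by positivity)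
    _ = (3 * √C) * (x ^ (1 / 2 : ℝ) * x ^ (1 / 2 - 5 * η / 8)) := by
        rw [Real.sqrt_eq_rpow x]
        ring
    _ ≤ x ^ (η / 8) * (x ^ (1 / 2 : ℝ) * x ^ (1 / 2 - 5 * η / 8)) := by gcongr
    _ = _ := by
        rw [← Real.rpow_add h0, ← Real.rpow_add h0]
        ring_nf

end Pool.Agent.MP_c853c5_nt.E
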