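import Pool.Agent.MP_c853c5_nt.E.Basic

set_option autoImplicit false

open Finset Filter

namespace Pool.Agent.MP_c853c5_nt.E

open Pool.Agent.MP_2a1f0e_nt Pool.Agent.MP_2a1f0e_nt.GM Pool.Agent.MP_2a1f0e_nt.DH

lemma norm_GridI {ι : Type} [Fintype ι] {x y : ℝ} (N : ι → ℕ) (hy : 1 ≤ y)
    (h : y * ∏ j, (N j : ℝ) ≤ 8 * x) :
    √y * ∏ j, √((2 * N j : ℕ) : ℝ) ≤ √(8 * 2 ^ Fintype.card ι) * √x := by
  rw [← Real.sqrt_prod _ fun j _ => Nat.cast_nonneg _, ← Real.sqrt_mul (by linarith),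
    ← Real.sqrt_mul (by positivity)]
  refine Real.sqrt_le_sqrt ?_
  push_cast
  rw [prod_mul_distrib, prod_const, card_univ]
  have : (0 : ℝ) < 2 ^ Fintype.card ι := by positivity
  nlinarith

lemma pt_GridI {x g β : ℝ} {L : ℕ} (hx : 1 ≤ x) (h2 : 2 ≤ x ^ (g / 2))
    (hL : (L : ℝ) ≤ x ^ (β + g)) : x ^ g * (2 * √L) ≤ x ^ (β / 2 + 2 * g) := by
  have h0 : 0 < x := by linarith
  have h1 : √(L : ℝ) ≤ x ^ ((β + g) / 2) := by
    refine (Real.sqrt_le_sqrt hL).trans (le_of_eq ?_)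
    rw [Real.sqrt_eq_rpow, ← Real.rpow_mul h0.le]
    ring_nf
  calc x ^ g * (2 * √L) ≤ x ^ g * (x ^ (g / 2) * x ^ ((β + g) / 2)) := by gcongr
    _ = _ := by
      rw [← Real.rpow_add h0, ← Real.rpow_add h0]
      ring_nf

theorem gridI_stmt (hC : CoreStmt) (hS : SelfStmt) : GridIStmt := by
  classical
  intro ι _ K η hη hη'
  set k : ℕ := Fintype.card ι with hk
  have hk0 : (0 : ℝ) ≤ k := Nat.cast_nonneg _
  set ε : ℝ := η / (8 * (k + 2)) with hε
  have hε0 : 0 < ε := by positivity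
  have hε1 : (2 * k + 3) * ε ≤ η / 4 := by
    rw [hε, ← mul_div_assoc, div_le_div_iff₀ (by positivity) (by norm_num)]
    nlinarith
  obtain ⟨g, hg, hgε, hev⟩ := hC (Option ι) K ε hε0
  refine ⟨g / 2, half_pos hg, ?_⟩
  filter_upwards [hev, eventually_ge_atTop 1, ev_const_le 2 (half_pos hg),
    ev_const_le (3 * √(8 * 2 ^ k)) (show 0 < η / 4 by linarith)] with x hx h1 h2 h3
  intro τ u y b₀ b T L N c S Y hτ hτ' hb0 hb1 hb hE hT hT' hN hL hL' hy hyN hc hST hY hD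
  have h0 : 0 < x := by linarith
  have hy0 : 0 < √y := Real.sqrt_pos.2 (by linarith)
  have mono : ∀ {a a' : ℝ}, a ≤ a' → x ^ a ≤ x ^ a' := fun h => Real.rpow_le_rpow_of_exponent_le h1 h
  set φ : Option ι → ℤ → ℝ := fun o => o.elim (fun m => Y m / √y)
    fun j m => ‖BP (N j) (c j) (u + m)‖ / √((2 * N j : ℕ) : ℝ) with hφ
  set L' : Option ι → ℕ := fun o => o.elim L fun j => 2 * N j with hL'd
  set b' : Option ι → ℝ := fun o => o.elim b₀ b with hb'
  have e1 : ∀ o, 1 ≤ L' o ∧ (L' o : ℝ) ≤ x ^ (b' o + g) := by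
    rintro (_ | j)
    · exact ⟨hL, hL'.trans (mono (by simp only [hb', Option.elim]; linarith))⟩
    · refine ⟨by have := (hN j).1; simp only [hL'd, Option.elim]; omega, ?_⟩
      simp only [hL'd, hb', Option.elim]
      push_cast
      calc (2 : ℝ) * N j ≤ x ^ (g / 2) * x ^ (b j + g / 2) := by
            have := (hN j).2
            gcongr
        _ = _ := by
          rw [← Real.rpow_add h0]
          ring_nf
  have e2 : ∀ o, ∀ t ∈ S, 0 ≤ φ o t := by
    rintro (_ | j) t ht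
    · exact div_nonneg (hY t ht) hy0.le
    · exact div_nonneg (norm_nonneg _) (Real.sqrt_nonneg _)
  have e3 : ∀ o, Dom S (φ o) (L' o) (x ^ g) := by
    rintro (_ | j)
    · exact hD.mono (lam := 1) (by positivity) zero_le_one
        (by rw [one_mul]; exact mono (by linarith))
        fun t ht => ⟨e2 none t ht, by rw [one_mul]; rfl⟩
    · refine (hS S (Icc (N j) (2 * N j)) (c j) (2 * N j) u (e1 (some j)).1
        (Icc_subset_Icc_left (hN j).1) (hc j)).mono (lam := 1) zero_le_one zero_le_one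
        (by rw [one_mul]; exact Real.one_le_rpow h1 hg.le)
        fun t ht => ⟨e2 (some j) t ht, by rw [one_mul]; rfl⟩
  obtain ⟨S₀, s1, s2, s3⟩ := hx (fun _ _ => True) τ 0 (1 / 2 - η) 0 b' T L' S φ hτ (by linarith)
    le_rfl le_rfl (by rintro (_ | j); exacts [⟨hb0, hb1⟩, hb j]) hE.toX hT
    (hT'.trans (mono (by linarith))) e1 hST e2 e3 fun _ _ _ _ _ _ => trivial
  have e4 : ∀ t ∈ S, ∏ o, φ o t ≤ x ^ (1 / 2 - η + (2 * k + 2) * ε) := fun t ht => by
    calc ∏ o, φ o t ≤ ∏ o, x ^ (b' o / 2 + 2 * g) :=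
          prod_le_prod (fun o _ => e2 o t ht) fun o _ =>
            ((e3 o).le (by positivity) ht).trans (pt_GridI h1 h2 (e1 o).2)
      _ = x ^ (∑ o, (b' o / 2 + 2 * g)) := (Real.rpow_sum_of_pos h0 _ _).symm
      _ ≤ _ := by
        refine mono ?_
        rw [sum_add_distrib, sum_const, card_univ, Fintype.card_option, nsmul_eq_mul]
        push_cast
        have := hE.total hτ
        nlinarith
  have e5 : ∑ t ∈ S, ∏ o, φ o t ≤ 3 * x ^ (1 / 2 - 3 * η / 4) := by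
    rw [← sum_sdiff s1]
    have a1 : ∑ t ∈ S₀, ∏ o, φ o t ≤ x ^ (1 / 2 - 3 * η / 4) := by
      calc ∑ t ∈ S₀, ∏ o, φ o t ≤ S₀.card • x ^ (1 / 2 - η + (2 * k + 2) * ε) :=
            sum_le_card_nsmul _ _ _ fun t ht => e4 t (s1 ht)
        _ ≤ x ^ (0 + ε) * x ^ (1 / 2 - η + (2 * k + 2) * ε) := by
            rw [nsmul_eq_mul]
            gcongr
        _ ≤ _ := by
            rw [← Real.rpow_add h0]
            exact mono (by linarith)
    have a2 : x ^ (1 / 2 - η - 0 * 0 + ε) ≤ x ^ (1 / 2 - 3 * η / 4) := mono (by nlinarith)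
    have a3 : 1 ≤ x ^ (1 / 2 - 3 * η / 4) := Real.one_le_rpow h1 (by linarith)
    linarith
  have e6 : ∀ t : ℤ, Y t * ∏ j, ‖BP (N j) (c j) (u + t)‖ =
      (√y * ∏ j, √((2 * N j : ℕ) : ℝ)) * ∏ o, φ o t := fun t => by
    rw [Fintype.prod_option, mul_mul_mul_comm, ← prod_mul_distrib]
    simp only [hφ, Option.elim]
    rw [mul_div_cancel₀ _ hy0.ne']
    congr 1
    refine prod_congr rfl fun j _ => (mul_div_cancel₀ _ (Real.sqrt_pos.2 ?_).ne').symm
    have := (hN j).1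
    exact_mod_cast (by omega : 0 < 2 * N j)
  simp only [e6]
  rw [← mul_sum]
  calc (√y * ∏ j, √((2 * N j : ℕ) : ℝ)) * ∑ t ∈ S, ∏ o, φ o t
      ≤ (√(8 * 2 ^ k) * √x) * (3 * x ^ (1 / 2 - 3 * η / 4)) :=
        mul_le_mul (norm_GridI N hy hyN) e5
          (sum_nonneg fun t ht => prod_nonneg fun o _ => e2 o t ht) (by positivity)
    _ = (3 * √(8 * 2 ^ k)) * (x ^ (1 / 2 : ℝ) * x ^ (1 / 2 - 3 * η / 4)) := by
        rw [Real.sqrt_eq_rpow x]
        ring
    _ ≤ x ^ (η / 4) * (x ^ (1 / 2 : ℝ) * x ^ (1 / 2 - 3 * η / 4)) := by gcongr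
    _ = _ := by
        rw [← Real.rpow_add h0, ← Real.rpow_add h0]
        ring_nf

end Pool.Agent.MP_c853c5_nt.E
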