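import Pool.Agent.MP_c853c5_nt.E.Basic
set_option autoImplicit false
open Finset Filter
namespace Pool.Agent.MP_c853c5_nt.E
open Pool.Agent.MP_2a1f0e_nt Pool.Agent.MP_2a1f0e_nt.GM Pool.Agent.MP_2a1f0e_nt.DH

lemma split_GridII {ι : Type} [Fintype ι] [DecidableEq ι] {a b c : ι} (hab : a ≠ b)
    (hac : a ≠ c) (hbc : b ≠ c) (f : ι → ℝ) :
    ∏ j, f j = f a * (f b * (f c * ∏ j ∈ ((univ.erase a).erase b).erase c, f j)) := by
  rw [mul_prod_erase _ f (mem_erase.2 ⟨hbc.symm, mem_erase.2 ⟨hac.symm, mem_univ c⟩⟩),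
    mul_prod_erase _ f (mem_erase.2 ⟨hab.symm, mem_univ b⟩), mul_prod_erase _ f (mem_univ a)]

lemma on_GridII {ι : Type} [Fintype ι] [DecidableEq ι] {a b c : ι} (hab : a ≠ b)
    (hac : a ≠ c) (hbc : b ≠ c) (S : Finset ℤ) (f : ι → ℤ → ℝ) (N : ι → ℝ) {H q : ℝ}
    (hH : 0 ≤ H) (hq : 0 < q) (hN : ∀ j, 0 ≤ N j) (h0 : ∀ j m, 0 ≤ f j m)
    (h1 : ∀ j m, f j m ≤ 2 * N j) (ha : ∑ m ∈ S, f a m ^ 2 ≤ H * N a ^ 2)
    (hb : ∑ m ∈ S, f b m ^ 2 ≤ H * N b ^ 2) (hc : ∀ m ∈ S, f c m ≤ N c / q) :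
    ∑ m ∈ S, ∏ j, f j m ≤ H / q * ∏ j, (2 * N j) := by
  set R := ∏ j ∈ ((univ.erase a).erase b).erase c, (2 * N j) with hR
  have hR0 : 0 ≤ R := prod_nonneg fun j _ => by have := hN j; positivity
  have hNa := hN a
  have hNb := hN b
  have hNc := hN c
  have e1 : ∑ m ∈ S, f a m * f b m ≤ H * N a * N b := by
    refine le_of_sq_le_sq ((sum_mul_sq_le_sq_mul_sq S _ _).trans ?_) (by positivity)
    refine (mul_le_mul ha hb (sum_nonneg fun _ _ => sq_nonneg _) (by positivity)).trans ?_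
    exact le_of_eq (by ring)
  have e2 : ∑ m ∈ S, ∏ j, f j m ≤ (∑ m ∈ S, f a m * f b m) * (N c / q * R) := by
    rw [sum_mul]
    refine sum_le_sum fun m hm => ?_
    rw [split_GridII hab hac hbc fun j => f j m, ← mul_assoc]
    refine mul_le_mul_of_nonneg_left ?_ (mul_nonneg (h0 a m) (h0 b m))
    exact mul_le_mul (hc m hm) (prod_le_prod (fun j _ => h0 j m) fun j _ => h1 j m)
      (prod_nonneg fun j _ => h0 j m) (by positivity)
  refine e2.trans ((mul_le_mul_of_nonneg_right e1 (by positivity)).trans ?_)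
  rw [split_GridII hab hac hbc fun j => 2 * N j, ← hR]
  have e3 : 0 ≤ H / q * (N a * N b * N c * R) := by positivity
  have e4 : H * N a * N b * (N c / q * R) = H / q * (N a * N b * N c * R) := by ring
  have e5 : H / q * (2 * N a * (2 * N b * (2 * N c * R))) =
      8 * (H / q * (N a * N b * N c * R)) := by ring
  rw [e4, e5]
  linarith

theorem gridII_stmt (hC : CoreStmt) (hS : SelfStmt) (hH : HalStmt) : GridIIStmt := by
  classical
  intro ι _ K A η c₀ ia ib ic hab hac hbc hη hc₀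
  obtain ⟨rH, C, hr, hC0, hH⟩ := hH c₀ hc₀
  obtain ⟨ε, hε, e1, e2, e3⟩ : ∃ ε : ℝ, 0 < ε ∧ ε ≤ rH / 2 ∧ ε ≤ η * (rH / 2) / 2 ∧ ε ≤ 1 / 2 :=
    ⟨min (rH / 2) (min (η * (rH / 2) / 2) (1 / 2)), by positivity, min_le_left _ _,
      (min_le_right _ _).trans (min_le_left _ _), (min_le_right _ _).trans (min_le_right _ _)⟩
  obtain ⟨g, hg, hgε, hC⟩ := hC ι K ε hε
  obtain ⟨D, hD, hD1⟩ : ∃ D : ℝ, D = 2 ^ Fintype.card ι * 8 ∧ 1 ≤ D :=
    ⟨_, rfl, by linarith [one_le_pow₀ (n := Fintype.card ι) (show (1 : ℝ) ≤ 2 by norm_num)]⟩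
  refine ⟨g / 2, by positivity, ?_⟩
  filter_upwards [hH, hC, eventually_gt_atTop 1, ev_const_le 2 (half_pos hg),
    ev_log_le (4 * D) A hε, ev_le_log (2 * C * D)] with x hH hC hx h2 h3 h4
  intro τ u b T N c S hτ0 hτ1 hb hE hT hTx hN hP ha hb' hc hS' hic
  have hx0 : 0 < x := by linarith
  have hl : 0 < Real.log x := Real.log_pos hx
  have hN0 : ∀ j, (0 : ℝ) < N j := fun j => by exact_mod_cast (hN j).1
  have hTx' : (T : ℝ) ≤ x := by
    refine hTx.trans ((Real.rpow_le_rpow_of_exponent_le hx.le ?_).trans_eq (Real.rpow_one x))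
    linarith
  obtain ⟨S₀, s1, s2, s3⟩ := hC (fun _ _ => True) τ η (1 / 2) (rH / 2) b T (fun j => 2 * N j) S
    (fun j m => ‖BP (N j) (c j) (u + m)‖ / √((2 * N j : ℕ) : ℝ)) hτ0 (by linarith) hη.le
    (by positivity) hb hE.toX hT
    (hTx.trans (Real.rpow_le_rpow_of_exponent_le hx.le (by linarith)))
    (fun j => ⟨by have := (hN j).1; omega, by
      rw [show b j + g = g / 2 + (b j + g / 2) by ring, Real.rpow_add hx0]
      push_cast
      exact mul_le_mul h2 (hN j).2 (hN0 j).le (Real.rpow_nonneg hx0.le _)⟩)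
    hS' (fun j t _ => by positivity)
    (fun j => (hS S (Icc (N j) (2 * N j)) (c j) (2 * N j) u (by have := (hN j).1; omega)
      (Icc_subset_Icc (hN j).1 le_rfl) (hc j)).mono zero_le_one zero_le_one
      (by rw [one_mul]; exact Real.one_le_rpow hx.le hg.le)
      fun t _ => ⟨by positivity, (one_mul _).ge⟩)
    (fun _ _ _ _ _ _ => trivial)
  have hP2 : ∏ j, (2 * (N j : ℝ)) ≤ D * x := by
    rw [prod_mul_distrib, prod_const, card_univ, hD, mul_assoc]
    exact mul_le_mul_of_nonneg_left hP (by positivity)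
  have hcard : (S₀.card : ℝ) ≤ x ^ rH :=
    s2.trans (Real.rpow_le_rpow_of_exponent_le hx.le (by linarith))
  have k1 := on_GridII hab hac hbc S₀ (fun j m => ‖BP (N j) (c j) (u + m)‖) (fun j => (N j : ℝ))
    (H := C * Real.log x) (q := Real.log x ^ (A + 2)) (by positivity) (by positivity)
    (fun j => (hN0 j).le) (fun _ _ => norm_nonneg _) (fun j m => norm_BP_le (hN j).1 (hc j) _)
    ((hH (N ia) T (c ia) u S₀ ha hTx' (s1.trans hS') hcard (hc ia)).trans_eq (by ring))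
    ((hH (N ib) T (c ib) u S₀ hb' hTx' (s1.trans hS') hcard (hc ib)).trans_eq (by ring))
    fun m hm => hic m (s1 hm)
  have k2 : C * Real.log x / Real.log x ^ (A + 2) * ∏ j, (2 * (N j : ℝ)) ≤
      x / Real.log x ^ A / 2 := by
    refine (mul_le_mul_of_nonneg_left hP2 (by positivity)).trans ?_
    have e : C * Real.log x / Real.log x ^ (A + 2) * (D * x) =
        x / Real.log x ^ A / 2 * (2 * C * D / Real.log x) := by
      field_simp
      ring
    rw [e]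
    exact mul_le_of_le_one_right (by positivity) ((div_le_one hl).2 h4)
  set Q := ∏ j, √((2 * N j : ℕ) : ℝ) with hQ
  have hQ0 : 0 ≤ Q := prod_nonneg fun _ _ => Real.sqrt_nonneg _
  have hQ1 : Q ≤ D * x ^ (1 / 2 : ℝ) := by
    refine le_of_sq_le_sq ?_ (by positivity)
    have q1 : Q ^ 2 = ∏ j, (2 * (N j : ℝ)) := by
      rw [hQ, ← prod_pow]
      refine prod_congr rfl fun j _ => ?_
      rw [Real.sq_sqrt (Nat.cast_nonneg _)]
      push_cast
      rfl
    have q2 : (x ^ (1 / 2 : ℝ)) ^ 2 = x := by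
      rw [← Real.sqrt_eq_rpow, Real.sq_sqrt hx0.le]
    rw [q1, mul_pow, q2]
    exact hP2.trans (mul_le_mul_of_nonneg_right (by nlinarith) hx0.le)
  have k3 : ∑ m ∈ S \ S₀, ∏ j, ‖BP (N j) (c j) (u + m)‖ =
      Q * ∑ m ∈ S \ S₀, ∏ j, ‖BP (N j) (c j) (u + m)‖ / √((2 * N j : ℕ) : ℝ) := by
    rw [mul_sum]
    refine sum_congr rfl fun m _ => ?_
    rw [hQ, ← prod_mul_distrib]
    refine prod_congr rfl fun j _ => ?_
    have : 0 < √((2 * N j : ℕ) : ℝ) := Real.sqrt_pos.2 (by have := hN0 j; push_cast; positivity)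
    field_simp
  have k4 : x ^ (1 / 2 - η * (rH / 2) + ε) + 1 ≤ 2 * x ^ (1 / 2 - ε) := by
    have a1 : x ^ (1 / 2 - η * (rH / 2) + ε) ≤ x ^ (1 / 2 - ε) :=
      Real.rpow_le_rpow_of_exponent_le hx.le (by linarith)
    have a2 : 1 ≤ x ^ (1 / 2 - ε) := Real.one_le_rpow hx.le (by linarith)
    linarith
  have k5 : D * x ^ (1 / 2 : ℝ) * (2 * x ^ (1 / 2 - ε)) ≤ x / Real.log x ^ A / 2 := by
    have a1 : x ^ (1 / 2 : ℝ) * x ^ (1 / 2 - ε) * x ^ ε = x := by
      rw [← Real.rpow_add hx0, ← Real.rpow_add hx0,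
        show (1 / 2 + (1 / 2 - ε) + ε : ℝ) = 1 by ring, Real.rpow_one]
    have a2 : 0 ≤ x ^ (1 / 2 : ℝ) * x ^ (1 / 2 - ε) := by positivity
    have a3 := mul_le_mul_of_nonneg_left h3 a2
    rw [a1] at a3
    rw [le_div_iff₀ two_pos, le_div_iff₀ (by positivity)]
    linarith
  have k6 := mul_le_mul hQ1 (s3.trans k4)
    (sum_nonneg fun m _ => prod_nonneg fun j _ => by positivity) (by positivity)
  rw [← sum_sdiff s1, k3]
  linarith

end Pool.Agent.MP_c853c5_nt.E
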