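import Pool.Agent.MP_c853c5_nt.E.Basic
import Pool.Agent.MP_c853c5_nt.Z.PTop

set_option autoImplicit false

open Finset Filter

namespace Pool.Agent.MP_c853c5_nt.E

open Pool.Agent.MP_2a1f0e_nt Pool.Agent.MP_2a1f0e_nt.GM Pool.Agent.MP_2a1f0e_nt.DH

theorem self_stmt : SelfStmt := by
  intro S s c L u hL hs hc w m _
  have hL0 : (0 : ℝ) < √(L : ℝ) := Real.sqrt_pos.2 (by exact_mod_cast hL)
  refine ⟨fun n => if n ∈ s then ((c n * (√(n : ℝ) / √(L : ℝ)) : ℝ) : ℂ) * pw (n : ℝ) u else 0,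
    fun n => ?_, le_of_eq ?_⟩
  · beta_reduce
    split_ifs with h
    · rw [norm_mul, norm_pw, mul_one, Complex.norm_real, Real.norm_eq_abs, abs_mul,
        abs_of_nonneg (show 0 ≤ √(n : ℝ) / √(L : ℝ) by positivity)]
      refine mul_le_one₀ (hc n) (by positivity) ((div_le_one hL0).2 (Real.sqrt_le_sqrt ?_))
      exact_mod_cast (mem_Icc.1 (hs h)).2
    · simp
  · rw [one_pow, one_mul]
    refine sum_congr rfl fun t _ => ?_
    have e : NP L (fun n => if n ∈ s then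
        ((c n * (√(n : ℝ) / √(L : ℝ)) : ℝ) : ℂ) * pw (n : ℝ) u else 0) t =
        FP s c (u + t) / ((√(L : ℝ) : ℝ) : ℂ) := by
      unfold NP DH.PP FP
      rw [← sum_subset hs fun n _ hn => by simp [hn], sum_div]
      refine sum_congr rfl fun n hn => ?_
      have h1 : (0 : ℝ) < √(n : ℝ) := Real.sqrt_pos.2 (by exact_mod_cast (mem_Icc.1 (hs hn)).1)
      have h2 : ((√(n : ℝ) : ℝ) : ℂ) ≠ 0 := by exact_mod_cast h1.ne'
      have h3 : ((√(L : ℝ) : ℝ) : ℂ) ≠ 0 := by exact_mod_cast hL0.ne'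
      beta_reduce
      rw [if_pos hn, pw_add, hf]
      push_cast
      field_simp
    rw [e, norm_div, Complex.norm_real, Real.norm_of_nonneg hL0.le]

lemma schur_Hal (W : Finset ℤ) (a : ℤ → ℝ) (κ : ℤ → ℤ → ℝ) (R : ℝ) (hs : ∀ s t, κ s t = κ t s)
    (h0 : ∀ s t, 0 ≤ κ s t) (hR : ∀ s ∈ W, ∑ t ∈ W, κ s t ≤ R) :
    ∑ s ∈ W, ∑ t ∈ W, a s * a t * κ s t ≤ R * ∑ s ∈ W, a s ^ 2 := by
  have h1 : ∑ s ∈ W, ∑ t ∈ W, a s ^ 2 * κ s t ≤ R * ∑ s ∈ W, a s ^ 2 := by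
    rw [mul_sum]
    refine sum_le_sum fun s hs => ?_
    rw [← mul_sum, mul_comm]
    exact mul_le_mul_of_nonneg_right (hR s hs) (sq_nonneg _)
  have h2 : ∑ s ∈ W, ∑ t ∈ W, a t ^ 2 * κ s t = ∑ s ∈ W, ∑ t ∈ W, a s ^ 2 * κ s t := by
    rw [sum_comm]
    exact sum_congr rfl fun s _ => sum_congr rfl fun t _ => by rw [hs]
  have h3 : 2 * ∑ s ∈ W, ∑ t ∈ W, a s * a t * κ s t ≤
      ∑ s ∈ W, ∑ t ∈ W, a s ^ 2 * κ s t + ∑ s ∈ W, ∑ t ∈ W, a t ^ 2 * κ s t := by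
    rw [mul_sum, ← sum_add_distrib]
    refine sum_le_sum fun s _ => ?_
    rw [mul_sum, ← sum_add_distrib]
    refine sum_le_sum fun t _ => ?_
    nlinarith [mul_nonneg (sq_nonneg (a s - a t)) (h0 s t)]
  linarith

/-- the duality bound -/
lemma sq_Hal {N : ℕ} (hN : 1 ≤ N) (S : Finset ℤ) {c : ℕ → ℝ} (hc : ∀ n, |c n| ≤ 1) (u : ℝ)
    (κ : ℤ → ℤ → ℝ) (R : ℝ) (hR0 : 0 ≤ R) (hs : ∀ s t, κ s t = κ t s) (h0 : ∀ s t, 0 ≤ κ s t)
    (hR : ∀ s ∈ S, ∑ t ∈ S, κ s t ≤ R)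
    (hκ : ∀ s ∈ S, ∀ t ∈ S, 1 + ‖Z.ES N (2 * N) ((s : ℝ) - t)‖ ≤ κ s t) :
    ∑ m ∈ S, ‖BP N c (u + m)‖ ^ 2 ≤ 2 * N * R := by
  have key := Z.dual_Hal (Icc N (2 * N)) S (fun n => (c n : ℂ))
    (fun s n => ((‖BP N c (u + s)‖ : ℝ) : ℂ) * pw (n : ℝ) (u + s))
    (fun s t => ‖BP N c (u + s)‖ * ‖BP N c (u + t)‖ * κ s t) fun s hs t ht => by
      have e : ∑ n ∈ Icc N (2 * N), ((‖BP N c (u + s)‖ : ℝ) : ℂ) * pw (n : ℝ) (u + s) *
          (starRingEnd ℂ) (((‖BP N c (u + t)‖ : ℝ) : ℂ) * pw (n : ℝ) (u + t)) =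
          ((‖BP N c (u + s)‖ * ‖BP N c (u + t)‖ : ℝ) : ℂ) * ∑ n ∈ Icc N (2 * N),
            pw (n : ℝ) (u + s) * (starRingEnd ℂ) (pw (n : ℝ) (u + t)) := by
        rw [mul_sum]
        refine sum_congr rfl fun n _ => ?_
        rw [map_mul, Complex.conj_ofReal]
        push_cast
        ring
      rw [e, norm_mul, Complex.norm_real, Real.norm_of_nonneg (by positivity)]
      refine mul_le_mul_of_nonneg_left ((Z.inner_PTop hN _ _).trans ?_) (by positivity)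
      rw [add_sub_add_left_eq_sub]
      exact hκ s hs t ht
  have e : ∑ s ∈ S, ‖∑ n ∈ Icc N (2 * N),
      (c n : ℂ) * (((‖BP N c (u + s)‖ : ℝ) : ℂ) * pw (n : ℝ) (u + s))‖ =
      ∑ m ∈ S, ‖BP N c (u + m)‖ ^ 2 := by
    refine sum_congr rfl fun s _ => ?_
    have e1 : ∑ n ∈ Icc N (2 * N),
        (c n : ℂ) * (((‖BP N c (u + s)‖ : ℝ) : ℂ) * pw (n : ℝ) (u + s)) =
        ((‖BP N c (u + s)‖ : ℝ) : ℂ) * BP N c (u + s) := by
      rw [show ((‖BP N c (u + s)‖ : ℝ) : ℂ) * BP N c (u + s) = ((‖BP N c (u + s)‖ : ℝ) : ℂ) *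
        ∑ n ∈ Icc N (2 * N), (c n : ℂ) * pw (n : ℝ) (u + s) from rfl, mul_sum]
      exact sum_congr rfl fun n _ => mul_left_comm _ _ _
    rw [e1, norm_mul, Complex.norm_real, norm_norm, sq]
  have a2 : ∑ n ∈ Icc N (2 * N), ‖(c n : ℂ)‖ ^ 2 ≤ 2 * (N : ℝ) := by
    refine (sum_le_card_nsmul _ _ 1 fun n _ => pow_le_one₀ (norm_nonneg _) ?_).trans ?_
    · rw [Complex.norm_real]
      exact hc n
    · rw [nsmul_eq_mul, mul_one]
      exact card_blk_le hN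
  have a3 := schur_Hal S (fun s => ‖BP N c (u + s)‖) κ R hs h0 hR
  rw [e] at key
  have a0 : 0 ≤ ∑ m ∈ S, ‖BP N c (u + m)‖ ^ 2 := sum_nonneg fun _ _ => sq_nonneg _
  have a4 := key.trans (mul_le_mul a2 a3 (sum_nonneg fun s _ => sum_nonneg fun t _ =>
    mul_nonneg (by positivity) (h0 s t)) (by positivity))
  generalize ∑ m ∈ S, ‖BP N c (u + m)‖ ^ 2 = X at a0 a4
  rcases a0.eq_or_lt with h | h
  · rw [← h]
    positivity
  · refine le_of_mul_le_mul_right ?_ h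
    calc X * X = X ^ 2 := (sq X).symm
      _ ≤ _ := a4
      _ = _ := by ring

theorem hal_stmt (hK : Z.KerStmt) : HalStmt := by
  intro c₀ hc₀
  obtain ⟨C0, δ, hC0, hδ, hδ1, hK⟩ := hK (⌈1 / c₀⌉₊ + 1) (by omega)
  refine ⟨c₀ * δ, 120 + 2 * (1 + C0), by positivity, by positivity, ?_⟩
  filter_upwards [eventually_ge_atTop (2 : ℝ), ev_le_log 1] with x hx hl N T c u S hN hT hS hcard hc
  have hx1 : (1 : ℝ) ≤ x := by linarith
  have hx0 : (0 : ℝ) ≤ x := by linarith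
  have hN1 : (1 : ℝ) ≤ N := (Real.one_le_rpow hx1 hc₀.le).trans hN
  have hN' : 1 ≤ N := by exact_mod_cast hN1
  have hN0 : (0 : ℝ) < N := by linarith
  have hP : 1 ≤ (N : ℝ) ^ (1 - δ) := Real.one_le_rpow hN1 (by linarith)
  have hW : ∀ s ∈ S, 0 ≤ s ∧ s ≤ T := fun s hs => mem_Icc.1 (hS hs)
  have hxk : x ≤ (N : ℝ) ^ (⌈1 / c₀⌉₊ + 1) := by
    have h1 : 1 ≤ c₀ * ((⌈1 / c₀⌉₊ + 1 : ℕ) : ℝ) := by
      have h2 := Nat.le_ceil (1 / c₀)
      rw [div_le_iff₀ hc₀] at h2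
      push_cast
      nlinarith
    calc x = x ^ (1 : ℝ) := (Real.rpow_one x).symm
      _ ≤ x ^ (c₀ * ((⌈1 / c₀⌉₊ + 1 : ℕ) : ℝ)) := Real.rpow_le_rpow_of_exponent_le hx1 h1
      _ = (x ^ c₀) ^ (⌈1 / c₀⌉₊ + 1) := by rw [Real.rpow_mul hx0, Real.rpow_natCast]
      _ ≤ _ := pow_le_pow_left₀ (by positivity) hN _
  have hc2 : (S.card : ℝ) * (N : ℝ) ^ (1 - δ) ≤ N := by
    have h1 : (S.card : ℝ) ≤ (N : ℝ) ^ δ := by
      refine hcard.trans ?_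
      rw [Real.rpow_mul hx0]
      exact Real.rpow_le_rpow (by positivity) hN hδ.le
    calc _ ≤ (N : ℝ) ^ δ * (N : ℝ) ^ (1 - δ) := mul_le_mul_of_nonneg_right h1 (by positivity)
      _ = N := by rw [← Real.rpow_add hN0, add_sub_cancel, Real.rpow_one]
  have hlog : Real.log (T + 2) ≤ 2 * Real.log x := by
    have h1 : (0 : ℝ) ≤ T := Nat.cast_nonneg T
    calc _ ≤ Real.log (x ^ 2) := Real.log_le_log (by linarith) (by nlinarith)
      _ = _ := by rw [Real.log_pow]; norm_num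
  have key := sq_Hal hN' S hc u
    (fun s t => 5 * N * (1 / (1 + |(s : ℝ) - t|)) + (1 + C0) * (N : ℝ) ^ (1 - δ))
    ((60 + (1 + C0)) * N * Real.log x) (by positivity) (fun s t => by rw [abs_sub_comm])
    (fun s t => by positivity) (fun s hs => by
      rw [sum_add_distrib, sum_const, nsmul_eq_mul, ← mul_sum, mul_left_comm]
      have h1 := mul_le_mul_of_nonneg_left ((Z.sum_PTop S T hW hs).trans
        (mul_le_mul_of_nonneg_left hlog (by norm_num))) (show (0 : ℝ) ≤ 5 * N by positivity)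
      have h2 := mul_le_mul_of_nonneg_left (hc2.trans (le_mul_of_one_le_right hN0.le hl))
        (show (0 : ℝ) ≤ 1 + C0 by positivity)
      linarith) fun s hs t ht => by
      have h1 := hW s hs
      have h2 := hW t ht
      have h3 : |s - t| ≤ (T : ℤ) := abs_le.2 ⟨by omega, by omega⟩
      have h4 : |(s : ℝ) - t| ≤ T := by exact_mod_cast h3
      have h5 := hK N (2 * N) ((s : ℝ) - t) hN' (by omega) le_rfl (h4.trans (hT.trans hxk))
      rw [mul_one_div]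
      linarith
  refine key.trans (le_of_eq ?_)
  ring

end Pool.Agent.MP_c853c5_nt.E
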