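import Pool.Agent.MP_c853c5_nt.E.Basic
set_option autoImplicit false
open Finset Filter
namespace Pool.Agent.MP_c853c5_nt.E
open Pool.Agent.MP_2a1f0e_nt Pool.Agent.MP_2a1f0e_nt.GM Pool.Agent.MP_2a1f0e_nt.DH

lemma fib_Lev {κ : Type} [DecidableEq κ] (I : Finset κ) (T : Finset ℤ) (g : ℤ → κ) (f : ℤ → ℝ)
    {B : ℝ} (hB : 0 ≤ B) (hm : ∀ t ∈ T, g t ∈ I)
    (h : ∀ t₀ ∈ T, ∑ t ∈ T.filter (fun t => g t = g t₀), f t ≤ B) :
    ∑ t ∈ T, f t ≤ (I.card + 1) * B := by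
  rw [← sum_fiberwise_of_maps_to hm]
  refine (sum_le_card_nsmul _ _ B fun i _ => ?_).trans (by rw [nsmul_eq_mul]; linarith)
  rcases (T.filter fun t => g t = i).eq_empty_or_nonempty with e | ⟨t₀, ht⟩
  · rw [e, sum_empty]
    exact hB
  · obtain ⟨h1, rfl⟩ := mem_filter.1 ht
    exact h t₀ h1

lemma prod_Lev {ι : Type} [Fintype ι] {x : ℝ} (hx : 1 < x) (f w : ι → ℝ) (h0 : ∀ j, 0 ≤ f j)
    (h : ∀ j, f j ≤ x ^ w j) : ∏ j, f j ≤ x ^ ∑ j, w j := by
  rw [Real.rpow_sum_of_pos (by linarith)]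
  exact prod_le_prod (fun j _ => h0 j) fun j _ => h j

lemma idx_Lev {x ε y u : ℝ} (hx : 1 < x) (hε : 0 < ε) (hy : 0 < y) (hu : y ≤ x ^ (u + ε)) :
    x ^ (ε * (⌊Real.logb x y / ε⌋ - 1)) ≤ y ∧ y ≤ x ^ (ε * (⌊Real.logb x y / ε⌋ - 1) + 2 * ε) ∧
      ε * (⌊Real.logb x y / ε⌋ - 1) ≤ u := by
  have h1 := (le_div_iff₀ hε).1 (Int.floor_le (Real.logb x y / ε))
  have h2 := (div_lt_iff₀ hε).1 (Int.lt_floor_add_one (Real.logb x y / ε))
  have h3 := (Real.logb_le_iff_le_rpow hx hy).2 hu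
  exact ⟨(Real.le_logb_iff_rpow_le hx hy).1 (by linarith),
    (Real.logb_le_iff_le_rpow hx hy).1 (by linarith), by linarith⟩

theorem lev_stmt : LevStmt := by
  classical
  intro ι _ ε hε hε1
  obtain ⟨D, hD⟩ : ∃ D : ℝ, D = 2 * Fintype.card ι + 2 := ⟨_, rfl⟩
  obtain ⟨I, hI⟩ : ∃ I : Finset (ι → ℤ),
    I = Fintype.piFinset fun _ => Icc ⌊-D / ε⌋ ⌊2 / ε⌋ := ⟨_, rfl⟩
  refine ⟨I.card + 1, by positivity, fun x τ η s ρ u S φ G hx hτ hη hρ hu hS hφ hG hE => ?_⟩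
  have hx0 : 0 < x := by linarith
  obtain ⟨g, hg⟩ : ∃ g : ℤ → ι → ℤ, g = fun t j => ⌊Real.logb x (φ j t) / ε⌋ := ⟨_, rfl⟩
  obtain ⟨H, hH⟩ : ∃ H : Finset ℤ, H = S.filter fun t => ∀ j, x ^ (-D) ≤ φ j t := ⟨_, rfl⟩
  have hHS : H ⊆ S := hH ▸ filter_subset _ _
  have h2 : ∀ j, ∀ t ∈ S, φ j t ≤ x ^ (2 : ℝ) := fun j t ht =>
    (hφ j t ht).2.trans (Real.rpow_le_rpow_of_exponent_le hx.le (by linarith [hu j]))
  have hlow : ∀ j, ∀ t ∈ H, x ^ (-D) ≤ φ j t := fun j t ht => by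
    rw [hH] at ht
    exact (mem_filter.1 ht).2 j
  have hpos : ∀ j, ∀ t ∈ H, 0 < φ j t := fun j t ht =>
    (Real.rpow_pos_of_pos hx0 _).trans_le (hlow j t ht)
  have hm : ∀ t ∈ H, g t ∈ I := fun t ht => by
    rw [hI, hg, Fintype.mem_piFinset]
    intro j
    refine mem_Icc.2 ⟨Int.floor_le_floor ?_, Int.floor_le_floor ?_⟩
    · exact div_le_div_of_nonneg_right
        ((Real.le_logb_iff_rpow_le hx (hpos j t ht)).2 (hlow j t ht)) hε.le
    · exact div_le_div_of_nonneg_right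
        ((Real.logb_le_iff_le_rpow hx (hpos j t ht)).2 (h2 j t (hHS ht))) hε.le
  obtain ⟨S₀, hS₀⟩ : ∃ S₀ : Finset ℤ, S₀ = H.filter fun t₀ =>
    ((H.filter fun t => g t = g t₀).card : ℝ) < x ^ (ρ + ε) := ⟨_, rfl⟩
  have h0 : S₀ ⊆ H := hS₀ ▸ filter_subset _ _
  refine ⟨S₀, h0.trans hHS, ?_, ?_⟩
  · have := fib_Lev I S₀ g (fun _ => 1) (B := x ^ (ρ + ε)) (by positivity)
      (fun t ht => hm t (h0 ht)) fun t₀ ht₀ => by
        rw [sum_const, nsmul_eq_mul, mul_one]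
        have a1 := card_le_card (filter_subset_filter (fun t => g t = g t₀) h0)
        rw [hS₀] at ht₀
        exact le_trans (by exact_mod_cast a1) (mem_filter.1 ht₀).2.le
    rwa [sum_const, nsmul_eq_mul, mul_one] at this
  rw [← sum_filter_add_sum_filter_not (S \ S₀) fun t => t ∈ H]
  refine add_le_add (fib_Lev I _ g _ (by positivity) (fun t ht => hm t (mem_filter.1 ht).2)
    fun t₀ ht₀ => ?_) ?_
  · obtain ⟨b1, b2⟩ := mem_filter.1 ht₀
    obtain ⟨W, hW⟩ : ∃ W : Finset ℤ, W = H.filter fun t => g t = g t₀ := ⟨_, rfl⟩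
    have b3 : x ^ (ρ + ε) ≤ W.card := by
      by_contra hc
      exact (mem_sdiff.1 b1).2 (by rw [hS₀]; exact mem_filter.2 ⟨b2, hW ▸ not_le.1 hc⟩)
    have b4 : (0 : ℝ) < W.card := (Real.rpow_pos_of_pos hx0 _).trans_le b3
    have hWH : W ⊆ H := hW ▸ filter_subset _ _
    have b5 : ∀ j, ∀ t ∈ W, x ^ (ε * (g t₀ j - 1)) ≤ φ j t ∧
        φ j t ≤ x ^ (ε * (g t₀ j - 1) + 2 * ε) ∧ ε * (g t₀ j - 1) ≤ u j := fun j t ht => by
      have e : g t = g t₀ := by
        rw [hW] at ht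
        exact (mem_filter.1 ht).2
      rw [← e, hg]
      exact idx_Lev hx hε (hpos j t (hWH ht)) (hφ j t (hHS (hWH ht))).2
    have b6 : t₀ ∈ W := by
      rw [hW]
      exact mem_filter.2 ⟨b2, rfl⟩
    obtain ⟨r, hr⟩ : ∃ r : ℝ, r = Real.logb x W.card - ε := ⟨_, rfl⟩
    have b7 : x ^ (r + ε) = W.card := by
      rw [hr, sub_add_cancel, Real.rpow_logb hx0 hx.ne' b4]
    have b8 : ρ ≤ r := by
      have := (Real.le_logb_iff_rpow_le hx b4).2 b3
      linarith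
    have b9 : r ≤ τ := by
      have a1 : (W.card : ℝ) ≤ S.card := by exact_mod_cast card_le_card (hWH.trans hHS)
      have := (Real.logb_le_iff_le_rpow hx b4).2 (a1.trans hS)
      linarith
    have c1 := hE r _ (hρ.trans b8) b9 (fun j => (b5 j t₀ b6).2.2)
      (hG W r _ (hWH.trans hHS) (fun j t ht => (b5 j t ht).1) b7.le)
    have c2 : (((S \ S₀).filter fun t => t ∈ H).filter fun t => g t = g t₀) ⊆ W := by
      rw [hW]
      exact filter_subset_filter _ fun t ht => (mem_filter.1 ht).2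
    refine (sum_le_sum_of_subset_of_nonneg c2 fun t ht _ =>
      prod_nonneg fun j _ => (hpos j t (hWH ht)).le).trans ?_
    refine (sum_le_card_nsmul _ _ _ fun t ht => prod_Lev hx _ _
      (fun j => (hpos j t (hWH ht)).le) fun j => (b5 j t ht).2.1).trans ?_
    rw [nsmul_eq_mul, ← b7, ← Real.rpow_add hx0, sum_add_distrib, sum_const, card_univ,
      nsmul_eq_mul]
    refine Real.rpow_le_rpow_of_exponent_le hx.le ?_
    nlinarith [mul_le_mul_of_nonneg_left b8 hη]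
  · refine (sum_le_card_nsmul _ _ (x ^ (-2 : ℝ)) fun t ht => ?_).trans ?_
    · obtain ⟨b1, b2⟩ := mem_filter.1 ht
      have b3 := (mem_sdiff.1 b1).1
      rw [hH, mem_filter, not_and, not_forall] at b2
      obtain ⟨i, hi⟩ := b2 b3
      refine (prod_Lev hx _ (fun j => 2 + if j = i then -D else 0) (fun j => (hφ j t b3).1)
        fun j => ?_).trans (le_of_eq ?_)
      · split_ifs with e
        · rw [e]
          exact (not_le.1 hi).le.trans (Real.rpow_le_rpow_of_exponent_le hx.le (by linarith))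
        · rw [add_zero]
          exact h2 j t b3
      · rw [sum_add_distrib, sum_const, card_univ, nsmul_eq_mul, sum_ite_eq', if_pos (mem_univ _),
          hD]
        congr 1
        ring
    · have a1 : ((((S \ S₀).filter fun t => t ∉ H).card : ℕ) : ℝ) ≤ S.card := by
        exact_mod_cast card_le_card ((filter_subset _ _).trans sdiff_subset)
      rw [nsmul_eq_mul]
      refine (mul_le_mul_of_nonneg_right (a1.trans hS) (by positivity)).trans ?_
      rw [← Real.rpow_add hx0]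
      exact Real.rpow_le_one_of_one_le_of_nonpos hx.le (by linarith)

end Pool.Agent.MP_c853c5_nt.E
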