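import Pool.Agent.MP_c853c5_nt.E.Basic
import Pool.Agent.MP_2a1f0e_nt.DH.PowZ

set_option autoImplicit false

open Finset Filter

namespace Pool.Agent.MP_c853c5_nt.E

open Pool.Agent.MP_2a1f0e_nt Pool.Agent.MP_2a1f0e_nt.GM Pool.Agent.MP_2a1f0e_nt.DH

lemma coef_le_Prod {L : ℕ} {c : ℕ → ℂ} (hc : ∀ n, ‖c n‖ ≤ 1) :
    ∀ l ∈ Icc 1 L, ‖(hf (l : ℝ) : ℂ) * c l‖ ≤ 1 * hf l := fun l _ => by
  rw [norm_mul, one_mul, Complex.norm_real, Real.norm_of_nonneg (hf_nonneg _)]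
  exact mul_le_of_le_one_right (hf_nonneg _) (hc l)

theorem mul_stmt : MulStmt := by
  intro L L' Δ c c' hD hc hc'
  have hΔ : 0 < Δ := zero_lt_one.trans_le hD.1
  obtain ⟨d, h1, h2⟩ := prod_PowZ (A := L) (B := L') le_rfl hD zero_le_one zero_le_one
    (coef_le_Prod hc) (coef_le_Prod hc')
  have hp : ∀ l ∈ Icc 1 (L * L'), 0 < hf (l : ℝ) := fun l hl =>
    hf_pos (by exact_mod_cast (mem_Icc.1 hl).1)
  refine ⟨fun l => if l ∈ Icc 1 (L * L') then d l / ((Δ * hf (l : ℝ) : ℝ) : ℂ) else 0,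
    fun l => ?_, fun t => ?_⟩
  · beta_reduce
    split_ifs with hl
    · have h3 := mul_pos hΔ (hp l hl)
      rw [norm_div, Complex.norm_real, Real.norm_of_nonneg h3.le, div_le_one h3]
      simpa using h1 l hl
    · simp
  · unfold NP
    rw [h2, ← PP_smul]
    unfold PP
    refine sum_congr rfl fun l hl => ?_
    have h3 : (Δ : ℂ) ≠ 0 := Complex.ofReal_ne_zero.2 hΔ.ne'
    have h4 : (hf (l : ℝ) : ℂ) ≠ 0 := Complex.ofReal_ne_zero.2 (hp l hl).ne'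
    beta_reduce
    rw [if_pos hl, Complex.ofReal_mul]
    field_simp

lemma pow_Prod (h : MulStmt) {L₀ L : ℕ} (hL : 1 ≤ L) {Δ : ℝ} {c₀ c : ℕ → ℂ}
    (hc₀ : ∀ n, ‖c₀ n‖ ≤ 1) (hc : ∀ n, ‖c n‖ ≤ 1) (m : ℕ) (hD : DivB (L₀ * L ^ m) Δ) :
    ∃ d : ℕ → ℂ, (∀ n, ‖d n‖ ≤ 1) ∧
      ∀ t : ℝ, NP L₀ c₀ t * NP L c t ^ m = (Δ : ℂ) ^ m * NP (L₀ * L ^ m) d t := by
  induction m with
  | zero => exact ⟨c₀, hc₀, fun t => by simp⟩
  | succ m ih =>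
    obtain ⟨d, h1, h2⟩ := ih (DivB_mono hD
      (Nat.mul_le_mul_left _ (Nat.pow_le_pow_right hL (Nat.le_succ m))))
    have e : L₀ * L ^ (m + 1) = L₀ * L ^ m * L := by ring
    rw [e] at hD ⊢
    obtain ⟨d', h3, h4⟩ := h _ _ Δ d c hD h1 hc
    refine ⟨d', h3, fun t => ?_⟩
    rw [pow_succ, ← mul_assoc, h2, mul_assoc, h4]
    ring

lemma ind_Prod (h : MulStmt) {ι : Type} {S : Finset ℤ} {φ : ι → ℤ → ℝ} {L κ : ι → ℕ}
    {Δ Δ' : ℝ} (hL : ∀ j, 1 ≤ L j) (hΔ : 0 ≤ Δ) (hφ : ∀ j, ∀ t ∈ S, 0 ≤ φ j t)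
    (hd : ∀ j, Dom S (φ j) (L j) Δ) (A : Finset ι) :
    DivB (∏ j ∈ A, L j ^ κ j) Δ' → ∀ w : ℤ → ℝ, (∀ t ∈ S, 0 ≤ w t) →
      ∃ c : ℕ → ℂ, (∀ n, ‖c n‖ ≤ 1) ∧ ∑ t ∈ S, w t * ∏ j ∈ A, φ j t ^ κ j ≤
        (Δ * Δ') ^ (∑ j ∈ A, κ j) * ∑ t ∈ S, w t * ‖NP (∏ j ∈ A, L j ^ κ j) c t‖ := by
  classical
  induction A using Finset.induction_on with
  | empty =>
    intro _ w _
    refine ⟨fun n => if n = 1 then 1 else 0, fun n => ?_, ?_⟩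
    · beta_reduce
      split_ifs <;> simp
    · simp only [prod_empty, sum_empty, pow_zero, one_mul, NP_one le_rfl, norm_one, le_refl]
  | insert j A hj ih =>
    intro hD w hw
    rw [prod_insert hj, mul_comm] at hD
    have hΔ' : 0 ≤ Δ' := zero_le_one.trans hD.1
    obtain ⟨d, h1, h2⟩ := ih (DivB_mono hD (Nat.le_mul_of_pos_right _ (pow_pos (hL j) _)))
      (fun t => w t * φ j t ^ κ j) fun t ht => mul_nonneg (hw t ht) (pow_nonneg (hφ j t ht) _)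
    obtain ⟨c, h3, h4⟩ := hd j (fun t => w t * ‖NP (∏ j ∈ A, L j ^ κ j) d t‖) (κ j)
      fun t ht => mul_nonneg (hw t ht) (norm_nonneg _)
    obtain ⟨d', h5, h6⟩ := pow_Prod h (hL j) h1 h3 (κ j) hD
    refine ⟨d', h5, ?_⟩
    simp only [prod_insert hj, sum_insert hj]
    rw [mul_comm (L j ^ κ j)]
    have h7 : ∑ t ∈ S, w t * ‖NP (∏ j ∈ A, L j ^ κ j) d t‖ * ‖NP (L j) c t‖ ^ κ j =
        Δ' ^ κ j * ∑ t ∈ S, w t * ‖NP ((∏ j ∈ A, L j ^ κ j) * L j ^ κ j) d' t‖ := by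
      rw [mul_sum]
      refine sum_congr rfl fun t _ => ?_
      rw [mul_assoc, ← norm_pow, ← norm_mul, h6, norm_mul, norm_pow, Complex.norm_real,
        Real.norm_of_nonneg hΔ']
      ring
    rw [h7] at h4
    calc ∑ t ∈ S, w t * (φ j t ^ κ j * ∏ j ∈ A, φ j t ^ κ j)
        = ∑ t ∈ S, w t * φ j t ^ κ j * ∏ j ∈ A, φ j t ^ κ j :=
          sum_congr rfl fun t _ => (mul_assoc _ _ _).symm
      _ ≤ (Δ * Δ') ^ (∑ j ∈ A, κ j) *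
          ∑ t ∈ S, w t * ‖NP (∏ j ∈ A, L j ^ κ j) d t‖ * φ j t ^ κ j :=
          h2.trans_eq (congrArg _ (sum_congr rfl fun t _ => mul_right_comm _ _ _))
      _ ≤ (Δ * Δ') ^ (∑ j ∈ A, κ j) * (Δ ^ κ j * (Δ' ^ κ j *
          ∑ t ∈ S, w t * ‖NP ((∏ j ∈ A, L j ^ κ j) * L j ^ κ j) d' t‖)) :=
          mul_le_mul_of_nonneg_left h4 (by positivity)
      _ = _ := by
          rw [pow_add, mul_pow Δ Δ' (κ j)]
          ring

theorem prod_stmt (h : MulStmt) : ProdStmt := by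
  intro ι _ S W φ L κ Δ Δ' hW hL hΔ hφ hd hD
  obtain ⟨c, h1, h2⟩ := ind_Prod h hL hΔ hφ hd univ hD (fun t => if t ∈ W then 1 else 0)
    fun t _ => by split_ifs <;> norm_num
  refine ⟨c, h1, ?_⟩
  simp only [ite_mul, one_mul, zero_mul, sum_ite_mem, inter_eq_right.2 hW] at h2
  exact h2

end Pool.Agent.MP_c853c5_nt.E
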