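import Pool.Agent.MP_c853c5_nt.E.Basic

set_option autoImplicit false

open Finset Filter

namespace Pool.Agent.MP_c853c5_nt.E

open Pool.Agent.MP_2a1f0e_nt Pool.Agent.MP_2a1f0e_nt.GM Pool.Agent.MP_2a1f0e_nt.DH

theorem term_Reg {a V lam : ℝ} {k : ℕ} (ha : 0 ≤ a) (hV : 0 < V) (hl : 1 ≤ lam) (h2 : 2 ≤ k)
    (h6 : k ≤ 6) :
    a / (V / lam) ^ k ≤ lam ^ 6 * (a / V ^ k) ∧ a / (lam * V) ^ k ≤ a / V ^ k / lam ^ 2 := by
  have hl0 : 0 < lam := one_pos.trans_le hl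
  have h0 : 0 ≤ a / V ^ k := by positivity
  constructor
  · have e : a / (V / lam) ^ k = lam ^ k * (a / V ^ k) := by
      rw [div_pow]
      field_simp
    rw [e]
    exact mul_le_mul_of_nonneg_right (pow_le_pow_right₀ hl h6) h0
  · have e : a / (lam * V) ^ k = a / V ^ k / lam ^ k := by
      rw [mul_pow]
      field_simp
    rw [e]
    exact div_le_div_of_nonneg_left h0 (by positivity) (pow_le_pow_right₀ hl h2)

theorem two_Reg {B : ℝ → ℝ → ℝ → ℝ} (f g : ℝ → ℝ → ℝ) (k m : ℕ) (k2 : 2 ≤ k) (k6 : k ≤ 6)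
    (m2 : 2 ≤ m) (m6 : m ≤ 6) (hB : ∀ L T V, B L T V = f L T / V ^ k + g L T / V ^ m)
    (hf : ∀ L L' T, 1 ≤ L → L ≤ L' → 1 ≤ T → 0 ≤ f L T ∧ f L T ≤ f L' T)
    (hg : ∀ L L' T, 1 ≤ L → L ≤ L' → 1 ≤ T → 0 ≤ g L T ∧ g L T ≤ g L' T) : Reg B := by
  constructor
  · intro L L' T V h1 h2 h3 hV
    obtain ⟨a1, a2⟩ := hf L L' T h1 h2 h3
    obtain ⟨b1, b2⟩ := hg L L' T h1 h2 h3
    rw [hB, hB]
    exact ⟨by positivity, by gcongr⟩
  · intro L T V lam h1 h3 hV hl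
    obtain ⟨a1, a2⟩ := term_Reg (hf L L T h1 le_rfl h3).1 hV hl k2 k6
    obtain ⟨b1, b2⟩ := term_Reg (hg L L T h1 le_rfl h3).1 hV hl m2 m6
    rw [hB, hB, hB, mul_add, add_div]
    exact ⟨add_le_add a1 b1, add_le_add a2 b2⟩

theorem reg_stmt : RegStmt := by
  refine ⟨two_Reg (fun _ T => T) (fun L _ => L) 2 2 le_rfl (by norm_num) le_rfl (by norm_num)
      (fun L T V => add_div _ _ _) ?_ ?_,
    two_Reg (fun L _ => L) (fun L T => T * L) 2 6 le_rfl (by norm_num) (by norm_num) le_rfl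
      (fun L T V => rfl) ?_ ?_,
    two_Reg (fun L _ => L) (fun L T => √T * L + T * L ^ (8 / 21 : ℝ)) 2 4 le_rfl (by norm_num)
      (by norm_num) (by norm_num) (fun L T V => rfl) ?_ ?_,
    two_Reg (fun L _ => L) (fun L T => L ^ (12 / 7 : ℝ) * T ^ (1 / 7 : ℝ) + T) 2 4 le_rfl
      (by norm_num) (by norm_num) (by norm_num) (fun L T V => rfl) ?_ ?_,
    two_Reg (fun L _ => L ^ 2) (fun L T => T ^ (3 / 4 : ℝ) * L + T) 4 6 (by norm_num)
      (by norm_num) (by norm_num) le_rfl (fun L T V => rfl) ?_ ?_⟩ <;>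
  · intro L L' T h1 h2 h3
    have hL : 0 ≤ L := zero_le_one.trans h1
    have hT : 0 ≤ T := zero_le_one.trans h3
    exact ⟨by positivity, by gcongr⟩

end Pool.Agent.MP_c853c5_nt.E
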