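import Pool.Agent.MP_c853c5_nt.E.Basic

set_option autoImplicit false

open Finset Filter

namespace Pool.Agent.MP_c853c5_nt.E

open Pool.Agent.MP_2a1f0e_nt Pool.Agent.MP_2a1f0e_nt.GM Pool.Agent.MP_2a1f0e_nt.DH

/-- dyadic decomposition -/
lemma dec_Slv (L : ℕ) {c : ℕ → ℂ} (hc : ∀ n, ‖c n‖ ≤ 1) :
    ∃ b : ℕ → ℕ → ℂ, (∀ i n, ‖b i n‖ ≤ 1) ∧ ∀ t : ℝ, NP L c t =
      ∑ i ∈ range (Nat.log 2 L + 1), (hf ((2 ^ i : ℕ) : ℝ) : ℂ) * DP (2 ^ i) (b i) t := by
  have hp : ∀ i : ℕ, 0 < hf ((2 ^ i : ℕ) : ℝ) := fun i => hf_pos (by positivity)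
  refine ⟨fun i n => if n ∈ Icc 1 L ∧ Nat.log 2 n = i then
    ((hf (n : ℝ) / hf ((2 ^ i : ℕ) : ℝ) : ℝ) : ℂ) * c n else 0, fun i n => ?_, fun t => ?_⟩
  · dsimp only
    split_ifs with h
    · rw [norm_mul, Complex.norm_real, Real.norm_of_nonneg (div_nonneg (hf_nonneg _) (hp i).le)]
      refine mul_le_one₀ ((div_le_one (hp i)).2 (hf_anti (by positivity) ?_)) (norm_nonneg _) (hc n)
      have h1 := (mem_Icc.1 h.1).1
      rw [← h.2]
      exact_mod_cast Nat.pow_log_le_self 2 (by omega : n ≠ 0)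
    · simp
  · unfold NP PP DP
    rw [← sum_fiberwise_of_maps_to (s := Icc 1 L) (t := range (Nat.log 2 L + 1))
      (g := Nat.log 2) fun n hn => mem_range.2
        (Nat.lt_succ_of_le (Nat.log_mono_right (mem_Icc.1 hn).2))]
    refine sum_congr rfl fun i _ => ?_
    have e : (Icc 1 L).filter (fun n => Nat.log 2 n = i) =
        (Icc (2 ^ i) (2 * 2 ^ i)).filter fun n => n ∈ Icc 1 L ∧ Nat.log 2 n = i := by
      ext n
      simp only [mem_filter]
      refine ⟨fun h => ⟨?_, h⟩, fun h => h.2⟩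
      have h1 := (mem_Icc.1 h.1).1
      have h2 := Nat.pow_log_le_self 2 (by omega : n ≠ 0)
      have h3 := Nat.lt_pow_succ_log_self (by norm_num : 1 < 2) n
      rw [h.2] at h2 h3
      rw [pow_succ] at h3
      exact mem_Icc.2 ⟨h2, by omega⟩
    rw [e, sum_filter, mul_sum]
    refine sum_congr rfl fun n _ => ?_
    beta_reduce
    split_ifs with h
    · have h0 : (hf ((2 ^ i : ℕ) : ℝ) : ℂ) ≠ 0 := Complex.ofReal_ne_zero.2 (hp i).ne'
      rw [Complex.ofReal_div]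
      field_simp
    · simp

/-- a large value of the sum is a large value of a block -/
lemma lev_Slv {I T : ℕ} (hI : 0 < I) (b : ℕ → ℕ → ℂ) (F : ℝ → ℂ)
    (hF : ∀ t : ℝ, F t = ∑ i ∈ range I, (hf ((2 ^ i : ℕ) : ℝ) : ℂ) * DP (2 ^ i) (b i) t)
    {W : Finset ℤ} (hW : W ⊆ Icc 0 (T : ℤ)) (U : ℝ) :
    (W.filter fun t : ℤ => U ≤ ‖F t‖).card ≤
      ∑ i ∈ range I, DH.cnt (2 ^ i) (b i) T (√((2 ^ i : ℕ) : ℝ) * (U / I)) := by
  refine le_trans (card_le_card fun t ht => ?_) card_biUnion_le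
  rw [mem_filter] at ht
  have h0 : (I : ℝ) ≠ 0 := by positivity
  have h1 : ∑ _i ∈ range I, U / I ≤
      ∑ i ∈ range I, hf ((2 ^ i : ℕ) : ℝ) * ‖DP (2 ^ i) (b i) t‖ := by
    rw [sum_const, card_range, nsmul_eq_mul, mul_div_cancel₀ _ h0]
    refine ht.2.trans ?_
    rw [hF]
    refine (norm_sum_le _ _).trans (sum_le_sum fun i _ => ?_)
    rw [norm_mul, Complex.norm_real, Real.norm_of_nonneg (hf_nonneg _)]
  obtain ⟨i, hi, h2⟩ := exists_le_of_sum_le (nonempty_range_iff.2 hI.ne') h1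
  refine mem_biUnion.2 ⟨i, hi, mem_filter.2 ⟨hW ht.1, ?_⟩⟩
  have h3 : 0 < √((2 ^ i : ℕ) : ℝ) := Real.sqrt_pos.2 (by positivity)
  rw [hf, one_div, ← div_eq_inv_mul, le_div_iff₀ h3] at h2
  rwa [mul_comm]

lemma min_Slv (y : ℝ) {a : ℝ} (J : ℕ) :
    min y (2 ^ J * a) ≤ a + ∑ j ∈ range J, if 2 ^ j * a ≤ y then 2 ^ j * a else 0 := by
  induction J with
  | zero => simp
  | succ J ih =>
    rw [sum_range_succ]
    split_ifs with h
    · rw [min_eq_right h] at ih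
      have := min_le_right y (2 ^ (J + 1) * a)
      rw [pow_succ] at this ⊢
      linarith
    · rw [min_eq_left (not_le.1 h).le] at ih
      have := min_le_left y (2 ^ (J + 1) * a)
      linarith

/-- from an average to the level sets -/
lemma cake_Slv (W : Finset ℤ) (f : ℤ → ℝ) {a M : ℝ} (ha : 0 < a) (hM : 0 ≤ M)
    (h : ∀ j : ℕ, ((W.filter fun t => 2 ^ j * a ≤ f t).card : ℝ) ≤ M / (2 ^ j) ^ 2)
    (hW : W.card * (2 * a) ≤ ∑ t ∈ W, f t) : (W.card : ℝ) ≤ 2 * M := by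
  obtain ⟨J, hJ⟩ := pow_unbounded_of_one_lt ((∑ t ∈ W, |f t|) / a) (by norm_num : (1 : ℝ) < 2)
  rw [div_lt_iff₀ ha] at hJ
  have h1 : ∑ t ∈ W, f t ≤
      ∑ t ∈ W, (a + ∑ j ∈ range J, if 2 ^ j * a ≤ f t then 2 ^ j * a else 0) :=
    sum_le_sum fun t ht => by
      have h2 := min_Slv (f t) (a := a) J
      rwa [min_eq_left ((le_abs_self _).trans
        ((single_le_sum (f := fun t => |f t|) (fun _ _ => abs_nonneg _) ht).trans hJ.le))] at h2
  rw [sum_add_distrib, sum_comm, sum_const, nsmul_eq_mul] at h1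
  have h2 : ∑ j ∈ range J, ∑ t ∈ W, (if 2 ^ j * a ≤ f t then 2 ^ j * a else 0) ≤
      ∑ j ∈ range J, M * a * (1 / 2) ^ j := sum_le_sum fun j _ => by
    rw [← sum_filter, sum_const, nsmul_eq_mul]
    refine (mul_le_mul_of_nonneg_right (h j) (by positivity)).trans_eq ?_
    rw [one_div, inv_pow]
    field_simp
  rw [← mul_sum] at h2
  have h3 := mul_le_mul_of_nonneg_left (sum_geometric_two_le J) (show 0 ≤ M * a by positivity)
  refine le_of_mul_le_mul_right ?_ ha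
  linarith

theorem slv_stmt : SlvStmt := by
  intro B hB hD ε hε
  obtain ⟨K, hK, hD⟩ := hD (ε / 2) (by positivity)
  obtain ⟨C, hC, hl⟩ := exists_log_le (show 0 < ε / 14 by positivity)
  refine ⟨128 * C ^ 7 * K, by positivity, fun L T V c W hL hT hV hc hW h => ?_⟩
  obtain ⟨b, hb, hF⟩ := dec_Slv L hc
  have hL' : (1 : ℝ) ≤ L := by exact_mod_cast hL
  have hT' : (1 : ℝ) ≤ T := by exact_mod_cast hT
  set I := Nat.log 2 L + 1 with hI
  have hI1 : (1 : ℝ) ≤ I := by exact_mod_cast Nat.succ_pos _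
  have hB0 : ∀ U : ℝ, 0 < U → 0 ≤ B L T U := fun U hU => (hB.1 L L T U hL' le_rfl hT' hU).1
  have h1 : ∀ U : ℝ, 0 < U → ((W.filter fun t : ℤ => U ≤ ‖NP L c t‖).card : ℝ) ≤
      I ^ 7 * (K * ((L : ℝ) * T) ^ (ε / 2)) * B L T U := by
    intro U hU
    have h2 := lev_Slv (Nat.succ_pos _) b (NP L c) hF hW U
    have h3 : ∑ i ∈ range I, (DH.cnt (2 ^ i) (b i) T (√((2 ^ i : ℕ) : ℝ) * (U / I)) : ℝ) ≤
        ∑ _i ∈ range I, K * ((L : ℝ) * T) ^ (ε / 2) * (I ^ 6 * B L T U) := by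
      refine sum_le_sum fun i hi => ?_
      have h4 : 2 ^ i ≤ L := (Nat.pow_le_pow_right (by norm_num)
        (Nat.lt_succ_iff.1 (mem_range.1 hi))).trans (Nat.pow_log_le_self 2 (by omega))
      have h5 : ((2 ^ i : ℕ) : ℝ) ≤ L := by exact_mod_cast h4
      have h6 : (1 : ℝ) ≤ ((2 ^ i : ℕ) : ℝ) := by exact_mod_cast Nat.one_le_two_pow
      have h7 := hB.1 _ _ T (U / I) h6 h5 hT' (by positivity)
      refine (hD (2 ^ i) T (U / I) (b i) Nat.one_le_two_pow hT (by positivity) (hb i)).trans ?_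
      refine mul_le_mul ?_ (h7.2.trans (hB.2 L T U I hL' hT' hU hI1).1) h7.1 (by positivity)
      gcongr
    rw [sum_const, card_range, nsmul_eq_mul] at h3
    refine le_trans (by exact_mod_cast h2) (h3.trans_eq (by ring))
  have h2 := cake_Slv W (fun t => ‖NP L c t‖) (a := V / 2)
    (M := I ^ 7 * (K * ((L : ℝ) * T) ^ (ε / 2)) * B L T (V / 2)) (by positivity)
    (mul_nonneg (by positivity) (hB0 _ (by positivity))) (fun j => by
      refine (h1 _ (by positivity)).trans ?_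
      rw [mul_div_assoc]
      exact mul_le_mul_of_nonneg_left (hB.2 L T (V / 2) (2 ^ j) hL' hT' (by positivity)
        (one_le_pow₀ (by norm_num))).2 (by positivity))
    (by rwa [mul_div_cancel₀ _ (two_ne_zero' ℝ)])
  have h3 := (hB.2 L T V 2 hL' hT' hV (by norm_num)).1
  have h4 : (I : ℝ) ^ 7 ≤ C ^ 7 * ((L : ℝ) * T) ^ (ε / 2) := by
    have h5 : (I : ℝ) ≤ C * (L : ℝ) ^ (ε / 14) := by
      rw [hI]
      push_cast
      exact hl L hL
    refine (pow_le_pow_left₀ (by positivity) h5 7).trans ?_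
    rw [mul_pow, ← Real.rpow_natCast ((L : ℝ) ^ (ε / 14)), ← Real.rpow_mul (by positivity),
      show ε / 14 * ((7 : ℕ) : ℝ) = ε / 2 by push_cast; ring]
    gcongr
    exact le_mul_of_one_le_right (by positivity) hT'
  have h5 : ((L : ℝ) * T) ^ ε = ((L : ℝ) * T) ^ (ε / 2) * ((L : ℝ) * T) ^ (ε / 2) := by
    rw [← Real.rpow_add (by positivity), add_halves]
  have h6 := hB0 V hV
  have h7 := hB0 (V / 2) (by positivity)
  calc (W.card : ℝ) ≤ 2 * (I ^ 7 * (K * ((L : ℝ) * T) ^ (ε / 2)) * B L T (V / 2)) := h2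
    _ ≤ 2 * (C ^ 7 * ((L : ℝ) * T) ^ (ε / 2) * (K * ((L : ℝ) * T) ^ (ε / 2)) *
        (2 ^ 6 * B L T V)) := by gcongr
    _ = _ := by rw [h5]; ring

end Pool.Agent.MP_c853c5_nt.E
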