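import Pool.Agent.MP_c853c5_nt.E.Basic

set_option autoImplicit false

open Finset Filter

namespace Pool.Agent.MP_c853c5_nt.E

open Pool.Agent.MP_2a1f0e_nt Pool.Agent.MP_2a1f0e_nt.GM Pool.Agent.MP_2a1f0e_nt.DH

lemma prod_Tb {ι : Type} [Fintype ι] [DecidableEq ι] (s : ι → Finset ℕ) (c : ι → ℕ → ℝ)
    (h0 : ∀ j, 0 ∉ s j) (t : ℝ) :
    ∏ j, FP (s j) (c j) t = ∑ n ∈ Fintype.piFinset s, ((∏ j, c j (n j) : ℝ) : ℂ) *
      Complex.exp (Complex.I * (t : ℂ) * ((Real.log ((∏ j, n j : ℕ) : ℝ) : ℝ) : ℂ)) := by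
  unfold FP
  rw [prod_univ_sum]
  refine sum_congr rfl fun n hn => ?_
  have h1 : ∀ j ∈ (univ : Finset ι), ((n j : ℕ) : ℝ) ≠ 0 := fun j _ e =>
    h0 j (Nat.cast_eq_zero.1 e ▸ Fintype.mem_piFinset.1 hn j)
  rw [prod_mul_distrib, Nat.cast_prod, Real.log_prod h1, Complex.ofReal_prod, Complex.ofReal_sum,
    mul_sum, Complex.exp_sum]
  rfl

lemma err_Tb {x τ δ Δ Δ₀ : ℝ} (hx : 1 < x) (hδ : 0 < δ) (hδ' : δ ≤ 1 / 10) (hτ : τ ≤ 1 / 2)
    (hW : Wd x τ δ Δ Δ₀) (h1 : 16 * Real.pi ≤ Real.log x)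
    (h2 : Real.log x ^ 2 ≤ x ^ (1 / 2 : ℝ)) :
    Δ₀ ^ 2 * (x ^ δ) ^ 3 + Real.exp (-(Δ ^ 2 * (x ^ τ * Real.log x ^ 3) ^ 2 / (8 * Real.pi))) / Δ
      ≤ 2 * x ^ (-δ) := by
  obtain ⟨w1, w2, w3⟩ := hW
  have x0 : 0 < x := by linarith
  have l0 : 0 < Real.log x := Real.log_pos hx
  have p0 : 0 < x ^ τ := Real.rpow_pos_of_pos x0 _
  have hπ := Real.pi_pos
  rw [Real.rpow_neg x0.le] at w1
  have d0 : 0 < Δ := lt_of_lt_of_le (by positivity) w1
  have e1 : Δ₀ ^ 2 * (x ^ δ) ^ 3 ≤ x ^ (-δ) := by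
    have e : x ^ (-δ) = (x ^ (-(2 * δ))) ^ 2 * (x ^ δ) ^ 3 := by
      rw [← Real.rpow_natCast, ← Real.rpow_natCast, ← Real.rpow_mul x0.le, ← Real.rpow_mul x0.le,
        ← Real.rpow_add x0]
      congr 1
      push_cast
      ring
    rw [e]
    exact mul_le_mul_of_nonneg_right (pow_le_pow_left₀ (d0.le.trans w2) w3 2) (by positivity)
  have e2 : Real.log x ≤ Δ * (x ^ τ * Real.log x ^ 3) := by
    refine le_trans (le_of_eq ?_) (mul_le_mul_of_nonneg_right w1 (by positivity))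
    field_simp
  have e3 : 2 * Real.log x ≤ Δ ^ 2 * (x ^ τ * Real.log x ^ 3) ^ 2 / (8 * Real.pi) := by
    rw [le_div_iff₀ (by positivity), ← mul_pow]
    have := pow_le_pow_left₀ l0.le e2 2
    nlinarith
  have e4 : Real.exp (-(Δ ^ 2 * (x ^ τ * Real.log x ^ 3) ^ 2 / (8 * Real.pi))) ≤
      x ^ (-2 : ℝ) := by
    rw [Real.rpow_def_of_pos x0 (-2)]
    exact Real.exp_le_exp.2 (by linarith)
  have e5 : x ^ (-1 : ℝ) ≤ Δ := by
    refine le_trans ?_ w1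
    rw [Real.rpow_neg_one, le_div_iff₀ (by positivity), inv_mul_eq_div, div_le_iff₀ x0,
      inv_mul_eq_div, le_div_iff₀ p0]
    calc Real.log x ^ 2 * x ^ τ ≤ x ^ (1 / 2 : ℝ) * x ^ (1 / 2 : ℝ) :=
          mul_le_mul h2 (Real.rpow_le_rpow_of_exponent_le hx.le hτ) p0.le (by positivity)
      _ = x := by rw [← Real.rpow_add x0]; norm_num
  have e6 : x ^ (-2 : ℝ) ≤ x ^ (-δ) * Δ := by
    refine le_trans ?_ (mul_le_mul_of_nonneg_left e5 (by positivity))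
    rw [← Real.rpow_add x0]
    exact Real.rpow_le_rpow_of_exponent_le hx.le (by linarith)
  have e7 := (div_le_iff₀ d0).2 (e4.trans e6)
  linarith

theorem tb_stmt (h : TrStmt) : TbStmt := by
  obtain ⟨C, hC, h⟩ := h
  intro δ hδ hδ'
  filter_upwards [eventually_gt_atTop 1, ev_le_log (16 * Real.pi), ev_le_log 1,
    ev_log_le 1 2 (show (0 : ℝ) < 1 / 2 by norm_num), ev_log_le (2 * C) 1 (half_pos hδ)]
    with x hx h1 h1' h2 h3
  intro ι _ _ τ v Δ Δ₀ B s c hτ hτ' hW h0 hc hM hB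
  have x0 : 0 < x := by linarith
  have l0 : 0 < Real.log x := Real.log_pos hx
  rw [one_mul] at h2
  rw [pow_one] at h3
  have d0 : 0 < Δ := lt_of_lt_of_le (by positivity) hW.1
  have hT : x ^ δ ≤ x ^ τ * Real.log x ^ 3 :=
    (Real.rpow_le_rpow_of_exponent_le hx.le (by linarith)).trans
      (le_mul_of_one_le_right (by positivity) (one_le_pow₀ h1'))
  have hS : ∑ n ∈ Fintype.piFinset s, |∏ j, c j (n j)| ≤ x * Real.log x := by
    refine le_trans (sum_le_card_nsmul _ _ 1 fun n _ => ?_) ?_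
    · rw [abs_prod]
      exact prod_le_one (fun _ _ => abs_nonneg _) fun j _ => hc j _
    · rwa [nsmul_eq_mul, mul_one, Fintype.card_piFinset, Nat.cast_prod]
  have key := h (ι → ℕ) (Fintype.piFinset s) (fun n => ∏ j, c j (n j))
    (fun n => Real.log ((∏ j, n j : ℕ) : ℝ)) (fun t => ∏ j, FP (s j) (c j) t) v Δ Δ₀ (x ^ δ)
    (x ^ τ * Real.log x ^ 3) (x * Real.log x) B d0 hW.2.1 (by positivity) hT hS
    (prod_Tb s c h0) (by simpa only [norm_prod] using hB)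
  refine key.trans (add_le_add le_rfl ?_)
  calc _ ≤ C * (x * Real.log x) * (2 * x ^ (-δ)) :=
        mul_le_mul_of_nonneg_left (err_Tb hx hδ hδ' hτ' hW h1 h2) (by positivity)
    _ = 2 * C * Real.log x * (x ^ (1 : ℝ) * x ^ (-δ)) := by rw [Real.rpow_one]; ring
    _ ≤ x ^ (δ / 2) * (x ^ (1 : ℝ) * x ^ (-δ)) := mul_le_mul_of_nonneg_right h3 (by positivity)
    _ = x ^ (1 - δ / 2) := by
        rw [← Real.rpow_add x0, ← Real.rpow_add x0]
        congr 1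
        ring

end Pool.Agent.MP_c853c5_nt.E
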