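import Pool.Agent.MP_c853c5_nt.E.GlueG
import Pool.Agent.MP_c853c5_nt.S.Defs2

/-!
Type I with two smooth factors.
-/

set_option autoImplicit false

open Finset Filter

namespace Pool.Agent.MP_c853c5_nt.E

lemma EvalX.equiv {ι ι' : Type} [Fintype ι] [Fintype ι'] (e : ι ≃ ι') {K : ℕ} {τ η s : ℝ}
    {X : ℝ → (ι → ℝ) → Prop} {X' : ℝ → (ι' → ℝ) → Prop} {b : ι → ℝ} {b' : ι' → ℝ}
    (h : EvalX X' K τ η s b') (hb : ∀ j, b j = b' (e j))
    (hX : ∀ r v, X r v → X' r fun i => v (e.symm i)) : EvalX X K τ η s b := by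
  intro r v h0 h1 h2 h3 h4
  have := h r (fun i => v (e.symm i)) h0 h1 (fun i => by simpa [hb] using h2 (e.symm i))
    (fun κ hκ => by
      rw [← e.sum_comp, ← e.sum_comp fun i => (κ i : ℝ) * v (e.symm i)]
      simpa [hb] using h3 (fun j => κ (e j)) fun j => hκ _) (hX r v h4)
  rwa [e.symm.sum_comp] at this

/-- two smooth slots -/
def eq2 (ι : Type) : Bool ⊕ ι ≃ Option (Option ι) where
  toFun := Sum.elim (fun s => bif s then none else some none) fun i => some (some i)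
  invFun := fun o => o.elim (Sum.inl true) fun o' => o'.elim (Sum.inl false) Sum.inr
  left_inv := by rintro ((_ | _) | i) <;> rfl
  right_inv := by rintro (_ | _ | i) <;> rfl

theorem e12d_of (hC : CoreStmt) (hS : SelfStmt) (hA : AvStmt) (hI : GrdStmt) (hT : TbStmt) :
    S.E12D := by
  intro ι _ τ t η K ht htτ hτ hη hη'
  obtain ⟨γ, hγ, h⟩ := e1dG hC hS hA hI hT Bool ι (Hk.triv Bool ι) K τ t η ht htτ hτ hη hη'
  refine ⟨γ, hγ, h.mono fun x h a b1 b2 N g d y1 y2 ha _ _ hE hs hN l1 u1 l2 u2 _ _ hd hp => ?_⟩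
  have := h a (fun s => bif s then b1 else b2) N g d (fun s => bif s then y1 else y2) ha
    (by rintro (_ | _); exacts [hE.2.1, hE.1])
    (EvalX.equiv (eq2 ι) (Eval.toX hE.2.2) (by rintro ((_ | _) | i) <;> rfl) fun _ _ h => h) hs hN
    (by rintro (_ | _); exacts [⟨l2, u2⟩, ⟨l1, u1⟩]) hd
    (by rw [Fintype.prod_bool, ← mul_assoc]; exact hp)
  rwa [Fintype.prod_bool, ← mul_assoc] at this

end Pool.Agent.MP_c853c5_nt.E
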